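import Pool.Agent.Work.MP_7b0bad_ag.Lin.Stmts
import Pool.Agent.Work.MP_7b0bad_ag.SV.LAll

set_option autoImplicit false

/-!
# Item CB: join with the cover of the whole group
-/

open Polynomial Pointwise Matrix

namespace MP7b0bad.Lin

theorem CB_card (p : ℕ) (F : Type) [Field F] [Finite F] [CharP F p] : p ∣ Nat.card F := by
  have := Fintype.ofFinite F
  rw [Nat.card_eq_fintype_card, ← CharP.cast_eq_zero_iff F p]
  exact Nat.cast_card_eq_zero F

/-- `Rel` for the whole group as `Rz` with trivial tame part -/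
theorem CB_top {k : Type} [Field k] [IsAlgClosed k] (p : ℕ) [Fact p.Prime] [CharP k p]
    {G : Type} [Group G] [Finite G] (P : Subgroup G) (h : Rel k G P) :
    MT.Rz k P 1 (⊤ : Subgroup G) := by
  refine ⟨le_top, ?_⟩
  have h1 : P.map (Subgroup.topEquiv.symm : G ≃* (⊤ : Subgroup G)).toMonoidHom =
      (P ⊔ Subgroup.zpowers 1).subgroupOf ⊤ := by
    rw [Subgroup.zpowers_one_eq_bot, sup_bot_eq]
    ext ⟨x, hx⟩
    rw [Subgroup.mem_map, Subgroup.mem_subgroupOf]
    constructor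
    · rintro ⟨y, hy, hyx⟩
      have h2 : y = x := congrArg Subtype.val hyx
      exact h2 ▸ hy
    · intro hy
      exact ⟨x, hy, rfl⟩
  rw [← h1]
  exact (SV.all_VRAx k p).quo G (⊤ : Subgroup G) _ P (MulEquiv.surjective _) h

theorem prf_CB (hMat : CMat) (hSL : SL.SLFin) (hMRz : MT.MRz) : CB := by
  intro k _ _ p _ _ F _ _ _ n W P c hn hP hnc hW h0 h1 hU
  obtain ⟨hNz, H, hH⟩ := hMat k p F n W c hP.2.1 hW h0 h1
  have hO : Occurs k (SLn n F) P :=
    (hSL k p F n 1 one_pos (by omega) (Or.inl (CB_card p F))).1 P hP.1 hnc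
  have hR : Rel k (SLn n F) P := (all_T0 k (SLn n F) P).2 hO
  have hN1 : MT.Nz p P 1 := by
    refine ⟨hP.1, ?_, fun x hx => ?_⟩
    · rw [orderOf_one]
      exact (Fact.out : p.Prime).one_lt.ne' ∘ Nat.dvd_one.1
    · rwa [one_mul, inv_one, mul_one]
  have h := hMRz k p (SLn n F) P P (UM W) ⊤ H 1 c hN1 hP hN1 hNz le_rfl hU
    (by rw [one_mul, mul_one]) (CB_top p P hR) hH
  rwa [one_mul, sup_top_eq, top_sup_eq] at h

end MP7b0bad.Lin
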