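import Pool.Agent.Work.MP_7b0bad_ag.Lin.Stmts
import Mathlib

set_option autoImplicit false

/-!
# Block Lin, item CDec: decomposition of a space with a semisimple automorphism
-/

open Polynomial

namespace MP7b0bad.Lin

/-- simple modules -/
theorem CDec_simple {F M : Type} [Field F] [AddCommGroup M] [Module F[X] M] [Module F M]
    [IsScalarTower F F[X] M] [Finite M] [IsSimpleModule F[X] M]
    (hinj : ∀ v : M, (X : F[X]) • v = 0 → v = 0) :
    ∃ (E₀ : IntermediateField F (AlgebraicClosure F)) (γ₀ : E₀ˣ) (e : M ≃ₗ[F] E₀), Finite E₀ ∧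
      ∀ v, e ((X : F[X]) • v) = γ₀ * e v := by
  obtain ⟨I, hI, ⟨e1⟩⟩ := isSimpleModule_iff_quot_maximal.mp ‹IsSimpleModule F[X] M›
  let : Field (F[X] ⧸ I) := Ideal.Quotient.field I
  have hfin : Finite (F[X] ⧸ I) := Finite.of_equiv M e1.toEquiv
  have hfd : Module.Finite F (F[X] ⧸ I) := Module.Finite.of_finite
  let φ : (F[X] ⧸ I) →ₐ[F] AlgebraicClosure F := IsAlgClosed.lift
  let e2 : (F[X] ⧸ I) ≃ₐ[F] φ.fieldRange := φ.equivFieldRange
  let e : M ≃ₗ[F] φ.fieldRange := (e1.restrictScalars F).trans e2.toLinearEquiv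
  have he : ∀ v, e v = e2 (e1 v) := fun v => rfl
  have hmul : ∀ v, e ((X : F[X]) • v) = e2 (Ideal.Quotient.mk I X) * e v := by
    intro v
    rw [he, he, map_smul, ← map_mul]
    congr 1
  have hne : (1 : F[X] ⧸ I) ≠ 0 := one_ne_zero
  have hg : e2 (Ideal.Quotient.mk I X) ≠ 0 := by
    intro h0
    have h1 := hmul (e1.symm 1)
    rw [h0, zero_mul] at h1
    have h2 := hinj _ (e.map_eq_zero_iff.1 h1)
    exact hne (e1.symm.map_eq_zero_iff.1 h2)
  refine ⟨φ.fieldRange, Units.mk0 _ hg, e, Finite.of_equiv _ e2.toEquiv, hmul⟩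

/-- adding one component -/
noncomputable def CDec_cons {F : Type} [Field F] {N : ℕ}
    (E₀ : IntermediateField F (AlgebraicClosure F)) (E : Fam F N) :
    (E₀ × Sp E) ≃ₗ[F] Sp (Fin.cons E₀ E : Fam F (N + 1)) :=
  Fin.consLinearEquiv F (fun s => ↥((Fin.cons E₀ E : Fam F (N + 1)) s))

theorem CDec_cons_zero {F : Type} [Field F] {N : ℕ}
    (E₀ : IntermediateField F (AlgebraicClosure F)) (E : Fam F N) (x : E₀ × Sp E) :
    CDec_cons E₀ E x 0 = x.1 := rfl

theorem CDec_cons_succ {F : Type} [Field F] {N : ℕ}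
    (E₀ : IntermediateField F (AlgebraicClosure F)) (E : Fam F N) (x : E₀ × Sp E) (i : Fin N) :
    CDec_cons E₀ E x i.succ = x.2 i := rfl

/-- one step: a simple submodule splits off -/
theorem CDec_step {F M : Type} [Field F] [AddCommGroup M] [Module F[X] M] [Module F M]
    [IsScalarTower F F[X] M] [Finite M] (W X₀ Y : Submodule F[X] M) (h : IsCompl X₀ Y)
    [IsSimpleModule F[X] X₀] (hinj : ∀ v : M, (X : F[X]) • v = 0 → v = 0)
    (hW : X₀ ≤ W ∨ W = ⊥)
    (hY : ∃ (N : ℕ) (E : Fam F N) (w : Fin N → Bool) (γ : ∀ s, (E s)ˣ) (e : Y ≃ₗ[F] Sp E),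
      (∀ s, Finite (E s)) ∧ (∀ v, e ((X : F[X]) • v) = mE E γ (e v)) ∧
      ∀ v : Y, (v : M) ∈ W ↔ e v ∈ Ww E w) :
    ∃ (N : ℕ) (E : Fam F N) (w : Fin N → Bool) (γ : ∀ s, (E s)ˣ) (e : M ≃ₗ[F] Sp E),
      (∀ s, Finite (E s)) ∧ (∀ v, e ((X : F[X]) • v) = mE E γ (e v)) ∧
      ∀ v, v ∈ W ↔ e v ∈ Ww E w := by
  classical
  obtain ⟨N, E, w, γ, e', hE, hX, hw⟩ := hY
  have hinj0 : ∀ v : X₀, (X : F[X]) • v = 0 → v = 0 := fun v hv =>
    Subtype.ext (hinj _ (by simpa using congrArg Subtype.val hv))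
  obtain ⟨E₀, γ₀, e₀, hE₀, hX₀⟩ := CDec_simple (F := F) (M := X₀) hinj0
  let e3 : (X₀ × Y) ≃ₗ[F[X]] M := Submodule.prodEquivOfIsCompl X₀ Y h
  have he3 : ∀ z, e3 z = (z.1 : M) + z.2 := fun z => Submodule.coe_prodEquivOfIsCompl' X₀ Y h z
  let e : M ≃ₗ[F] Sp (Fin.cons E₀ E : Fam F (N + 1)) :=
    ((e3.symm.restrictScalars F).trans (e₀.prodCongr e')).trans (CDec_cons E₀ E)
  have he0 : ∀ z : X₀ × Y, e (e3 z) 0 = e₀ z.1 := by
    intro z
    change CDec_cons E₀ E ((e₀.prodCongr e') (e3.symm (e3 z))) 0 = _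
    rw [e3.symm_apply_apply]
    rfl
  have hes : ∀ (z : X₀ × Y) (i : Fin N), e (e3 z) i.succ = e' z.2 i := by
    intro z i
    change CDec_cons E₀ E ((e₀.prodCongr e') (e3.symm (e3 z))) i.succ = _
    rw [e3.symm_apply_apply]
    rfl
  refine ⟨N + 1, Fin.cons E₀ E, Fin.cons (decide (X₀ ≤ W)) w,
    Fin.cons (α := fun s => (↥((Fin.cons E₀ E : Fam F (N + 1)) s))ˣ) γ₀ γ, e, ?_, ?_, ?_⟩
  · intro s
    refine Fin.cases ?_ ?_ s
    · exact hE₀
    · exact hE
  · intro v
    obtain ⟨z, rfl⟩ := e3.surjective v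
    rw [← map_smul]
    funext s
    refine Fin.cases ?_ (fun i => ?_) s
    · rw [he0, mE_apply, he0]
      exact hX₀ z.1
    · rw [hes, mE_apply, hes]
      exact congrFun (hX z.2) i
  · intro v
    obtain ⟨z, rfl⟩ := e3.surjective v
    have key : e (e3 z) ∈ Ww (Fin.cons E₀ E : Fam F (N + 1)) (Fin.cons (decide (X₀ ≤ W)) w) ↔
        (¬ X₀ ≤ W → e₀ z.1 = 0) ∧ e' z.2 ∈ Ww E w := by
      constructor
      · intro hv
        refine ⟨fun hn => ?_, fun i hi => ?_⟩
        · have h1 := hv 0 (decide_eq_false hn)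
          rwa [he0] at h1
        · have h1 := hv i.succ hi
          rwa [hes] at h1
      · rintro ⟨h1, h2⟩ s
        refine Fin.cases (fun hs => ?_) (fun i hs => ?_) s
        · rw [he0]
          exact h1 (of_decide_eq_false hs)
        · rw [hes]
          exact h2 i hs
    rw [key, ← hw z.2, he3]
    rcases em (X₀ ≤ W) with hXW | hXW
    · have h1 : ((z.1 : M) + z.2) ∈ W ↔ (z.2 : M) ∈ W :=
        Submodule.add_mem_iff_right W (hXW z.1.2)
      rw [h1]
      exact ⟨fun hz => ⟨fun hn => absurd hXW hn, hz⟩, fun hz => hz.2⟩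
    · have hWb : W = ⊥ := hW.resolve_left hXW
      rw [hWb, Submodule.mem_bot, Submodule.mem_bot]
      constructor
      · intro hz
        have h2 : z = 0 := by
          apply e3.injective
          rw [he3, hz, map_zero]
        rw [h2]
        exact ⟨fun _ => map_zero _, rfl⟩
      · rintro ⟨h1, h2⟩
        have h3 : z.1 = 0 := e₀.map_eq_zero_iff.1 (h1 (by rwa [hWb] at hXW))
        rw [h3, h2]
        simp

/-- the decomposition of a finite semisimple `F[X]`-module -/
theorem CDec_main {F : Type} [Field F] : ∀ (n : ℕ) (M : Type) [AddCommGroup M] [Module F[X] M]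
    [Module F M] [IsScalarTower F F[X] M] [Finite M] [IsSemisimpleModule F[X] M]
    (W : Submodule F[X] M), Nat.card M ≤ n → (∀ v : M, (X : F[X]) • v = 0 → v = 0) →
    ∃ (N : ℕ) (E : Fam F N) (w : Fin N → Bool) (γ : ∀ s, (E s)ˣ) (e : M ≃ₗ[F] Sp E),
      (∀ s, Finite (E s)) ∧ (∀ v, e ((X : F[X]) • v) = mE E γ (e v)) ∧
      ∀ v, v ∈ W ↔ e v ∈ Ww E w := by
  intro n
  induction n with
  | zero =>
    intro M _ _ _ _ _ _ W hc _
    exact absurd hc (not_le.2 Nat.card_pos)
  | succ n ih =>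
    intro M _ _ _ _ _ _ W hc hinj
    rcases subsingleton_or_nontrivial M with hs | hn
    · refine ⟨0, Fin.elim0, Fin.elim0, fun s => s.elim0, ?_, fun s => s.elim0, ?_, ?_⟩
      · exact
        { toFun := fun _ s => s.elim0
          map_add' := fun _ _ => funext fun s => s.elim0
          map_smul' := fun _ _ => funext fun s => s.elim0
          invFun := fun _ => 0
          left_inv := fun _ => Subsingleton.elim _ _
          right_inv := fun _ => funext fun s => s.elim0 }
      · intro v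
        funext s
        exact s.elim0
      · intro v
        rw [Subsingleton.elim v 0]
        exact ⟨fun _ s => s.elim0, fun _ => W.zero_mem⟩
    · obtain ⟨X₀, hX₀, hX₀W⟩ : ∃ X₀ : Submodule F[X] M, IsAtom X₀ ∧ (X₀ ≤ W ∨ W = ⊥) := by
        rcases eq_or_ne W ⊥ with hW | hW
        · obtain ⟨X₀, h1, -⟩ := (eq_bot_or_exists_atom_le (⊤ : Submodule F[X] M)).resolve_left
            (by
              intro h
              exact bot_ne_top h.symm)
          exact ⟨X₀, h1, Or.inr hW⟩
        · obtain ⟨X₀, h1, h2⟩ := (eq_bot_or_exists_atom_le W).resolve_left hW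
          exact ⟨X₀, h1, Or.inl h2⟩
      obtain ⟨Y, hY⟩ := exists_isCompl X₀
      have : IsSimpleModule F[X] X₀ := isSimpleModule_iff_isAtom.2 hX₀
      refine CDec_step W X₀ Y hY hinj hX₀W ?_
      have hcard : Nat.card Y ≤ n := by
        have h1 : Nat.card M = Nat.card X₀ * Nat.card Y := by
          rw [← Nat.card_prod]
          exact (Nat.card_congr (Submodule.prodEquivOfIsCompl X₀ Y hY).toEquiv).symm
        have h2 : 1 < Nat.card X₀ := by
          have : Nontrivial X₀ := (Submodule.nontrivial_iff_ne_bot).2 hX₀.1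
          exact Finite.one_lt_card
        have h3 : 0 < Nat.card Y := Nat.card_pos
        rw [h1] at hc
        nlinarith
      obtain ⟨N, E, w, γ, e, h1, h2, h3⟩ := ih Y (W.comap Y.subtype) hcard
        (fun v hv => Subtype.ext (hinj _ (by simpa using congrArg Subtype.val hv)))
      exact ⟨N, E, w, γ, e, h1, h2, fun v => h3 v⟩

theorem prf_CDec : CDec := by
  intro p _ F V _ _ _ _ _ _ W c hc hW
  classical
  have : Fintype V := Fintype.ofFinite V
  have : Finite (V ≃ₗ[F] V) := Finite.of_injective (fun g : V ≃ₗ[F] V => (g : V → V))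
    DFunLike.coe_injective
  set f : Module.End F V := c.toLinearMap with hf
  have hm : 0 < orderOf c := orderOf_pos c
  have hss : f.IsSemisimple := by
    refine Module.End.isSemisimple_of_squarefree_aeval_eq_zero (p := X ^ orderOf c - 1) ?_ ?_
    · refine Separable.squarefree (Polynomial.separable_X_pow_sub_C (1 : F) ?_ one_ne_zero)
      intro h0
      exact hc ((CharP.cast_eq_zero_iff F p _).1 h0)
    · rw [map_sub, map_pow, aeval_X, map_one, sub_eq_zero]
      have h1 : ∀ m : ℕ, f ^ m = ((c ^ m : V ≃ₗ[F] V) : V →ₗ[F] V) := by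
        intro m
        induction m with
        | zero => rfl
        | succ m ih =>
          rw [pow_succ, ih, pow_succ]
          rfl
      rw [h1, pow_orderOf_eq_one]
      rfl
  have : IsSemisimpleModule F[X] (Module.AEval' f) := hss
  have : Finite (Module.AEval' f) := ‹Finite V›
  have hWf : W ∈ (Algebra.lsmul F F V f).invtSubmodule := fun v hv => hW v hv
  obtain ⟨N, E, w, γ, e, h1, h2, h3⟩ := CDec_main (F := F) _ (Module.AEval' f)
    (Module.AEval.mapSubmodule F V f ⟨W, hWf⟩) le_rfl (by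
      intro v hv
      obtain ⟨u, rfl⟩ := (Module.AEval'.of f).surjective v
      rw [Module.AEval'.X_smul_of] at hv
      have h4 : f u = 0 := (Module.AEval'.of f).map_eq_zero_iff.1 hv
      have h5 : u = 0 := c.map_eq_zero_iff.1 h4
      rw [h5, map_zero])
  refine ⟨N, E, w, γ, (Module.AEval'.of f).trans e, h1, fun v => ?_, fun v => ?_⟩
  · change e (Module.AEval'.of f (f v)) = _
    rw [← Module.AEval'.X_smul_of, h2]
    rfl
  · exact (Module.AEval.mem_mapSubmodule_apply (R := F) (M := V) (a := f) (p := ⟨W, hWf⟩)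
      (m := Module.AEval'.of f v)).symm.trans (h3 (Module.AEval'.of f v))

end MP7b0bad.Lin
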