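import Pool.Agent.Work.MP_7b0bad_ag.Lin.Stmts

set_option autoImplicit false

/-!
# Item CDet.  Author: helper22.
-/

namespace MP7b0bad.Lin

/-- a `p`-element of the multiplicative group of a field of characteristic `p` is trivial -/
theorem CDet_unit {p : ℕ} [Fact p.Prime] {F : Type} [Field F] [CharP F p] {x : Fˣ} {m : ℕ}
    (h : x ^ p ^ m = 1) : x = 1 := by
  apply Units.ext
  have h1 : (x : F) ^ p ^ m = 1 := by
    rw [← Units.val_pow_eq_pow_val, h, Units.val_one]
  have h2 : ((x : F) - 1) ^ p ^ m = 0 := by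
    rw [sub_pow_char_pow, h1, one_pow, sub_self]
  have h3 := pow_eq_zero_iff (pow_ne_zero m (Fact.out : p.Prime).ne_zero) |>.mp h2
  rw [Units.val_one]
  exact sub_eq_zero.mp h3

theorem prf_CDet : CDet := by
  intro k _ _ p _ _ F V _ _ _ _ _ _ P H c hN hR h hh
  obtain ⟨hle, hrel⟩ := hR
  have hP : P ≤ H := le_sup_left.trans hle
  have hcz : Subgroup.zpowers c ≤ H := le_sup_right.trans hle
  have hc : c ∈ H := hcz (Subgroup.mem_zpowers c)
  have : Finite (V ≃ₗ[F] V) := Finite.of_injective (fun g : V ≃ₗ[F] V => (g : V → V))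
    DFunLike.coe_injective
  have hz : (Subgroup.zpowers c).subgroupOf H = Subgroup.zpowers (⟨c, hc⟩ : H) := by
    ext x
    rw [Subgroup.mem_subgroupOf, Subgroup.mem_zpowers_iff, Subgroup.mem_zpowers_iff]
    constructor
    · rintro ⟨n, hn⟩
      exact ⟨n, Subtype.ext (by rw [Subgroup.coe_zpow]; exact hn)⟩
    · rintro ⟨n, rfl⟩
      exact ⟨n, (Subgroup.coe_zpow H ⟨c, hc⟩ n).symm⟩
  have hs : (P ⊔ Subgroup.zpowers c).subgroupOf H =
      P.subgroupOf H ⊔ Subgroup.zpowers (⟨c, hc⟩ : H) := by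
    rw [Subgroup.subgroupOf_sup hP hcz, hz]
  rw [hs] at hrel
  have hN' : MT.Nz p (P.subgroupOf H) (⟨c, hc⟩ : H) := by
    refine ⟨?_, ?_, ?_⟩
    · exact hN.1.comap_of_injective H.subtype Subtype.val_injective
    · have h1 : orderOf (⟨c, hc⟩ : H) = orderOf c := Subgroup.orderOf_mk c hc
      rw [h1]
      exact hN.2.1
    · intro x hx
      exact hN.2.2 x hx
  have hnc := MT.prf_MQp k p H (P.subgroupOf H) ⟨c, hc⟩ hN' hrel
  let φ : H →* Fˣ := (LinearEquiv.det : (V ≃ₗ[F] V) →* Fˣ).comp H.subtype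
  have hk : Subgroup.normalClosure ((P.subgroupOf H : Subgroup H) : Set H) ≤ φ.ker := by
    apply Subgroup.normalClosure_le_normal
    intro x hx
    obtain ⟨m, hm⟩ := hN'.1 ⟨x, hx⟩
    have h1 : x ^ p ^ m = 1 := congrArg Subtype.val hm
    have h2 : φ x ^ p ^ m = 1 := by rw [← map_pow, h1, map_one]
    exact CDet_unit h2
  rw [hnc] at hk
  exact hk (Subgroup.mem_top (⟨h, hh⟩ : H))

end MP7b0bad.Lin
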