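import Pool.Agent.Work.MP_7b0bad_ag.Lin.Stmts

set_option autoImplicit false

/-!
# Block Lin, item CExt: extension by the identity
-/

namespace MP7b0bad.Lin

variable {F E E' V : Type} [Field F] [Field E] [Field E'] [Algebra F E] [Algebra F E']
  [AddCommGroup V] [Module F V]

/-- the linear map `v ↦ v + i (g (r v) - r v)` -/
def CExt_lin (i : (E × E') →ₗ[F] V) (r : V →ₗ[F] (E × E')) (g : (E × E') ≃ₗ[F] (E × E')) :
    V →ₗ[F] V :=
  LinearMap.id + i ∘ₗ ((g : (E × E') →ₗ[F] (E × E')) ∘ₗ r - r)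

theorem CExt_lin_apply (i : (E × E') →ₗ[F] V) (r : V →ₗ[F] (E × E'))
    (g : (E × E') ≃ₗ[F] (E × E')) (v : V) : CExt_lin i r g v = v + i (g (r v) - r v) := rfl

theorem CExt_lin_mul (i : (E × E') →ₗ[F] V) (r : V →ₗ[F] (E × E')) (hr : ∀ z, r (i z) = z)
    (g h : (E × E') ≃ₗ[F] (E × E')) (v : V) :
    CExt_lin i r g (CExt_lin i r h v) = CExt_lin i r (g * h) v := by
  have h1 : r (CExt_lin i r h v) = h (r v) := by
    rw [CExt_lin_apply, map_add, hr]
    abel
  rw [CExt_lin_apply i r g, h1, CExt_lin_apply i r h, CExt_lin_apply i r (g * h),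
    LinearEquiv.mul_apply, add_assoc, ← map_add]
  congr 2
  abel

theorem CExt_lin_one (i : (E × E') →ₗ[F] V) (r : V →ₗ[F] (E × E')) (v : V) :
    CExt_lin i r (1 : (E × E') ≃ₗ[F] (E × E')) v = v := by
  rw [CExt_lin_apply]
  change v + i (r v - r v) = v
  rw [sub_self, map_zero, add_zero]

/-- the automorphism -/
def CExt_eq (i : (E × E') →ₗ[F] V) (r : V →ₗ[F] (E × E')) (hr : ∀ z, r (i z) = z)
    (g : (E × E') ≃ₗ[F] (E × E')) : V ≃ₗ[F] V :=
  LinearEquiv.ofLinearMap (CExt_lin i r g) (CExt_lin i r g⁻¹)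
    (by
      ext v
      change CExt_lin i r g (CExt_lin i r g⁻¹ v) = v
      rw [CExt_lin_mul i r hr, mul_inv_cancel, CExt_lin_one])
    (by
      ext v
      change CExt_lin i r g⁻¹ (CExt_lin i r g v) = v
      rw [CExt_lin_mul i r hr, inv_mul_cancel, CExt_lin_one])

/-- the homomorphism -/
def CExt_hom (i : (E × E') →ₗ[F] V) (r : V →ₗ[F] (E × E')) (hr : ∀ z, r (i z) = z) :
    ((E × E') ≃ₗ[F] (E × E')) →* (V ≃ₗ[F] V) where
  toFun := CExt_eq i r hr
  map_one' := by
    ext v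
    exact CExt_lin_one i r v
  map_mul' := fun g h => by
    ext v
    exact (CExt_lin_mul i r hr g h v).symm

theorem CExt_hom_apply (i : (E × E') →ₗ[F] V) (r : V →ₗ[F] (E × E')) (hr : ∀ z, r (i z) = z)
    (g : (E × E') ≃ₗ[F] (E × E')) (v : V) :
    CExt_hom i r hr g v = v + i (g (r v) - r v) := rfl

/-- [CExt] -/
theorem prf_CExt : CExt := by
  intro F E E' V _ _ _ _ _ _ _ W i r hr hi hW
  refine ⟨CExt_hom i r hr, ?_, fun g v => CExt_hom_apply i r hr g v, ?_⟩
  · intro g h hgh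
    ext1 z
    have h1 : CExt_hom i r hr g (i z) = CExt_hom i r hr h (i z) := by rw [hgh]
    rw [CExt_hom_apply, CExt_hom_apply, add_right_inj, hr] at h1
    have h2 := congrArg r h1
    rw [hr, hr, sub_left_inj] at h2
    exact h2
  · rintro g ⟨hg1, hg2⟩
    refine ⟨fun v => ?_, fun w hw => ?_⟩
    · rw [CExt_hom_apply, add_sub_cancel_left]
      have h1 := (Submodule.mem_prod.mp (hg1 (r v))).2
      have h2 : (g (r v) - r v) = ((g (r v) - r v).1, 0) :=
        Prod.ext rfl ((Submodule.mem_bot F).mp h1)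
      rw [h2]
      exact hi _
    · have h1 : r w ∈ (Submodule.prod ⊤ ⊥ : Submodule F (E × E')) :=
        Submodule.mem_prod.mpr ⟨trivial, (Submodule.mem_bot F).mpr (hW w hw)⟩
      rw [CExt_hom_apply, hg2 (r w) h1, sub_self, map_zero, add_zero]

end MP7b0bad.Lin
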