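import Pool.Agent.Work.MP_7b0bad_ag.Lin.Stmts

set_option autoImplicit false

/-!
# Item CMat.  Author: helper50.
-/

open Matrix

namespace MP7b0bad.Lin

/-- pull back a realisation along an injective homomorphism -/
theorem CMat_comap {k : Type} [Field k] [IsAlgClosed k] (p : ℕ) [Fact p.Prime] [CharP k p]
    {G G' : Type} [Group G] [Finite G] [Group G'] [Finite G'] (f : G →* G')
    (hf : Function.Injective f) {P H : Subgroup G'} {c : G} (hH : H ≤ f.range)
    (h : MT.Rz k P (f c) H) : MT.Rz k (P.comap f) c (H.comap f) := by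
  obtain ⟨h1, h2⟩ := h
  have hsup : P ⊔ Subgroup.zpowers (f c) = (P.comap f ⊔ Subgroup.zpowers c).map f := by
    rw [Subgroup.map_sup, MonoidHom.map_zpowers,
      Subgroup.map_comap_eq_self ((le_sup_left.trans h1).trans hH)]
  have hmem : ∀ x : G, f x ∈ P ⊔ Subgroup.zpowers (f c) ↔
      x ∈ P.comap f ⊔ Subgroup.zpowers c := by
    intro x
    rw [hsup, Subgroup.mem_map]
    constructor
    · rintro ⟨y, hy, hyx⟩
      rwa [← hf hyx]
    · intro hx
      exact ⟨x, hx, rfl⟩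
  let e : H.comap f ≃* H := MulEquiv.ofBijective (f.subgroupComap H) ⟨by
    rintro ⟨x, hx⟩ ⟨y, hy⟩ hxy
    exact Subtype.ext (hf (congrArg Subtype.val hxy)), by
    rintro ⟨y, hy⟩
    obtain ⟨x, rfl⟩ := hH hy
    exact ⟨⟨x, hy⟩, rfl⟩⟩
  have he : ∀ x : H.comap f, ((e x : H) : G') = f x := fun x => rfl
  refine ⟨fun x hx => h1 ((hmem x).2 hx), ?_⟩
  have h3 := (SV.all_VRAx k p).quo H (H.comap f) e.symm.toMonoidHom _ e.symm.surjective h2
  have h4 : ((P ⊔ Subgroup.zpowers (f c)).subgroupOf H).map e.symm.toMonoidHom =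
      (P.comap f ⊔ Subgroup.zpowers c).subgroupOf (H.comap f) := by
    ext x
    rw [Subgroup.mem_subgroupOf, ← hmem x, Subgroup.mem_map]
    constructor
    · rintro ⟨y, hy, rfl⟩
      change f (e.symm y : H.comap f) ∈ _
      rw [← he, MulEquiv.apply_symm_apply]
      exact hy
    · intro hx
      refine ⟨e x, ?_, ?_⟩
      · rw [Subgroup.mem_subgroupOf, he]
        exact hx
      · exact e.symm_apply_apply x
  rw [← h4]
  exact h3

theorem prf_CMat (hTor : CTor) (hDet : CDet) (hUni : CUni) : CMat := by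
  intro k _ _ p _ _ F _ _ _ n W c hcp hcW hbot htop
  let Λ : SLn n F →* ((Fin n → F) ≃ₗ[F] (Fin n → F)) := SpecialLinearGroup.toLin'
  have hΛ : Function.Injective Λ := SpecialLinearGroup.toLin'_injective
  have hap : ∀ (g : SLn n F) (v : Fin n → F), Λ g v = g.1 *ᵥ v := fun g v => by
    change SpecialLinearGroup.toLin' g v = _
    rw [SpecialLinearGroup.toLin'_apply, Matrix.toLin'_apply]
  have : Finite ((Fin n → F) ≃ₗ[F] (Fin n → F)) :=
    Finite.of_injective (fun g : (Fin n → F) ≃ₗ[F] (Fin n → F) => (g : (Fin n → F) → (Fin n → F)))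
      DFunLike.coe_injective
  have hUM : UM W = (Uni W).comap Λ := by
    ext g
    rw [Subgroup.mem_comap]
    change ((∀ v, g.1 *ᵥ v - v ∈ W) ∧ ∀ w ∈ W, g.1 *ᵥ w = w) ↔
      ((∀ v, Λ g v - v ∈ W) ∧ ∀ w ∈ W, Λ g w = w)
    simp only [hap]
  obtain ⟨hU1, hU2⟩ := hUni p F (Fin n → F) W
  have hcW' : ∀ w, Λ c w ∈ W ↔ w ∈ W := by
    have h1 : ∀ w ∈ W, Λ c w ∈ W := fun w hw => by
      rw [hap]
      exact hcW w hw
    let φ : W → W := fun w => ⟨Λ c w, h1 w w.2⟩
    have hφ : Function.Injective φ := by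
      intro a b hab
      exact Subtype.ext ((Λ c).injective (congrArg Subtype.val hab))
    have hφ' : Function.Surjective φ := Finite.injective_iff_surjective.mp hφ
    intro w
    refine ⟨fun hw => ?_, h1 w⟩
    obtain ⟨⟨y, hy⟩, hyw⟩ := hφ' ⟨Λ c w, hw⟩
    have := (Λ c).injective (congrArg Subtype.val hyw)
    rwa [← this]
  have hord : orderOf (Λ c) = orderOf c := orderOf_injective Λ hΛ c
  have hN : MT.Nz p (Uni W) (Λ c) := ⟨hU1, by rwa [hord], hU2 (Λ c) hcW'⟩
  have hdet : ∀ g : SLn n F, LinearEquiv.det (Λ g) = 1 := by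
    intro g
    apply Units.ext
    rw [LinearEquiv.coe_det, Units.val_one]
    change LinearMap.det (SpecialLinearGroup.toLin' g : (Fin n → F) →ₗ[F] (Fin n → F)) = 1
    rw [SpecialLinearGroup.toLin'_to_linearMap, LinearMap.det_toLin']
    exact g.2
  have hrg : ∀ h : (Fin n → F) ≃ₗ[F] (Fin n → F), LinearEquiv.det h = 1 → h ∈ Λ.range := by
    intro h hh
    refine ⟨⟨LinearMap.toMatrix' (h : (Fin n → F) →ₗ[F] (Fin n → F)), ?_⟩, ?_⟩
    · rw [LinearMap.det_toMatrix', ← LinearEquiv.coe_det, hh, Units.val_one]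
    · apply LinearEquiv.ext
      intro v
      rw [hap]
      exact LinearMap.toMatrix'_mulVec _ v
  refine ⟨?_, ?_⟩
  · rw [hUM]
    refine ⟨hN.1.comap_of_injective Λ hΛ, hcp, ?_⟩
    intro x hx
    rw [Subgroup.mem_comap] at hx ⊢
    rw [map_mul, map_mul, map_inv]
    exact hN.2.2 _ hx
  · obtain ⟨H, hH⟩ := hTor k p F (Fin n → F) W (Λ c) (by rwa [hord])
      (fun w hw => (hcW' w).2 hw) hbot htop (hdet c)
    refine ⟨H.comap Λ, ?_⟩
    rw [hUM]
    exact CMat_comap p Λ hΛ (fun h hh => hrg h (hDet k p F (Fin n → F) _ H _ hN hH h hh)) hH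

end MP7b0bad.Lin
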