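import Pool.Agent.Work.MP_7b0bad_ag.Lin.Defs
import Pool.Agent.Work.MP_7b0bad_ag.MT.MQp
import Pool.Agent.Work.MP_7b0bad_ag.SL.Stmts

set_option autoImplicit false

/-!
# Block Lin: special linear groups in the defining characteristic: statements

`SLn n F = SL_n(F)`, `UM W`, `Uni W` = the elements `g` with `(g - 1) V ≤ W`, `(g - 1) W = 0`.
`MT.Rz k P c H`: `P ⟨c⟩ ≤ H` is an inertia group for
`H`; `MT.Nz p P c`: `P` is a `p`-group, `c` normalises `P` and has order prime to `p`;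
`MT.anax_tr`, `MT.anax_pow` (`MT/ANax.lean`): images of `Rz`, powers of `c`.
-/

open Polynomial Pointwise Matrix

namespace MP7b0bad.Lin

open SnT (cc xx)

/-! ## B. The covers `Y^(q^n) + x Y^(q^i) + Y`

`F` a finite field with `q` elements, `ι : F → k`, `n = i + j`, `E`, `E'` the extensions of `F` of
degrees `i`, `j` (`q^i` and `q^j` elements), `κ`, `κ'` their embeddings in `k`.
`Vl k q i n L` = the roots of the additive polynomial, `v = A.valuation`, `m = A.nonunits`,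
`D` = decomposition group of `A` (`σ • A = A`); `s ≡ t` means `s - t ∈ m`.
The models are the files of block Ad (`Ad/DUnr.lean`, `Ad/DVal.lean`, `Ad/DBas.lean`, `Ad/DOrb.lean`,
`Ad/AMain.lean`), where `i = j = 1`. -/

/-- [ESep] the polynomial: monic of degree `q^n - 1`, separable: `Y G' = - Y^(q^n-1) - x Y^(q^i-1) =
1 - G` (compare `Ad/DIrr.lean`; irreducibility is not needed) -/
def ESep : Prop := ∀ (k : Type) [Field k] (q i n : ℕ), 2 ≤ q → 0 < i → i < n →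
  ((q : ℕ) : k) = 0 →
  (FL k q i n).Monic ∧ (FL k q i n).natDegree = q ^ n - 1 ∧ (FL k q i n).Separable

/-- [EUnr] finite places are unramified, as `Ad/DUnr.lean` -/
def EUnr : Prop := ∀ (p : ℕ) [Fact p.Prime] (k : Type) [Field k] [CharP k p] (m i n : ℕ), 0 < m →
  0 < i → i < n → ∀ (L : Type) [Field L] [Algebra (RatFunc k) L]
  [IsSplittingField (RatFunc k) L (FL k (p ^ m) i n)] (A : ValuationSubring L),
  (∀ c : k, cc k L c ∈ A) → xx k L ∈ A → ValuationSubring.inertiaSubgroup (RatFunc k) A = ⊥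

/-- [EVal] as `Ad/DVal.lean`: `y^(q^n-1) + x y^(q^i-1) = -1` -/
def EVal : Prop := ∀ (k : Type) [Field k] (q i n : ℕ), 2 ≤ q → 0 < i → i < n → ∀ (L : Type)
  [Field L] [Algebra (RatFunc k) L] (A : ValuationSubring L), AtInfty (k := k) A →
  ∀ y ∈ Vl k q i n L, y ≠ 0 →
  (y ∈ A.nonunits ∧ A.valuation y ^ (q ^ i - 1) * A.valuation (xx k L) = 1) ∨
    (y ∉ A ∧ A.valuation y ^ (q ^ n - q ^ i) = A.valuation (xx k L))

/-- [ECnt] (hSep, hVal) the number of small roots.  `FL` is separable of degree `q^n - 1` and splits,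
so `Vl` has `q^n` elements.  The product of the nonzero elements is `± 1` (constant coefficient `1`).
`s` = number of the nonzero elements in `A`, `b` = number of the elements not in `A`; raising
`∏ v(y) = 1` to the power `(q^i - 1)(q^n - q^i)` gives `s (q^n - q^i) = b (q^i - 1)` (`v(x) > 1`), and
`s + b = q^n - 1`, so `s = q^i - 1`. -/
def ECnt : Prop := ∀ (p : ℕ) [Fact p.Prime] (k : Type) [Field k] [CharP k p] (m i n : ℕ), 0 < m →
  0 < i → i < n → ∀ (L : Type) [Field L] [Algebra (RatFunc k) L]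
  [IsSplittingField (RatFunc k) L (FL k (p ^ m) i n)] (A : ValuationSubring L),
  AtInfty (k := k) A → (Vl k (p ^ m) i n L).ncard = (p ^ m) ^ n ∧
    {y | y ∈ Vl k (p ^ m) i n L ∧ y ∈ A}.ncard = (p ^ m) ^ i

/-- the data: `F` has `p^m` elements, `E` has `(p^m)^i` and `E'` has `(p^m)^j` elements -/
structure Dt (p : ℕ) {k F E E' : Type} [Field k] [Field F] [Field E] [Field E'] [Algebra F E]
    [Algebra F E'] (ι : F →+* k) (κ : E →+* k) (κ' : E' →+* k) (m i j : ℕ) : Prop where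
  hm : 0 < m
  hi : 0 < i
  hj : 0 < j
  cF : Nat.card F = p ^ m
  cE : Nat.card E = (p ^ m) ^ i
  cE' : Nat.card E' = (p ^ m) ^ j
  hκ : ∀ a : F, κ (algebraMap F E a) = ι a
  hκ' : ∀ a : F, κ' (algebraMap F E' a) = ι a

/-- [EL1] (hVal, hCnt) labels for the small roots.  `q = p^m`.  For `y ∈ Vl` small and nonzero
`x y^(q^i-1) = - 1 - y^(q^n-1) ≡ -1`, so `t = y / w₀` has `t^(q^i-1) ≡ 1`; in all cases
`t^(q^i) - t ∈ m`.  Over `k` the polynomial `T^(q^i) - T` is the product of the `T - κ α`, `α ∈ E`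
(`FiniteField.X_pow_card_sub_X`-type facts; or: these are `q^i` roots), and `m` is prime, so
`t ≡ κ α` for some `α`, unique because `κ α - κ α'` is a unit for `α ≠ α'` (`Bd`: `F3_C`).  The label
is additive, `F`-linear and injective (`y - y'` is `0` or has the value of `w₀`), so bijective
(`hCnt`); `l` is the inverse map. -/
def EL1 : Prop := ∀ (p : ℕ) [Fact p.Prime] (k : Type) [Field k] [CharP k p] (F E E' : Type)
  [Field F] [Field E] [Field E'] [Finite F] [Finite E] [Finite E'] [Algebra F E] [Algebra F E']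
  (ι : F →+* k) (κ : E →+* k) (κ' : E' →+* k) (m i j : ℕ), Dt p ι κ κ' m i j →
  ∀ (L : Type) [Field L] [Algebra (RatFunc k) L]
  [IsSplittingField (RatFunc k) L (FL k (p ^ m) i (i + j))] (A : ValuationSubring L),
  AtInfty (k := k) A → ∀ w₀ ∈ Vl k (p ^ m) i (i + j) L, w₀ ≠ 0 → w₀ ∈ A →
  ∃ l : E → L, Function.Injective l ∧ Set.range l = {y | y ∈ Vl k (p ^ m) i (i + j) L ∧ y ∈ A} ∧
    (∀ α β, l (α + β) = l α + l β) ∧ (∀ (a : F) α, l (a • α) = cc k L (ι a) * l α) ∧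
    ∀ α, l α / w₀ - cc k L (κ α) ∈ A.nonunits

/-- [EL2] (hVal, hCnt) labels for all roots modulo the small ones.  `q = p^m`, `n = i + j`.  For `y`
big `y^(q^n-q^i) = - x (1 + y^(1-q^i)/x)`, so `t = y / y₀` has `t^(q^n-q^i) ≡ 1`, i.e.
`(t^(q^j-1) - 1)^(q^i) ∈ m`, `t^(q^j-1) ≡ 1`; for `y` small `t ∈ m`.  In all cases `t^(q^j) ≡ t`, so
`t ≡ κ' β` for a unique `β` (see `EL1`).  `lb y = 0` iff `y` is small; the fibres of `lb` on `Vl`
are the cosets of the small roots, so `lb` takes `q^n / q^i` values, i.e. it is surjective. -/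
def EL2 : Prop := ∀ (p : ℕ) [Fact p.Prime] (k : Type) [Field k] [CharP k p] (F E E' : Type)
  [Field F] [Field E] [Field E'] [Finite F] [Finite E] [Finite E'] [Algebra F E] [Algebra F E']
  (ι : F →+* k) (κ : E →+* k) (κ' : E' →+* k) (m i j : ℕ), Dt p ι κ κ' m i j →
  ∀ (L : Type) [Field L] [Algebra (RatFunc k) L]
  [IsSplittingField (RatFunc k) L (FL k (p ^ m) i (i + j))] (A : ValuationSubring L),
  AtInfty (k := k) A → ∀ y₀ ∈ Vl k (p ^ m) i (i + j) L, y₀ ∉ A →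
  ∃ lb : L → E', (∀ y ∈ Vl k (p ^ m) i (i + j) L, y / y₀ - cc k L (κ' (lb y)) ∈ A.nonunits) ∧
    (∀ y ∈ Vl k (p ^ m) i (i + j) L, ∀ y' ∈ Vl k (p ^ m) i (i + j) L,
      lb (y + y') = lb y + lb y') ∧
    (∀ (a : F), ∀ y ∈ Vl k (p ^ m) i (i + j) L, lb (cc k L (ι a) * y) = a • lb y) ∧
    (∀ y ∈ Vl k (p ^ m) i (i + j) L, lb y = 0 ↔ y ∈ A) ∧
    ∀ β : E', ∃ y ∈ Vl k (p ^ m) i (i + j) L, lb y = β

/-- [EBas] (hL1, hL2, hCnt) coordinates.  `w₀`, `y₀` exist by `hCnt`.  `s : E' → L` an `F`-linear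
section of `lb` with values in `Vl` (choose it on a basis of `E'` over `F`; `Vl` is closed under sums
and multiplication by `cc (ι a)`), `e (α, β) = l α + s β`. -/
def EBas : Prop := ∀ (p : ℕ) [Fact p.Prime] (k : Type) [Field k] [CharP k p] (F E E' : Type)
  [Field F] [Field E] [Field E'] [Finite F] [Finite E] [Finite E'] [Algebra F E] [Algebra F E']
  (ι : F →+* k) (κ : E →+* k) (κ' : E' →+* k) (m i j : ℕ), Dt p ι κ κ' m i j →
  ∀ (L : Type) [Field L] [Algebra (RatFunc k) L]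
  [IsSplittingField (RatFunc k) L (FL k (p ^ m) i (i + j))] (A : ValuationSubring L),
  AtInfty (k := k) A → ∃ (e : E × E' → L) (w₀ y₀ : L), Cd ι (p ^ m) i (i + j) A e ∧
    w₀ = e (1, 0) ∧ (∃ α, y₀ = e (α, 1)) ∧
    (∀ α, e (α, 0) / w₀ - cc k L (κ α) ∈ A.nonunits) ∧
    ∀ α β, e (α, β) / y₀ - cc k L (κ' β) ∈ A.nonunits

/-- [EAct] the decomposition group in coordinates.  `σ` preserves `A` and `m` (`F8_dec`, Bd), so it
preserves the small roots, and `σ z ≡ cc c` if `z ≡ cc c` (`σ` fixes the constants).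
`σ w₀ = e (a, 0)`, `a ≠ 0`; `σ (e (α, 0)) / w₀ = (σ (e (α, 0)) / σ w₀) (σ w₀ / w₀) ≡ κ α κ a`, so
`σ (e (α, 0)) = e (a α, 0)` (labels are unique).  Same with `y₀`: `σ y₀ = e (_, b)`, `b ≠ 0`. -/
def EAct : Prop := ∀ (p : ℕ) [Fact p.Prime] (k : Type) [Field k] [CharP k p] (F E E' : Type)
  [Field F] [Field E] [Field E'] [Finite F] [Finite E] [Finite E'] [Algebra F E] [Algebra F E']
  (ι : F →+* k) (κ : E →+* k) (κ' : E' →+* k) (m i j : ℕ), Dt p ι κ κ' m i j →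
  ∀ (L : Type) [Field L] [Algebra (RatFunc k) L] (A : ValuationSubring L),
  AtInfty (k := k) A → ∀ (e : E × E' → L) (w₀ y₀ : L), Cd ι (p ^ m) i (i + j) A e →
    w₀ = e (1, 0) → (∃ α, y₀ = e (α, 1)) →
    (∀ α, e (α, 0) / w₀ - cc k L (κ α) ∈ A.nonunits) →
    (∀ α β, e (α, β) / y₀ - cc k L (κ' β) ∈ A.nonunits) →
  ∀ σ : L ≃ₐ[RatFunc k] L, σ • A = A → ∃ (a : Eˣ) (b : E'ˣ),
    (∀ α, σ (e (α, 0)) = e (a * α, 0)) ∧ ∀ α β, ∃ γ, σ (e (α, β)) = e (γ, b * β)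

/-- [ERel] (hVal) the relation between the two characters.  `q = p^m`, `A₁ = q^i - 1`,
`B₁ = q^j - 1`, `g = gcd(A₁, B₁)` (prime to `p`), `t = w₀^(A₁/g) (y₀^(q^i))^(B₁/g)`:
`t^g = w₀^(A₁) y₀^(q^(i+j) - q^i)`, `x w₀^(A₁) ≡ -1`, `y₀^(q^(i+j)-q^i) / x ≡ -1` (see `EL1`, `EL2`), so
`t^g ≡ 1` and `t ≡ cc ζ` for a `g`-th root of unity `ζ` of `k`, hence `σ t ≡ t`, and
`(σ w₀/w₀)^(A₁/g) (σ y₀/y₀)^(q^i B₁/g) ≡ 1`, where `σ w₀ / w₀ ≡ κ a`, `σ y₀ / y₀ ≡ κ' b`.  So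
`(κ a)^(A₁/g) ((κ' b)^(B₁/g))^(q^i) = 1` in `k`, and `z = (κ' b)^(B₁/g)` has `z^g = 1`, `g ∣ q^i - 1`, so
`z^(q^i) = z`. -/
def ERel : Prop := ∀ (p : ℕ) [Fact p.Prime] (k : Type) [Field k] [IsAlgClosed k] [CharP k p]
  (F E E' : Type) [Field F] [Field E] [Field E'] [Finite F] [Finite E] [Finite E'] [Algebra F E]
  [Algebra F E'] (ι : F →+* k) (κ : E →+* k) (κ' : E' →+* k) (m i j : ℕ), Dt p ι κ κ' m i j →
  ∀ (L : Type) [Field L] [Algebra (RatFunc k) L] (A : ValuationSubring L),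
  AtInfty (k := k) A → ∀ (e : E × E' → L) (w₀ y₀ : L), Cd ι (p ^ m) i (i + j) A e →
    w₀ = e (1, 0) → (∃ α, y₀ = e (α, 1)) →
    (∀ α, e (α, 0) / w₀ - cc k L (κ α) ∈ A.nonunits) →
    (∀ α β, e (α, β) / y₀ - cc k L (κ' β) ∈ A.nonunits) →
  ∀ σ : L ≃ₐ[RatFunc k] L, σ • A = A → ∀ (a : Eˣ) (b : E'ˣ),
    (∀ α, σ (e (α, 0)) = e (a * α, 0)) → (∀ α β, ∃ γ, σ (e (α, β)) = e (γ, b * β)) →
    κ a ^ (((p ^ m) ^ i - 1) / Nat.gcd ((p ^ m) ^ i - 1) ((p ^ m) ^ j - 1)) *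
      κ' b ^ (((p ^ m) ^ j - 1) / Nat.gcd ((p ^ m) ^ i - 1) ((p ^ m) ^ j - 1)) = 1

/-- [EOrb] (hVal) the decomposition group is transitive on the nonzero small roots and on the big
roots: `AnT.AOrb_gen`, as `Ad/DOrb.lean` (`s = -1`, `q^i - 1` elements, and `s = 1`,
`q^(i+j) - q^i` elements) -/
def EOrb : Prop := ∀ (p : ℕ) [Fact p.Prime] (k : Type) [Field k] [IsAlgClosed k] [CharP k p]
  (F E E' : Type) [Field F] [Field E] [Field E'] [Finite F] [Finite E] [Finite E'] [Algebra F E]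
  [Algebra F E'] (ι : F →+* k) (κ : E →+* k) (κ' : E' →+* k) (m i j : ℕ), Dt p ι κ κ' m i j →
  ∀ (L : Type) [Field L] [Algebra (RatFunc k) L] [FiniteDimensional (RatFunc k) L]
  [IsGalois (RatFunc k) L] (A : ValuationSubring L), AtInfty (k := k) A →
  ∀ (e : E × E' → L), Cd ι (p ^ m) i (i + j) A e →
  (∀ α α', α ≠ 0 → α' ≠ 0 → ∃ σ : L ≃ₐ[RatFunc k] L, σ • A = A ∧ σ (e (α, 0)) = e (α', 0)) ∧
  ∀ α β α' β', β ≠ 0 → β' ≠ 0 → ∃ σ : L ≃ₐ[RatFunc k] L, σ • A = A ∧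
    σ (e (α, β)) = e (α', β')

/-- [EGrp] group theory.  `g = gcd A B`, `u (B/g) + v (A/g) = 1` (Bezout), `χ = θ^u θ'^(-v)`.  If
`χ x = 1` then `θ x = (θ^u θ'^(-v))^(B/g) (θ^(A/g) θ'^(B/g))^v = 1` and in the same way `θ' x = 1`.
`P` = the common kernel = the kernel of `χ`, a normal `p`-group.  `χ(D)` is a finite subgroup of
`kˣ`: cyclic, of order `r` prime to `p`, generated by `χ g₀`.  `orderOf g₀ = p^e r'` (`r'` prime to
`p`), `c` = `g₀^(p^e)`: order prime to `p`, and `χ c = (χ g₀)^(p^e)` is again a generator.  Compare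
`AnT/AGrp.lean`. -/
def EGrp : Prop := ∀ (p : ℕ) [Fact p.Prime] (k : Type) [Field k] [CharP k p] (D : Type) [Group D]
  [Finite D] (θ θ' : D →* kˣ) (A B : ℕ), 0 < A → 0 < B →
  (∀ g, θ g = 1 → θ' g = 1 → ∃ m : ℕ, g ^ p ^ m = 1) →
  (∀ g, θ g ^ (A / Nat.gcd A B) * θ' g ^ (B / Nat.gcd A B) = 1) →
  ∃ (P : Subgroup D) (c : D), IsPGroup p P ∧ P.Normal ∧ ¬ p ∣ orderOf c ∧
    P ⊔ Subgroup.zpowers c = ⊤ ∧ (∀ g ∈ P, θ g = 1 ∧ θ' g = 1) ∧
    ∀ g, ∃ m : ℕ, θ g = θ c ^ m ∧ θ' g = θ' c ^ m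

/-- [ESpl] linear algebra: `g` of order `N` prime to `p` is conjugate to its diagonal part by an
element of `Uni` (Maschke): `g (x, y) = (a x + φ y, b y)`; the section
`s y = (1/N) ∑_(l < N) g^l (0, b^(-l) y)` is `F`-linear with second component `y` and
`g (s y) = s (b y)`; `u⁻¹ (x, y) = (x, 0) + s y`. -/
def ESpl : Prop := ∀ (p : ℕ) [Fact p.Prime] (F E E' : Type) [Field F] [Field E] [Field E']
  [Finite F] [Finite E] [Finite E'] [CharP F p] [Algebra F E] [Algebra F E']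
  (g : (E × E') ≃ₗ[F] (E × E')) (a : Eˣ) (b : E'ˣ), ¬ p ∣ orderOf g →
  (∀ x, g (x, 0) = (a * x, 0)) → (∀ x y, (g (x, y)).2 = b * y) →
  ∃ u ∈ Uni (Submodule.prod ⊤ ⊥ : Submodule F (E × E')), u * g * u⁻¹ = dg F a b

/-- [ESeed] (hSep, hUnr, hBas, hAct, hRel, hOrb, hGrp, hSpl, hUni) THE SEEDS.  `ι : F → k` exists
(`Ad.AMain_emb`), `κ`, `κ'` by `IsAlgClosed.lift` over `F` (`ι.toAlgebra`).  `|F| = p^m`,
`i = [E : F]`, `j = [E' : F]`: `Dt`.  `L` = splitting field of `FL k (p^m) i (i+j)`, `A` from `prf_F4`,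
`e` from `hBas`; `ρ σ = e⁻¹ σ e ∈ GL_F(E × E')` (`σ` permutes the set `Vl`), an injective
homomorphism (`SnT/SGal.lean`: `SGal_inj`); `H` = its image.  `hGrp` for `D` = the decomposition
group, `θ σ = κ a`, `θ' σ = κ' b` (`hAct`, `hRel`); if `a = b = 1` then `ρ σ ∈ Uni (E × 0)`, a `p`-group
(`hUni`).  So `D = P ⟨c⟩`; `ρ P ≤ Uni`, `ρ c` is as in `ESpl`: conjugate `ρ` by the element `u` of `Uni`
(`Uni` is commutative, so `ρ P` does not change).  `a` generates `Eˣ`: for `z ∈ Eˣ` there is `σ ∈ D` with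
`σ e(1,0) = e(z,0)` (`hOrb`), `θ σ = κ z` is a power of `θ c`; the same for `b`.  `Rel k H` from
`all_T0` as in `Ad/AMain.lean` (`AMain_core`). -/
def ESeed : Prop := ∀ (k : Type) [Field k] [IsAlgClosed k] (p : ℕ) [Fact p.Prime] [CharP k p]
  (F E E' : Type) [Field F] [Field E] [Field E'] [Finite F] [Finite E] [Finite E'] [CharP F p]
  [Algebra F E] [Algebra F E'], ∃ (a : Eˣ) (b : E'ˣ) (P H : Subgroup ((E × E') ≃ₗ[F] (E × E'))),
    (∀ z : Eˣ, z ∈ Subgroup.zpowers a) ∧ (∀ z : E'ˣ, z ∈ Subgroup.zpowers b) ∧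
    P ≤ Uni (Submodule.prod ⊤ ⊥) ∧ MT.Nz p P (dg F a b) ∧ MT.Rz k P (dg F a b) H

/-! ## C. Tori -/

/-- [CUni] `g = 1 + φ`, `φ² = 0`, so `g^p = 1 + p φ = 1` (`g^m = 1 + m φ` by induction) -/
def CUni : Prop := ∀ (p : ℕ) [Fact p.Prime] (F V : Type) [Field F] [CharP F p] [AddCommGroup V]
  [Module F V] (W : Submodule F V), IsPGroup p (Uni W) ∧
  ∀ c : V ≃ₗ[F] V, (∀ w, c w ∈ W ↔ w ∈ W) → ∀ x ∈ Uni W, c * x * c⁻¹ ∈ Uni W

/-- [CDet] (`MT.prf_MQp`) the determinant is trivial on `P` (a `p`-element of `Fˣ` is `1`), so on its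
normal closure in `H` -/
def CDet : Prop := ∀ (k : Type) [Field k] [IsAlgClosed k] (p : ℕ) [Fact p.Prime] [CharP k p]
  (F V : Type) [Field F] [Finite F] [CharP F p] [AddCommGroup V] [Module F V] [Finite V]
  (P H : Subgroup (V ≃ₗ[F] V)) (c : V ≃ₗ[F] V), MT.Nz p P c → MT.Rz k P c H →
  ∀ h ∈ H, LinearEquiv.det h = 1

/-- [CExt] extension by the identity: `f g v = v + i (g (r v) - r v)` -/
def CExt : Prop := ∀ (F E E' V : Type) [Field F] [Field E] [Field E'] [Algebra F E] [Algebra F E']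
  [AddCommGroup V] [Module F V] (W : Submodule F V) (i : (E × E') →ₗ[F] V) (r : V →ₗ[F] (E × E')),
  (∀ z, r (i z) = z) → (∀ x, i (x, 0) ∈ W) → (∀ w ∈ W, (r w).2 = 0) →
  ∃ f : ((E × E') ≃ₗ[F] (E × E')) →* (V ≃ₗ[F] V), Function.Injective f ∧
    (∀ g v, f g v = v + i (g (r v) - r v)) ∧
    ∀ g ∈ Uni (Submodule.prod ⊤ ⊥ : Submodule F (E × E')), f g ∈ Uni W

/-- [CPair] (hSeed : ESeed, hExt, hDet, hUni, hMRz : MT.MRz) two components.  Seeds with `E = E s`,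
`E' = E t`: `f (dg a b) = mE (mulSingle s a * mulSingle t b)` is realised in `H`, with
`P' ≤ Uni (Ww E w)`, and `N(a) N(b) = 1` by `hDet` for the seed (`det (dg a b) = N(a) N(b)`).
Choose `l` with `a^l = z`; `b'' = z' / b^l` has norm `1`.  Seeds with `E = F`, `E' = E t`
(`i (x, y) = x · 1` at `s`, `y` at `t`; `r` uses a linear form `E s → F` with value `1` at `1`):
`(a₁, b₁)` with `a₁ N(b₁) = 1` and `b''` a power of `b₁`, so `a₁` to the same power is `1`, and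
`mE (mulSingle t b'')` is realised.  `anax_tr`, `anax_pow`; the product by `hMRz` with
`P = Uni (Ww E w)` (`hUni`). -/
def CPair : Prop := ∀ (k : Type) [Field k] [IsAlgClosed k] (p : ℕ) [Fact p.Prime] [CharP k p]
  (F : Type) [Field F] [Finite F] [CharP F p] (N : ℕ) (E : Fam F N) [∀ s, Finite (E s)]
  (w : Fin N → Bool) (s t : Fin N) (z : (E s)ˣ) (z' : (E t)ˣ), w s = true → w t = false →
  Algebra.norm F (z : E s) * Algebra.norm F (z' : E t) = 1 →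
  ∃ H, MT.Rz k (Uni (Ww E w)) (mE E (Pi.mulSingle s z * Pi.mulSingle t z')) H

/-- [CAll] (hPair, hUni, hMRz : MT.MRz) all components.  The `γ` with the conclusion are closed
under multiplication (`hMRz` with `P = P₀ = P₁ = Uni (Ww E w)`).  Fix `s₀`, `t₀` with `w s₀ = true`,
`w t₀ = false`.  Norms are surjective (`FiniteField.norm_surjective`): for `s ≠ s₀`, `w s = true` choose
`y_s ∈ E t₀` with `N(y_s) = N(γ_s)⁻¹`; for `t ≠ t₀`, `w t = false` choose `x_t ∈ E s₀` with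
`N(x_t) = N(γ_t)⁻¹`.  `γ` is the product of the pairs `(x_t at s₀, γ_t at t)`, `(γ_s at s, y_s at t₀)`
and `(γ_(s₀) / ∏ x_t at s₀, γ_(t₀) / ∏ y_s at t₀)`. -/
def CAll : Prop := ∀ (k : Type) [Field k] [IsAlgClosed k] (p : ℕ) [Fact p.Prime] [CharP k p]
  (F : Type) [Field F] [Finite F] [CharP F p] (N : ℕ) (E : Fam F N) [∀ s, Finite (E s)]
  (w : Fin N → Bool) (γ : ∀ s, (E s)ˣ), (∃ s, w s = true) → (∃ t, w t = false) →
  ∏ s, Algebra.norm F (γ s : E s) = 1 → ∃ H, MT.Rz k (Uni (Ww E w)) (mE E γ) H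

/-- [CNm] the determinant of `mE E γ` (a block diagonal matrix; or induction on `N`) -/
def CNm : Prop := ∀ (F : Type) [Field F] (N : ℕ) (E : Fam F N) [∀ s, FiniteDimensional F (E s)]
  (γ : ∀ s, (E s)ˣ), LinearMap.det (mE E γ : Sp E →ₗ[F] Sp E) = ∏ s, Algebra.norm F (γ s : E s)

/-- [CDec] decomposition.  (1) Every `V`, `c` is of this form with `W = ⊤`: strong induction on the
dimension; `X` a minimal nonzero subspace with `c X ≤ X`, `Y` a complement with `c Y ≤ Y` (Maschke: a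
projection averaged over the powers of `c`; or `Module.End.IsSemisimple`).  `X` is irreducible: the
minimal polynomial `μ` of `c` on `X` is irreducible, `γ` a root of `μ` in `AlgebraicClosure F`,
`E = F⟮γ⟯`, `x₀ ∈ X` nonzero, `E ≃ F[T]/(μ) ≃ X`, `f(γ) ↦ f(c) x₀`.  (2) for `W`: a complement of `W`
with `c Y ≤ Y`, and (1) for `W` and `Y`. -/
def CDec : Prop := ∀ (p : ℕ) [Fact p.Prime] (F V : Type) [Field F] [Finite F] [CharP F p]
  [AddCommGroup V] [Module F V] [Finite V] (W : Submodule F V) (c : V ≃ₗ[F] V), ¬ p ∣ orderOf c →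
  (∀ w ∈ W, c w ∈ W) → ∃ (N : ℕ) (E : Fam F N) (w : Fin N → Bool) (γ : ∀ s, (E s)ˣ)
    (e : V ≃ₗ[F] Sp E), (∀ s, Finite (E s)) ∧ (∀ v, e (c v) = mE E γ (e v)) ∧
    ∀ v, v ∈ W ↔ e v ∈ Ww E w

/-- [CTor] (hAll, hDec, hNm) `Rz` is transported along `e` (`anax_tr`) -/
def CTor : Prop := ∀ (k : Type) [Field k] [IsAlgClosed k] (p : ℕ) [Fact p.Prime] [CharP k p]
  (F V : Type) [Field F] [Finite F] [CharP F p] [AddCommGroup V] [Module F V] [Finite V]
  (W : Submodule F V) (c : V ≃ₗ[F] V), ¬ p ∣ orderOf c → (∀ w ∈ W, c w ∈ W) → W ≠ ⊥ → W ≠ ⊤ →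
  LinearEquiv.det c = 1 → ∃ H, MT.Rz k (Uni W) c H

/-- [CMat] (hTor, hDet, hUni) matrices.  `Λ : SL_n(F) → GL(F^n)` (`Matrix.toLin'`) is injective, `H'`
from `hTor` for `Λ c` is contained in the image of `Λ` (`hDet`), `H` = preimage of `H'`, which is
isomorphic to `H'` (`anax_tr` for the inverse isomorphism from the image of `Λ`). -/
def CMat : Prop := ∀ (k : Type) [Field k] [IsAlgClosed k] (p : ℕ) [Fact p.Prime] [CharP k p]
  (F : Type) [Field F] [Finite F] [CharP F p] (n : ℕ) (W : Submodule F (Fin n → F))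
  (c : SLn n F), ¬ p ∣ orderOf c → (∀ w ∈ W, c.1 *ᵥ w ∈ W) → W ≠ ⊥ → W ≠ ⊤ →
  MT.Nz p (UM W) c ∧ ∃ H, MT.Rz k (UM W) c H

/-- [CB] (hMat, hSL : SL.SLFin, hMRz : MT.MRz) `hSL` gives `Occurs k (SL_n(F)) P`, i.e. `Rz k P 1 ⊤`
(`all_T0`); the join with `Rz k (UM W) c H`: `hMRz` for `P`, `P₀ = P`, `c₀ = 1`, `H₀ = ⊤`,
`P₁ = UM W`, `c₁ = c` -/
def CB : Prop := ∀ (k : Type) [Field k] [IsAlgClosed k] (p : ℕ) [Fact p.Prime] [CharP k p]
  (F : Type) [Field F] [Finite F] [CharP F p] (n : ℕ) (W : Submodule F (Fin n → F))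
  (P : Subgroup (SLn n F)) (c : SLn n F), 2 ≤ n → MT.Nz p P c →
  Subgroup.normalClosure (P : Set (SLn n F)) = ⊤ → (∀ w ∈ W, c.1 *ᵥ w ∈ W) → W ≠ ⊥ → W ≠ ⊤ →
  UM W ≤ P → MT.Rz k P c ⊤

/-! ## F. The theorem -/

/-- [FNc] (hAsm : SL.SLAsm-type; `SL/SLAsm.lean`) the normal closure of a nontrivial `p`-subgroup of
`SL_n(F)` is everything: an element of order `p`; `SL.Good` contains this -/
def FNc : Prop := ∀ (p : ℕ) [Fact p.Prime] (F : Type) [Field F] [Finite F] [CharP F p] (n : ℕ),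
  2 ≤ n → ∀ P : Subgroup (SLn n F), IsPGroup p P → P ≠ ⊥ →
  Subgroup.normalClosure (P : Set (SLn n F)) = ⊤

/-- [FLift] group theory: `f : G → G'` surjective with central kernel of order prime to `p`;
`G₁`, `c` lift.  `P` = a Sylow `p`-subgroup of the preimage of `G₁` (the preimage is `P × ker f`); it is
the set of all `p`-elements of the preimage, so normalised by every preimage of `c`. -/
def FLift : Prop := ∀ (p : ℕ) [Fact p.Prime] (G G' : Type) [Group G] [Group G'] [Finite G]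
  (f : G →* G'), Function.Surjective f → f.ker ≤ Subgroup.center G → ¬ p ∣ Nat.card f.ker →
  ∀ (P' : Subgroup G') (c' : G'), MT.Nz p P' c' → ∃ (P : Subgroup G) (c : G), MT.Nz p P c ∧
    P.map f = P' ∧ f c = c' ∧ ∀ g : G, f g ∈ P' → (∃ m : ℕ, g ^ p ^ m = 1) → g ∈ P

/-- [FMain] (hCB, hNc, hLift; `MQp_VQuo` (MT/MQp.lean): `Rel` of quotients) THE THEOREM for
`SL_n(F)` and its central quotients: `G₀` stabilises `0 < W < F^n`, and `G₁` contains `Hom(F^n/W, W)`.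
`G₀ = G₁ ⟨g⟩` (`Hyp`), `c'` = the part of `g` of order prime to `p`.  The kernel of `f` has order prime to
`p`: a scalar matrix of order `p` is `1`.  If the lift `P` of `G₁` is trivial then `UM W` is trivial,
which is false. -/
def FMain : Prop := ∀ (p : ℕ) [Fact p.Prime] (k : Type) [Field k] [IsAlgClosed k] [CharP k p]
  (F : Type) [Field F] [Finite F] [CharP F p] (n : ℕ) (G : Type) [Group G] [Finite G]
  (f : SLn n F →* G), Function.Surjective f → f.ker ≤ Subgroup.center (SLn n F) →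
  ∀ (G₀ G₁ : Subgroup G), SVF.Hyp p G₁ G₀ → ∀ W : Submodule F (Fin n → F), W ≠ ⊥ → W ≠ ⊤ →
  (∀ g : SLn n F, f g ∈ G₀ → ∀ w ∈ W, g.1 *ᵥ w ∈ W) → (∀ g ∈ UM W, f g ∈ G₁) → Rel k G G₀

end MP7b0bad.Lin
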