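import Mathlib
import Pool.Agent.Work.MP_7b0bad_ag.Lin.Stmts

set_option autoImplicit false

/-!
# Block Lin: the determinant of a block diagonal map (item CNm)
-/

namespace MP7b0bad.Lin

/-- the determinant of a componentwise map on a finite product -/
theorem CNm_det {F : Type} [Field F] : ∀ (N : ℕ) (M : Fin N → Type) [∀ s, AddCommGroup (M s)]
    [∀ s, Module F (M s)] [∀ s, FiniteDimensional F (M s)] (f : ∀ s, M s →ₗ[F] M s),
    LinearMap.det (LinearMap.pi fun s => (f s).comp (LinearMap.proj s)) =
      ∏ s, LinearMap.det (f s)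
  | 0, M, _, _, _, f => by
    rw [Fin.prod_univ_zero]
    have : (LinearMap.pi fun s => (f s).comp (LinearMap.proj s) :
        (∀ s, M s) →ₗ[F] ∀ s, M s) = LinearMap.id := by
      refine LinearMap.ext fun v => ?_
      funext s
      exact s.elim0
    rw [this, LinearMap.det_id]
  | N + 1, M, _, _, _, f => by
    rw [Fin.prod_univ_succ, ← CNm_det N (fun s => M s.succ) (fun s => f s.succ),
      ← LinearMap.det_prodMap, ← LinearMap.det_conj _ (Fin.consLinearEquiv F M)]
    congr 1
    refine LinearMap.ext fun v => ?_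
    funext s
    refine Fin.cases ?_ (fun s => ?_) s
    · rfl
    · rfl

theorem prf_CNm : CNm := by
  intro F _ N E _ γ
  have h : (mE E γ : Sp E →ₗ[F] Sp E) =
      LinearMap.pi fun s => (LinearMap.mulLeft F (γ s : E s)).comp (LinearMap.proj s) := by
    refine LinearMap.ext fun v => ?_
    funext s
    rfl
  rw [h, CNm_det]
  refine Finset.prod_congr rfl fun s _ => ?_
  rw [Algebra.norm_apply]
  rfl

end MP7b0bad.Lin
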