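import Pool.Agent.Work.MP_7b0bad_ag.Lin.Stmts

set_option autoImplicit false

/-!
# Block Lin: two components of a torus
-/

open Polynomial Matrix

namespace MP7b0bad.Lin

open SnT (cc xx)

/-- the determinant of `dg` -/
theorem CPair_det (F : Type) {E E' : Type} [Field F] [Field E] [Field E'] [Algebra F E]
    [Algebra F E'] [FiniteDimensional F E] [FiniteDimensional F E'] (a : Eˣ) (b : E'ˣ) :
    ((LinearEquiv.det (dg F a b) : Fˣ) : F) = Algebra.norm F (a : E) * Algebra.norm F (b : E') := by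
  rw [LinearEquiv.coe_det]
  have h1 : ((dg F a b : (E × E') ≃ₗ[F] (E × E')) : (E × E') →ₗ[F] (E × E')) =
      LinearMap.prodMap (LinearMap.mulLeft F (a : E)) (LinearMap.mulLeft F (b : E')) := by
    ext x <;> simp [dg_apply]
  rw [h1, LinearMap.det_prodMap]
  rfl

theorem CPair_dg_pow (F : Type) {E E' : Type} [Field F] [Field E] [Field E'] [Algebra F E]
    [Algebra F E'] (a : Eˣ) (b : E'ˣ) (m : ℕ) : dg F a b ^ m = dg F (a ^ m) (b ^ m) := by
  induction m with
  | zero =>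
    rw [pow_zero, pow_zero, pow_zero]
    ext x
    · change x.1 = ((1 : Eˣ) : E) * x.1
      rw [Units.val_one, one_mul]
    · change x.2 = ((1 : E'ˣ) : E') * x.2
      rw [Units.val_one, one_mul]
  | succ m ih =>
    rw [pow_succ, ih]
    ext x
    · change ((a ^ m : Eˣ) : E) * (a * x.1) = ((a ^ (m + 1) : Eˣ) : E) * x.1
      rw [pow_succ, Units.val_mul, mul_assoc]
    · change ((b ^ m : E'ˣ) : E') * (b * x.2) = ((b ^ (m + 1) : E'ˣ) : E') * x.2
      rw [pow_succ, Units.val_mul, mul_assoc]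

theorem CPair_finite {F V : Type} [Field F] [AddCommGroup V] [Module F V] [Finite V] :
    Finite (V ≃ₗ[F] V) :=
  Finite.of_injective (fun g : V ≃ₗ[F] V => (g : V → V)) DFunLike.coe_injective

/-- `mE γ` preserves `Ww` -/
theorem CPair_mem {F : Type} [Field F] {N : ℕ} (E : Fam F N) (w : Fin N → Bool)
    (γ : ∀ s, (E s)ˣ) (v : Sp E) : mE E γ v ∈ Ww E w ↔ v ∈ Ww E w := by
  constructor
  · intro h s hs
    have h1 := h s hs
    rw [mE_apply] at h1
    exact (mul_eq_zero.mp h1).resolve_left (Units.ne_zero _)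
  · intro h s hs
    rw [mE_apply, h s hs, mul_zero]

/-- a seed on two components -/
theorem CPair_core (hSeed : ESeed) (hExt : CExt) (hDet : CDet) (k : Type) [Field k]
    [IsAlgClosed k] (p : ℕ) [Fact p.Prime] [CharP k p]
    (F : Type) [Field F] [Finite F] [CharP F p] (N : ℕ) (E : Fam F N) [∀ s, Finite (E s)]
    (w : Fin N → Bool) (s t : Fin N) (hs : w s = true) (ht : w t = false)
    (E₁ : Type) [Field E₁] [Finite E₁] [Algebra F E₁] (j : E₁ →ₗ[F] E s) (l : E s →ₗ[F] E₁)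
    (hlj : ∀ x, l (j x) = x) :
    ∃ (a : E₁ˣ) (b : (E t)ˣ), (∀ z : E₁ˣ, z ∈ Subgroup.zpowers a) ∧
      (∀ z : (E t)ˣ, z ∈ Subgroup.zpowers b) ∧
      Algebra.norm F (a : E₁) * Algebra.norm F (b : E t) = 1 ∧
      ∀ m : ℕ, ∃ (c : Sp E ≃ₗ[F] Sp E) (P H : Subgroup (Sp E ≃ₗ[F] Sp E)),
        P ≤ Uni (Ww E w) ∧ MT.Nz p P c ∧ MT.Rz k P c H ∧
        ∀ v, c v = v + (Pi.single s (j (((a ^ m : E₁ˣ) : E₁) * l (v s) - l (v s))) +
          Pi.single t (((b ^ m : (E t)ˣ) : E t) * v t - v t)) := by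
  have hst : s ≠ t := fun h => by
    rw [h, ht] at hs
    exact Bool.noConfusion hs
  let i : (E₁ × E t) →ₗ[F] Sp E :=
    ((LinearMap.single F (fun s => E s) s).comp j).coprod (LinearMap.single F (fun s => E s) t)
  let r : Sp E →ₗ[F] (E₁ × E t) :=
    (l.comp (LinearMap.proj s)).prod (LinearMap.proj t)
  have hi : ∀ x y, i (x, y) = Pi.single s (j x) + Pi.single t y := fun x y => rfl
  have hr : ∀ v, r v = (l (v s), v t) := fun v => rfl
  obtain ⟨a, b, P, H, ha, hb, hP, hN, hR⟩ := hSeed k p F E₁ (E t)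
  obtain ⟨f, hf1, hf2, hf3⟩ := hExt F E₁ (E t) (Sp E) (Ww E w) i r
    (fun z => by
      obtain ⟨x, y⟩ := z
      rw [hi, hr]
      refine Prod.ext ?_ ?_
      · change l ((Pi.single s (j x) + Pi.single t y : Sp E) s) = x
        rw [Pi.add_apply, Pi.single_eq_same, Pi.single_eq_of_ne hst, add_zero, hlj]
      · change (Pi.single s (j x) + Pi.single t y : Sp E) t = y
        rw [Pi.add_apply, Pi.single_eq_same, Pi.single_eq_of_ne hst.symm, zero_add])
    (fun x => by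
      rw [hi]
      intro s' hs'
      have hne : s' ≠ s := fun h => by
        rw [h, hs] at hs'
        exact Bool.noConfusion hs'
      rw [Pi.add_apply, Pi.single_eq_of_ne hne, zero_add, Pi.single_zero]
      rfl)
    (fun v hv => by
      rw [hr]
      exact hv t ht)
  have hfin : Finite (E₁ × E t) := inferInstance
  have hfinG : Finite ((E₁ × E t) ≃ₗ[F] (E₁ × E t)) := CPair_finite
  have hfinV : Finite (Sp E ≃ₗ[F] Sp E) := CPair_finite
  have hd := hDet k p F (E₁ × E t) P H (dg F a b) hN hR (dg F a b)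
    (hR.1 (Subgroup.mem_sup_right (Subgroup.mem_zpowers _)))
  have hNf : ∀ m : ℕ, MT.Nz p (P.map f) (f (dg F a b) ^ m) := by
    obtain ⟨hN1, hN2, hN3⟩ := hN
    intro m
    refine ⟨hN1.map f, fun h => hN2 ?_, ?_⟩
    · have h1 := h.trans (orderOf_pow_dvd m)
      rwa [orderOf_injective f hf1] at h1
    · induction m with
      | zero =>
        intro x hx
        rwa [pow_zero, one_mul, inv_one, mul_one]
      | succ m ih =>
        rintro _ ⟨x, hx, rfl⟩
        have h1 := ih (f (dg F a b * x * (dg F a b)⁻¹)) ⟨_, hN3 x hx, rfl⟩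
        have h2 : f (dg F a b) ^ (m + 1) * f x * (f (dg F a b) ^ (m + 1))⁻¹ =
            f (dg F a b) ^ m * f (dg F a b * x * (dg F a b)⁻¹) * (f (dg F a b) ^ m)⁻¹ := by
          rw [map_mul, map_mul, map_inv, pow_succ]
          group
        rw [h2]
        exact h1
  refine ⟨a, b, ha, hb, ?_, fun m => ?_⟩
  · rw [← CPair_det, hd, Units.val_one]
  · refine ⟨f (dg F a b) ^ m, P.map f, H.map f, ?_, ?_, ?_, ?_⟩
    · rintro _ ⟨x, hx, rfl⟩
      exact hf3 x (hP hx)
    · exact hNf m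
    · have h0 : MT.Nz p (P.map f) (f (dg F a b)) := by
        have h1 := hNf 1
        rwa [pow_one] at h1
      exact MT.anax_pow p m h0 (MT.anax_tr p f hR)
    · intro v
      rw [← map_pow, CPair_dg_pow, hf2, hr, dg_apply]
      rfl

/-- the value of a seed element on two components -/
theorem CPair_val {F : Type} [Field F] {N : ℕ} (E : Fam F N) {s t : Fin N} (hst : s ≠ t)
    (x : (E s)ˣ) (y : (E t)ˣ) (v : Sp E) :
    v + (Pi.single s ((x : E s) * v s - v s) + Pi.single t ((y : E t) * v t - v t)) =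
      mE E (Pi.mulSingle s x * Pi.mulSingle t y) v := by
  funext u
  rw [mE_apply, Pi.mul_apply, Units.val_mul]
  rw [Pi.add_apply, Pi.add_apply]
  by_cases hus : u = s
  · subst hus
    rw [Pi.single_eq_same, Pi.single_eq_of_ne hst, Pi.mulSingle_eq_same,
      Pi.mulSingle_eq_of_ne hst, Units.val_one, mul_one, add_zero]
    ring
  · by_cases hut : u = t
    · subst hut
      rw [Pi.single_eq_same, Pi.single_eq_of_ne hst.symm, Pi.mulSingle_eq_same,
        Pi.mulSingle_eq_of_ne hst.symm, Units.val_one, one_mul, zero_add]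
      ring
    · rw [Pi.single_eq_of_ne hus, Pi.single_eq_of_ne hut, Pi.mulSingle_eq_of_ne hus,
        Pi.mulSingle_eq_of_ne hut, Units.val_one, one_mul, one_mul, add_zero, add_zero]

theorem prf_CPair (hSeed : ESeed) (hExt : CExt) (hDet : CDet) (hUni : CUni) (hMRz : MT.MRz) :
    CPair := by
  intro k _ _ p _ _ F _ _ _ N E _ w s t z z' hs ht hzz
  have hst : s ≠ t := fun h => by
    rw [h, ht] at hs
    exact Bool.noConfusion hs
  have hfinV : Finite (Sp E ≃ₗ[F] Sp E) := CPair_finite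
  obtain ⟨hU1, hU2⟩ := hUni p F (Sp E) (Ww E w)
  -- first seed
  obtain ⟨a, b, ha, hb, hab, hseed⟩ := CPair_core hSeed hExt hDet k p F N E w s t hs ht (E s)
    LinearMap.id LinearMap.id (fun _ => rfl)
  obtain ⟨l, hl⟩ : ∃ l : ℕ, a ^ l = z := by
    have h1 := ha z
    rw [← mem_powers_iff_mem_zpowers] at h1
    exact h1
  obtain ⟨c₀, P₀, H₀, hP0, hN0, hR0, hc0⟩ := hseed l
  have hc0' : c₀ = mE E (Pi.mulSingle s z * Pi.mulSingle t (b ^ l)) := by
    ext1 v
    rw [hc0 v, hl]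
    exact CPair_val E hst z (b ^ l) v
  -- the second seed
  have hinj : Function.Injective (Algebra.linearMap F (E s)) := (algebraMap F (E s)).injective
  obtain ⟨r, hr⟩ := LinearMap.exists_leftInverse_of_injective (Algebra.linearMap F (E s))
    (LinearMap.ker_eq_bot.mpr hinj)
  have hr' : ∀ x : F, r (Algebra.linearMap F (E s) x) = x := fun x => LinearMap.congr_fun hr x
  obtain ⟨a₁, b₁, -, hb₁, hab₁, hseed₁⟩ := CPair_core hSeed hExt hDet k p F N E w s t hs ht F
    (Algebra.linearMap F (E s)) r hr'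
  obtain ⟨l₁, hl₁⟩ : ∃ l₁ : ℕ, b₁ ^ l₁ = (b ^ l)⁻¹ * z' := by
    have h1 := hb₁ ((b ^ l)⁻¹ * z')
    rw [← mem_powers_iff_mem_zpowers] at h1
    exact h1
  have hnz : Algebra.norm F (((b ^ l)⁻¹ * z' : (E t)ˣ) : E t) = 1 := by
    have h1 : Algebra.norm F (z : E s) * Algebra.norm F ((b ^ l : (E t)ˣ) : E t) = 1 := by
      rw [← hl, Units.val_pow_eq_pow_val, Units.val_pow_eq_pow_val, map_pow, map_pow, ← mul_pow,
        hab, one_pow]
    have h2 : ((b ^ l : (E t)ˣ) : E t) * (((b ^ l)⁻¹ * z' : (E t)ˣ) : E t) = z' := by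
      rw [← Units.val_mul, mul_inv_cancel_left]
    have h3 : Algebra.norm F (z : E s) ≠ 0 := left_ne_zero_of_mul_eq_one h1
    have h4 : Algebra.norm F ((b ^ l : (E t)ˣ) : E t) ≠ 0 := right_ne_zero_of_mul_eq_one h1
    have h5 := hzz
    rw [← h2, map_mul, ← mul_assoc, h1, one_mul] at h5
    exact h5
  have ha₁ : a₁ ^ l₁ = 1 := by
    apply Units.ext
    have h1 : (a₁ : F) ^ l₁ * Algebra.norm F ((b₁ ^ l₁ : (E t)ˣ) : E t) = 1 := by
      have h2 : Algebra.norm F (a₁ : F) = a₁ := by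
        rw [Algebra.norm_self, MonoidHom.id_apply]
      rw [h2] at hab₁
      rw [Units.val_pow_eq_pow_val, map_pow, ← mul_pow, hab₁, one_pow]
    rw [hl₁, hnz, mul_one] at h1
    rw [Units.val_pow_eq_pow_val, h1, Units.val_one]
  obtain ⟨c₁, P₁, H₁, hP1, hN1, hR1, hc1⟩ := hseed₁ l₁
  have hc1' : c₁ = mE E (Pi.mulSingle s 1 * Pi.mulSingle t ((b ^ l)⁻¹ * z')) := by
    ext1 v
    rw [hc1 v, ha₁, hl₁, Units.val_one, one_mul, sub_self, map_zero]
    have h1 := CPair_val E hst 1 ((b ^ l)⁻¹ * z') v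
    rw [Units.val_one, one_mul, sub_self] at h1
    exact h1
  have hprod : c₀ * c₁ = mE E (Pi.mulSingle s z * Pi.mulSingle t z') := by
    rw [hc0', hc1', ← map_mul]
    congr 1
    rw [Pi.mulSingle_one, one_mul, mul_assoc, ← Pi.mulSingle_mul, mul_inv_cancel_left]
  have hcomm : c₀ * c₁ = c₁ * c₀ := by
    rw [hc0', hc1', ← map_mul, ← map_mul, mul_comm]
  have hNz : ∀ (c : Sp E ≃ₗ[F] Sp E) (γ : ∀ s, (E s)ˣ), c = mE E γ →
      ¬ p ∣ orderOf c → MT.Nz p (Uni (Ww E w)) c := by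
    intro c γ hc ho
    refine ⟨hU1, ho, hU2 c fun v => ?_⟩
    rw [hc]
    exact CPair_mem E w γ v
  refine ⟨Uni (Ww E w) ⊔ H₀ ⊔ H₁, ?_⟩
  rw [← hprod]
  exact hMRz k p (Sp E ≃ₗ[F] Sp E) (Uni (Ww E w)) P₀ P₁ H₀ H₁ c₀ c₁
    (hNz c₀ _ hc0' hN0.2.1) (hNz c₁ _ hc1' hN1.2.1) hN0 hN1 hP0 hP1 hcomm hR0 hR1

end MP7b0bad.Lin
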