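import Pool.Agent.Work.MP_7b0bad_ag.Lin.Stmts

set_option autoImplicit false

/-!
# Block Lin: [CTor] tori in the general linear group of a vector space
-/

open Polynomial Pointwise Matrix

namespace MP7b0bad.Lin

/-- transport along an isomorphism -/
def CTor_f {F V V' : Type} [Field F] [AddCommGroup V] [Module F V] [AddCommGroup V']
    [Module F V'] (e : V ≃ₗ[F] V') : (V' ≃ₗ[F] V') →* (V ≃ₗ[F] V) where
  toFun g := (e.trans g).trans e.symm
  map_one' := by
    ext v
    change e.symm ((1 : V' ≃ₗ[F] V') (e v)) = v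
    rw [LinearEquiv.coe_one, id, LinearEquiv.symm_apply_apply]
  map_mul' g h := by
    ext v
    change e.symm (g (h (e v))) = e.symm (g (e (e.symm (h (e v)))))
    rw [LinearEquiv.apply_symm_apply]

theorem CTor_f_apply {F V V' : Type} [Field F] [AddCommGroup V] [Module F V] [AddCommGroup V']
    [Module F V'] (e : V ≃ₗ[F] V') (g : V' ≃ₗ[F] V') (v : V) :
    CTor_f e g v = e.symm (g (e v)) := rfl

theorem CTor_map {F V V' : Type} [Field F] [AddCommGroup V] [Module F V] [AddCommGroup V']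
    [Module F V'] (e : V ≃ₗ[F] V') (W : Submodule F V) (W' : Submodule F V')
    (h : ∀ v, v ∈ W ↔ e v ∈ W') : (Uni W').map (CTor_f e) = Uni W := by
  ext x
  rw [Subgroup.mem_map]
  constructor
  · rintro ⟨g, ⟨hg1, hg2⟩, rfl⟩
    refine ⟨fun v => ?_, fun v hv => ?_⟩
    · rw [h, CTor_f_apply, map_sub, LinearEquiv.apply_symm_apply]
      exact hg1 (e v)
    · rw [CTor_f_apply, hg2 (e v) ((h v).1 hv), LinearEquiv.symm_apply_apply]
  · rintro ⟨hx1, hx2⟩
    refine ⟨(e.symm.trans x).trans e, ⟨fun v => ?_, fun v hv => ?_⟩, ?_⟩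
    · change e (x (e.symm v)) - v ∈ W'
      have h1 := (h _).1 (hx1 (e.symm v))
      rwa [map_sub, LinearEquiv.apply_symm_apply] at h1
    · change e (x (e.symm v)) = v
      have h1 : e.symm v ∈ W := by
        rw [h, LinearEquiv.apply_symm_apply]
        exact hv
      rw [hx2 _ h1, LinearEquiv.apply_symm_apply]
    · ext v
      rw [CTor_f_apply]
      change e.symm (e (x (e.symm (e v)))) = x v
      rw [LinearEquiv.symm_apply_apply, LinearEquiv.symm_apply_apply]

theorem prf_CTor (hAll : CAll) (hDec : CDec) (hNm : CNm) : CTor := by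
  intro k _ _ p _ _ F V _ _ _ _ _ _ W c hpc hcW hW0 hW1 hdet
  obtain ⟨N, E, w, γ, e, hfin, hec, hWw⟩ := hDec p F V W c hpc hcW
  have _inst : ∀ s, Finite (E s) := hfin
  have hex1 : ∃ s, w s = true := by
    obtain ⟨v, hv, hv0⟩ := Submodule.exists_mem_ne_zero_of_ne_bot hW0
    by_contra hno
    push Not at hno
    have h1 := (hWw v).1 hv
    apply hv0
    apply e.injective
    rw [map_zero]
    funext s
    exact h1 s (by simpa using hno s)
  have hex2 : ∃ t, w t = false := by
    by_contra hno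
    push Not at hno
    apply hW1
    rw [eq_top_iff]
    intro v _
    rw [hWw]
    intro s hs
    exact absurd hs (hno s)
  have hnorm : ∏ s, Algebra.norm F (γ s : E s) = 1 := by
    rw [← hNm F N E γ]
    have h1 : (mE E γ : Sp E →ₗ[F] Sp E) =
        (e : V →ₗ[F] Sp E) ∘ₗ (c : V →ₗ[F] V) ∘ₗ (e.symm : Sp E →ₗ[F] V) := by
      refine LinearMap.ext fun v => ?_
      change mE E γ v = e (c (e.symm v))
      rw [hec, LinearEquiv.apply_symm_apply]
    rw [h1, LinearMap.det_conj, ← LinearEquiv.coe_det, hdet, Units.val_one]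
  obtain ⟨H, hH⟩ := hAll k p F N E w γ hex1 hex2 hnorm
  have _fin : Finite (Sp E ≃ₗ[F] Sp E) :=
    Finite.of_injective (fun g : Sp E ≃ₗ[F] Sp E => (g : Sp E → Sp E)) DFunLike.coe_injective
  have h2 := MT.anax_tr p (CTor_f e) hH
  rw [CTor_map e W (Ww E w) hWw] at h2
  have h3 : CTor_f e (mE E γ) = c := by
    ext v
    rw [CTor_f_apply, ← hec, LinearEquiv.symm_apply_apply]
  rw [h3] at h2
  exact ⟨_, h2⟩

end MP7b0bad.Lin
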