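import Pool.Agent.Work.MP_7b0bad_ag.Lin.Stmts

set_option autoImplicit false

/-!
# Block Lin: unipotent groups of linear automorphisms
-/

namespace MP7b0bad.Lin

theorem CUni_pow {F V : Type} [Field F] [AddCommGroup V] [Module F V] (W : Submodule F V)
    (g : V ≃ₗ[F] V) (hg : g ∈ Uni W) (m : ℕ) (v : V) : (g ^ m) v = v + m • (g v - v) := by
  induction m with
  | zero =>
    rw [pow_zero, zero_smul, add_zero]
    rfl
  | succ m ih =>
    have h1 : (g ^ (m + 1)) v = g ((g ^ m) v) := by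
      rw [pow_succ']
      rfl
    have h2 : g (g v - v) = g v - v := hg.2 _ (hg.1 v)
    rw [h1, ih, map_add, map_nsmul, h2, succ_nsmul]
    abel

theorem prf_CUni : CUni := by
  intro p _ F V _ _ _ _ W
  refine ⟨?_, ?_⟩
  · rintro ⟨g, hg⟩
    refine ⟨1, ?_⟩
    rw [pow_one]
    apply Subtype.ext
    change g ^ p = 1
    ext v
    rw [CUni_pow W g hg p v, ← Nat.cast_smul_eq_nsmul F, CharP.cast_eq_zero F p, zero_smul,
      add_zero]
    rfl
  · intro c hc x hx
    have h0 : ∀ v, c (c⁻¹ v) = v := fun v => c.apply_symm_apply v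
    have h1 : ∀ v, (c * x * c⁻¹) v = c (x (c⁻¹ v)) := fun v => rfl
    refine ⟨fun v => ?_, fun w hw => ?_⟩
    · have h2 : (c * x * c⁻¹) v - v = c (x (c⁻¹ v) - c⁻¹ v) := by
        rw [map_sub, h0, h1]
      rw [h2, hc]
      exact hx.1 _
    · have h3 : c⁻¹ w ∈ W := by
        rw [← hc, h0]
        exact hw
      rw [h1, hx.2 _ h3, h0]

end MP7b0bad.Lin
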