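import Pool.Agent.Work.MP_7b0bad_ag.Lin.Stmts

set_option autoImplicit false

/-!
# Block Lin: [EBas] coordinates on the roots adapted to a place over infinity
-/

open Polynomial Pointwise Matrix

namespace MP7b0bad.Lin

open SnT (cc xx)

/-- a constant which is congruent to `1` is `1` -/
theorem EBas_unit {k : Type} [Field k] {L : Type} [Field L] [Algebra (RatFunc k) L]
    {A : ValuationSubring L} (hA : AtInfty (k := k) A) {c : k}
    (h : (1 : L) - cc k L c ∈ A.nonunits) : c = 1 := by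
  by_contra hc
  have hd : 1 - c ≠ 0 := sub_ne_zero.2 (Ne.symm hc)
  have h1 : (1 : L) - cc k L c = cc k L (1 - c) := by rw [map_sub, map_one]
  rw [h1, ValuationSubring.mem_nonunits_iff] at h
  have h2 : A.valuation (cc k L (1 - c)⁻¹) ≤ 1 := (A.valuation_le_one_iff _).2 (hA.1 _)
  have h3 : A.valuation (cc k L (1 - c)) * A.valuation (cc k L (1 - c)⁻¹) = 1 := by
    rw [← map_mul, ← map_mul, mul_inv_cancel₀ hd, map_one, map_one]
  have h4 : A.valuation (cc k L (1 - c)) * A.valuation (cc k L (1 - c)⁻¹) < 1 :=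
    lt_of_le_of_lt (mul_le_of_le_one_right' h2) h
  rw [h3] at h4
  exact lt_irrefl _ h4

theorem EBas_zero (k : Type) [Field k] {q i n : ℕ} (hq : q ≠ 0) {L : Type} [Field L]
    [Algebra (RatFunc k) L] : (0 : L) ∈ Vl k q i n L := by
  change (0 : L) ^ (q ^ n) + xx k L * 0 ^ (q ^ i) + 0 = 0
  rw [zero_pow (pow_ne_zero _ hq), zero_pow (pow_ne_zero _ hq)]
  ring

theorem EBas_add (p : ℕ) [Fact p.Prime] (k : Type) [Field k] [CharP k p] {m i n : ℕ} {L : Type}
    [Field L] [Algebra (RatFunc k) L] {y z : L} (hy : y ∈ Vl k (p ^ m) i n L)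
    (hz : z ∈ Vl k (p ^ m) i n L) : y + z ∈ Vl k (p ^ m) i n L := by
  have _hLp : CharP L p := charP_of_injective_ringHom (cc k L).injective p
  change (y + z) ^ ((p ^ m) ^ n) + xx k L * (y + z) ^ ((p ^ m) ^ i) + (y + z) = 0
  change y ^ ((p ^ m) ^ n) + xx k L * y ^ ((p ^ m) ^ i) + y = 0 at hy
  change z ^ ((p ^ m) ^ n) + xx k L * z ^ ((p ^ m) ^ i) + z = 0 at hz
  simp only [← pow_mul] at hy hz ⊢
  rw [add_pow_char_pow y z p (m * n), add_pow_char_pow y z p (m * i)]
  linear_combination hy + hz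

theorem EBas_smul (k F : Type) [Field k] [Field F] [Finite F] (ι : F →+* k) {q i n : ℕ}
    (hF : Nat.card F = q) {L : Type} [Field L] [Algebra (RatFunc k) L] (a : F) {y : L}
    (hy : y ∈ Vl k q i n L) : cc k L (ι a) * y ∈ Vl k q i n L := by
  classical
  have _inst : Fintype F := Fintype.ofFinite F
  have h0 : ∀ r : ℕ, cc k L (ι a) ^ (q ^ r) = cc k L (ι a) := by
    intro r
    rw [← map_pow, ← map_pow, ← hF, Nat.card_eq_fintype_card, FiniteField.pow_card_pow]
  change (cc k L (ι a) * y) ^ (q ^ n) + xx k L * (cc k L (ι a) * y) ^ (q ^ i) +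
    cc k L (ι a) * y = 0
  change y ^ (q ^ n) + xx k L * y ^ (q ^ i) + y = 0 at hy
  rw [mul_pow, mul_pow, h0, h0]
  linear_combination cc k L (ι a) * hy

theorem prf_EBas (hVal : EVal) (hCnt : ECnt) (hL1 : EL1) (hL2 : EL2) : EBas := by
  intro p _ k _ _ F E E' _ _ _ _ _ _ _ _ ι κ κ' m i j hD L _ _ _ A hA
  classical
  have hp : p.Prime := Fact.out
  have hq : 2 ≤ p ^ m := le_trans hp.two_le (le_self_pow hp.one_le hD.hm.ne')
  have hq0 : p ^ m ≠ 0 := by omega
  have hij : i < i + j := Nat.lt_add_of_pos_right hD.hj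
  obtain ⟨hc1, hc2⟩ := hCnt p k m i (i + j) hD.hm hD.hi hij L A hA
  have hlt1 : 1 < (p ^ m) ^ i := Nat.one_lt_pow hD.hi.ne' (by omega)
  have hlt2 : (p ^ m) ^ i < (p ^ m) ^ (i + j) := Nat.pow_lt_pow_right (by omega) hij
  have hfin : (Vl k (p ^ m) i (i + j) L).Finite := by
    apply Set.finite_of_ncard_ne_zero
    rw [hc1]
    exact pow_ne_zero _ hq0
  -- the two elements
  obtain ⟨w₀, ⟨hw1, hw2⟩, hw0⟩ : ∃ w ∈ {y | y ∈ Vl k (p ^ m) i (i + j) L ∧ y ∈ A}, w ≠ 0 :=
    Set.exists_ne_of_one_lt_ncard (by rw [hc2]; exact hlt1) 0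
  obtain ⟨y₀, hy1, hy2⟩ : ∃ y ∈ Vl k (p ^ m) i (i + j) L, y ∉ A := by
    by_contra hno
    push Not at hno
    have h1 : {y | y ∈ Vl k (p ^ m) i (i + j) L ∧ y ∈ A} = Vl k (p ^ m) i (i + j) L := by
      ext y
      exact ⟨fun h => h.1, fun h => ⟨h, hno y h⟩⟩
    rw [h1, hc1] at hc2
    exact hlt2.ne' hc2
  have hy0 : y₀ ≠ 0 := fun h => hy2 (by rw [h]; exact A.zero_mem)
  obtain ⟨l, linj, lran, ladd, lsmul, llab⟩ :=
    hL1 p k F E E' ι κ κ' m i j hD L A hA w₀ hw1 hw0 hw2
  obtain ⟨lb, blab, badd, bsmul, bzero, bsur⟩ :=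
    hL2 p k F E E' ι κ κ' m i j hD L A hA y₀ hy1 hy2
  have lV : ∀ α, l α ∈ Vl k (p ^ m) i (i + j) L ∧ l α ∈ A := by
    intro α
    have h1 : l α ∈ Set.range l := ⟨α, rfl⟩
    rw [lran] at h1
    exact h1
  -- the section
  let modL : Module F L := Module.compHom L ((cc k L).comp ι)
  have hsm : ∀ (a : F) (y : L), a • y = cc k L (ι a) * y := fun _ _ => rfl
  let V : Submodule F L :=
    { carrier := Vl k (p ^ m) i (i + j) L
      add_mem' := fun hy hz => EBas_add p k hy hz
      zero_mem' := EBas_zero k hq0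
      smul_mem' := fun a y hy => EBas_smul k F ι hD.cF a hy }
  let lV' : V →ₗ[F] E' :=
    { toFun := fun y => lb y.1
      map_add' := fun y z => badd y.1 y.2 z.1 z.2
      map_smul' := fun a y => bsmul a y.1 y.2 }
  have hsur : LinearMap.range lV' = ⊤ := by
    rw [LinearMap.range_eq_top]
    intro β
    obtain ⟨y, hy, hyβ⟩ := bsur β
    exact ⟨⟨y, hy⟩, hyβ⟩
  obtain ⟨s, hs⟩ := lV'.exists_rightInverse_of_surjective hsur
  have hs' : ∀ β, lb (s β : L) = β := fun β => LinearMap.congr_fun hs β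
  have sV : ∀ β, (s β : L) ∈ Vl k (p ^ m) i (i + j) L := fun β => (s β).2
  have lb0 : ∀ α, lb (l α) = 0 := fun α => (bzero _ (lV α).1).2 (lV α).2
  set e : E × E' → L := fun z => l z.1 + (s z.2 : L) with he
  have l0 : l 0 = 0 := by
    have h1 := ladd 0 0
    rw [add_zero] at h1
    exact left_eq_add.1 h1
  have heV : ∀ z, e z ∈ Vl k (p ^ m) i (i + j) L := fun z => EBas_add p k (lV z.1).1 (sV z.2)
  have hlb : ∀ z, lb (e z) = z.2 := by
    intro z
    have h1 := badd (l z.1) (lV z.1).1 (s z.2 : L) (sV z.2)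
    rw [lb0, hs', zero_add] at h1
    exact h1
  have hadd : ∀ z z', e (z + z') = e z + e z' := by
    intro z z'
    change l (z.1 + z'.1) + ((s (z.2 + z'.2) : V) : L) = l z.1 + (s z.2 : L) + (l z'.1 + (s z'.2 : L))
    rw [ladd, map_add, Submodule.coe_add]
    ring
  have hsmul : ∀ (a : F) z, e (a • z) = cc k L (ι a) * e z := by
    intro a z
    change l (a • z.1) + ((s (a • z.2) : V) : L) = cc k L (ι a) * (l z.1 + (s z.2 : L))
    rw [lsmul, map_smul, Submodule.coe_smul, hsm]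
    ring
  have he0 : ∀ α, e (α, 0) = l α := by
    intro α
    change l α + ((s 0 : V) : L) = l α
    rw [map_zero, Submodule.coe_zero, add_zero]
  have hCd : Cd ι (p ^ m) i (i + j) A e := by
    refine ⟨?_, ?_, hadd, hsmul, ?_, ?_⟩
    · intro z z' hz
      have h2 : z.2 = z'.2 := by rw [← hlb z, ← hlb z', hz]
      have h1 : l z.1 = l z'.1 := by
        have h3 : l z.1 + (s z.2 : L) = l z'.1 + (s z'.2 : L) := hz
        rw [h2] at h3
        exact add_right_cancel h3
      exact Prod.ext (linj h1) h2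
    · apply Set.Subset.antisymm
      · rintro _ ⟨z, rfl⟩
        exact heV z
      · intro y hy
        have h1 : y - (s (lb y) : L) ∈ V := V.sub_mem hy (s (lb y)).2
        have h2 : lb (y - (s (lb y) : L)) = 0 := by
          have h3 := badd _ h1 (s (lb y) : L) (sV (lb y))
          rw [sub_add_cancel, hs'] at h3
          exact right_eq_add.1 h3
        have h4 : y - (s (lb y) : L) ∈ A := (bzero _ h1).1 h2
        have h5 : y - (s (lb y) : L) ∈ Set.range l := by
          rw [lran]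
          exact ⟨h1, h4⟩
        obtain ⟨α, hα⟩ := h5
        refine ⟨(α, lb y), ?_⟩
        change l α + (s (lb y) : L) = y
        rw [hα, sub_add_cancel]
    · intro x
      rw [he0]
      by_cases hx : l x = 0
      · rw [hx, ValuationSubring.mem_nonunits_iff, map_zero]
        exact zero_lt_one
      · rcases hVal k (p ^ m) i (i + j) hq hD.hi hij L A hA (l x) (lV x).1 hx with h | h
        · exact h.1
        · exact absurd (lV x).2 h.1
    · intro x y hy hmem
      have h1 := (bzero _ (heV (x, y))).2 hmem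
      rw [hlb] at h1
      exact hy h1
  refine ⟨e, w₀, y₀, hCd, ?_, ?_, ?_, ?_⟩
  · have h1 : w₀ ∈ Set.range l := by
      rw [lran]
      exact ⟨hw1, hw2⟩
    obtain ⟨α, hα⟩ := h1
    have h2 := llab α
    rw [hα, div_self hw0] at h2
    have h3 : κ α = 1 := EBas_unit hA h2
    have h4 : α = 1 := κ.injective (by rw [h3, map_one])
    rw [he0, ← h4, hα]
  · have h1 : y₀ ∈ Set.range e := by
      rw [hCd.range]
      exact hy1
    obtain ⟨z, hz⟩ := h1
    have h2 := blab y₀ hy1
    rw [div_self hy0] at h2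
    have h3 : κ' (lb y₀) = 1 := EBas_unit hA h2
    have h4 : lb y₀ = 1 := κ'.injective (by rw [h3, map_one])
    refine ⟨z.1, ?_⟩
    rw [← hz, hlb] at h4
    rw [← hz, ← h4]
  · intro α
    rw [he0]
    exact llab α
  · intro α β
    have h1 := blab (e (α, β)) (heV (α, β))
    rw [hlb] at h1
    exact h1

end MP7b0bad.Lin
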