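import Mathlib
import Pool.Agent.Work.MP_7b0bad_ag.Lin.Stmts

set_option autoImplicit false

/-!
# Block Lin, item ECnt: the number of small roots
-/

open Polynomial Pointwise

namespace MP7b0bad.Lin

open SnT (cc xx)

/-- exponents -/
theorem ECnt_arith {Q I s b : ℕ} (hI : 1 < I) (hQ : I < Q) (h1 : s * (Q - I) = b * (I - 1))
    (h2 : s + b = Q - 1) : s = I - 1 := by
  obtain ⟨u, rfl⟩ : ∃ u, I = u + 1 := ⟨I - 1, by omega⟩
  obtain ⟨w, rfl⟩ : ∃ w, Q = u + 1 + w := ⟨Q - (u + 1), by omega⟩
  have e1 : u + 1 + w - (u + 1) = w := by omega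
  have e2 : u + 1 - 1 = u := by omega
  have e3 : u + 1 + w - 1 = u + w := by omega
  rw [e1, e2] at h1
  rw [e3] at h2
  rw [e2]
  have h3 : s * (u + w) = u * (u + w) := by
    have : s * (u + w) = s * u + s * w := by ring
    rw [this, h1, ← h2]
    ring
  exact Nat.eq_of_mul_eq_mul_right (by omega) h3

/-- elimination of the products -/
theorem ECnt_alg {Γ : Type} [CommMonoid Γ] (P1 P2 a : Γ) (u w s b : ℕ) (h : P1 * P2 = 1)
    (h1 : P1 ^ u * a ^ s = 1) (h2 : P2 ^ w = a ^ b) : a ^ (s * w) = a ^ (b * u) := by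
  have e2 : (P1 ^ u) ^ w * (P2 ^ w) ^ u = 1 := by
    rw [← pow_mul P1, ← pow_mul P2, mul_comm w u, ← mul_pow, h, one_pow]
  rw [h2] at e2
  calc a ^ (s * w) = (a ^ s) ^ w * ((P1 ^ u) ^ w * (a ^ b) ^ u) := by rw [e2, mul_one, pow_mul]
    _ = (P1 ^ u * a ^ s) ^ w * (a ^ b) ^ u := by
        rw [mul_pow, ← mul_assoc, mul_comm ((a ^ s) ^ w)]
    _ = a ^ (b * u) := by rw [h1, one_pow, one_mul, pow_mul]

theorem prf_ECnt (hSep : ESep) (hVal : EVal) : ECnt := by
  classical
  intro p _ k _ _ m i n hm hi hin L _ _ _ A hA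
  set q := p ^ m with hq
  have hq2 : 2 ≤ q := le_trans (Fact.out : p.Prime).two_le (le_self_pow
    (Fact.out : p.Prime).one_lt.le hm.ne')
  have hqk : ((q : ℕ) : k) = 0 := by
    rw [hq, Nat.cast_pow, CharP.cast_eq_zero, zero_pow hm.ne']
  obtain ⟨hmon, hdeg, hsep⟩ := hSep k q i n hq2 hi hin hqk
  have hI : 1 < q ^ i := Nat.one_lt_pow hi.ne' (by omega)
  have hQ : q ^ i < q ^ n := Nat.pow_lt_pow_right (by omega) hin
  have hsp : ((FL k q i n).map (algebraMap (RatFunc k) L)).Splits :=
    IsSplittingField.splits L (FL k q i n)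
  have hmm : ((FL k q i n).map (algebraMap (RatFunc k) L)).Monic := hmon.map _
  have hprod : (FL k q i n).map (algebraMap (RatFunc k) L) =
      (((FL k q i n).map (algebraMap (RatFunc k) L)).roots.map (X - C ·)).prod :=
    hsp.eq_prod_roots_of_monic hmm
  have hnd : ((FL k q i n).map (algebraMap (RatFunc k) L)).roots.Nodup :=
    Polynomial.nodup_roots (hsep.map)
  set s : Multiset L := ((FL k q i n).map (algebraMap (RatFunc k) L)).roots with hs
  have hone : (s.map (0 - ·)).prod = (1 : L) := by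
    have h1 := congrArg (Polynomial.eval (0 : L)) hprod
    rw [Polynomial.eval_multiset_prod, Multiset.map_map] at h1
    have h2 : Polynomial.eval (0 : L) ((FL k q i n).map (algebraMap (RatFunc k) L)) = 1 := by
      rw [Polynomial.eval_map_algebraMap, aeval_FL, zero_pow (by omega : q ^ n - 1 ≠ 0),
        zero_pow (by omega : q ^ i - 1 ≠ 0)]
      ring
    rw [h2] at h1
    rw [h1]
    congr 1
    refine Multiset.map_congr rfl fun r _ => ?_
    simp
  have hcard : s.card = q ^ n - 1 := by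
    rw [← hdeg, ← Polynomial.natDegree_map (algebraMap (RatFunc k) L), hs]
    exact hsp.natDegree_eq_card_roots.symm
  set S : Finset L := s.toFinset with hS
  have hSc : S.card = q ^ n - 1 := by
    rw [hS, Multiset.toFinset_card_of_nodup hnd, hcard]
  have hrs : (FL k q i n).rootSet L = (S : Set L) := by
    rw [Polynomial.rootSet_def, Polynomial.aroots_def]
  have h0 : (0 : L) ∉ S := by
    intro h
    have h1 : (0 : L) ∈ (FL k q i n).rootSet L := by rw [hrs]; exact h
    have h2 := (Polynomial.mem_rootSet.1 h1).2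
    rw [aeval_FL, zero_pow (by omega : q ^ n - 1 ≠ 0), zero_pow (by omega : q ^ i - 1 ≠ 0)] at h2
    simp at h2
  have hVl : Vl k q i n L = (insert (0 : L) S : Finset L) := by
    ext y
    rw [mem_Vl hq2 hi (by omega), hrs]
    simp
  have hvS : ∀ y ∈ S, (y ∈ A.nonunits ∧ A.valuation y ^ (q ^ i - 1) * A.valuation (xx k L) = 1) ∨
      (y ∉ A ∧ A.valuation y ^ (q ^ n - q ^ i) = A.valuation (xx k L)) := fun y hy =>
    hVal k q i n hq2 hi hin L A hA y (by rw [hVl]; simp [hy]) (fun h => h0 (h ▸ hy))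
  have hx : 1 < A.valuation (xx k L) := by
    have h := hA.2
    rw [← A.valuation_le_one_iff, not_le] at h
    exact h
  set a := A.valuation (xx k L) with ha
  -- product of the values
  have hP : ∏ r ∈ S, A.valuation r = 1 := by
    have h1 := congrArg A.valuation hone
    rw [map_multiset_prod, Multiset.map_map, map_one] at h1
    have h2 : Multiset.map (⇑A.valuation ∘ fun x => 0 - x) s = Multiset.map A.valuation s := by
      refine Multiset.map_congr rfl fun r _ => ?_
      simp [Valuation.map_neg]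
    rw [h2] at h1
    rw [Finset.prod, hS, Multiset.toFinset_val, Multiset.dedup_eq_self.2 hnd]
    exact h1
  set S1 := S.filter (· ∈ A) with hS1
  set S2 := S.filter (· ∉ A) with hS2
  have hc : S1.card + S2.card = q ^ n - 1 := by
    rw [← hSc, hS1, hS2]
    exact Finset.card_filter_add_card_filter_not (s := S) (· ∈ A)
  have hP12 : (∏ r ∈ S1, A.valuation r) * ∏ r ∈ S2, A.valuation r = 1 := by
    rw [← hP, hS1, hS2]
    exact Finset.prod_filter_mul_prod_filter_not S (· ∈ A) _
  have hP1 : (∏ r ∈ S1, A.valuation r) ^ (q ^ i - 1) * a ^ S1.card = 1 := by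
    rw [← Finset.prod_pow, ← Finset.prod_const, ← Finset.prod_mul_distrib]
    refine Finset.prod_eq_one fun r hr => ?_
    obtain ⟨hr1, hr2⟩ := Finset.mem_filter.1 hr
    rcases hvS r hr1 with h | h
    · exact h.2
    · exact absurd hr2 h.1
  have hP2 : (∏ r ∈ S2, A.valuation r) ^ (q ^ n - q ^ i) = a ^ S2.card := by
    rw [← Finset.prod_pow, ← Finset.prod_const]
    refine Finset.prod_congr rfl fun r hr => ?_
    obtain ⟨hr1, hr2⟩ := Finset.mem_filter.1 hr
    rcases hvS r hr1 with h | h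
    · exact absurd (A.nonunits_subset h.1) hr2
    · exact h.2
  have hexp : a ^ (S1.card * (q ^ n - q ^ i)) = a ^ (S2.card * (q ^ i - 1)) :=
    ECnt_alg _ _ a _ _ _ _ hP12 hP1 hP2
  have hnat : S1.card * (q ^ n - q ^ i) = S2.card * (q ^ i - 1) :=
    (pow_right_strictMono₀ hx).injective hexp
  have hS1c : S1.card = q ^ i - 1 := ECnt_arith hI hQ hnat hc
  constructor
  · rw [hVl, Set.ncard_coe_finset, Finset.card_insert_of_notMem h0, hSc]
    have : 1 ≤ q ^ n := Nat.one_le_pow _ _ (by omega)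
    omega
  · have h1 : {y | y ∈ Vl k q i n L ∧ y ∈ A} = ((insert (0 : L) S1 : Finset L) : Set L) := by
      ext y
      rw [hVl]
      simp only [Set.mem_setOf_eq, Finset.coe_insert, Set.mem_insert_iff, Finset.mem_coe, hS1,
        Finset.mem_filter]
      constructor
      · rintro ⟨h | h, h2⟩
        · exact Or.inl h
        · exact Or.inr ⟨h, h2⟩
      · rintro (h | ⟨h, h2⟩)
        · exact ⟨Or.inl h, h ▸ A.zero_mem⟩
        · exact ⟨Or.inr h, h2⟩
    have h2 : (0 : L) ∉ S1 := fun h => h0 (Finset.mem_filter.1 h).1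
    rw [h1, Set.ncard_coe_finset, Finset.card_insert_of_notMem h2, hS1c]
    omega

end MP7b0bad.Lin
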