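import Pool.Agent.Work.MP_7b0bad_ag.Lin.Stmts

set_option autoImplicit false

/-!
# Block Lin, item EGrp: group theory of the decomposition group
-/

namespace MP7b0bad.Lin

/-- in characteristic `p` there is no unit of order `p` -/
theorem EGrp_not_dvd {p : ℕ} (hp : p.Prime) {k : Type} [Field k] [CharP k p] (x : kˣ)
    (hx : 0 < orderOf x) : ¬ p ∣ orderOf x := by
  intro hd
  obtain ⟨r, hr⟩ := hd
  have hr0 : 0 < r := by
    rcases Nat.eq_zero_or_pos r with h | h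
    · rw [hr, h, mul_zero] at hx
      exact absurd hx (lt_irrefl 0)
    · exact h
  have hy : (x ^ r) ^ p = 1 := by
    rw [← pow_mul, mul_comm r p, ← hr, pow_orderOf_eq_one]
  have hy1 : ((x ^ r : kˣ) : k) ^ p = 1 := by
    rw [← Units.val_pow_eq_pow_val, hy, Units.val_one]
  have : Fact p.Prime := ⟨hp⟩
  have hy2 : ((x ^ r : kˣ) : k) = 1 := by
    have h1 : (((x ^ r : kˣ) : k) - 1) ^ p = 0 := by
      rw [sub_pow_char, hy1, one_pow, sub_self]
    exact sub_eq_zero.1 (pow_eq_zero_iff hp.pos.ne' |>.1 h1)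
  have hy3 : x ^ r = 1 := Units.ext (by rw [hy2, Units.val_one])
  have h4 := Nat.le_of_dvd hr0 (orderOf_dvd_of_pow_eq_one hy3)
  rw [hr] at h4
  have h5 := hp.two_le
  nlinarith

theorem prf_EGrp : EGrp := by
  intro p _ k _ _ D _ _ θ θ' A B hA hB hker hrel
  have hp : p.Prime := Fact.out
  set a := A / Nat.gcd A B with ha
  set b := B / Nat.gcd A B with hb
  have hcop : Nat.Coprime a b := Nat.coprime_div_gcd_div_gcd (Nat.gcd_pos_of_pos_left B hA)
  obtain ⟨u, v, huv⟩ : ∃ u v : ℤ, u * b + v * a = 1 := by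
    have h1 := Nat.gcd_eq_gcd_ab a b
    rw [hcop] at h1
    exact ⟨Nat.gcdB a b, Nat.gcdA a b, by push_cast at h1; linarith⟩
  -- the character
  let χ : D →* kˣ :=
    { toFun := fun g => θ g ^ u * θ' g ^ (-v)
      map_one' := by simp
      map_mul' := fun g h => by
        rw [map_mul, map_mul, mul_zpow, mul_zpow]
        exact mul_mul_mul_comm _ _ _ _ }
  have hχ : ∀ g, χ g = θ g ^ u * θ' g ^ (-v) := fun g => rfl
  have hrel' : ∀ g, θ g ^ (a : ℤ) * θ' g ^ (b : ℤ) = 1 := fun g => by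
    rw [zpow_natCast, zpow_natCast]
    exact hrel g
  have hk1 : ∀ g, χ g = 1 → θ g = 1 ∧ θ' g = 1 := by
    intro g hg
    rw [hχ, zpow_neg, mul_inv_eq_one] at hg
    have h1 := hrel' g
    have h2 : θ g ^ (a : ℤ) = θ' g ^ (-(b : ℤ)) := by
      rw [zpow_neg]
      exact eq_inv_of_mul_eq_one_left h1
    have h3 : θ' g ^ (b : ℤ) = θ g ^ (-(a : ℤ)) := by
      rw [zpow_neg]
      exact eq_inv_of_mul_eq_one_right h1
    constructor
    · calc θ g = θ g ^ (u * b + v * a) := by rw [huv, zpow_one]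
        _ = (θ g ^ u) ^ (b : ℤ) * (θ g ^ (a : ℤ)) ^ v := by
            rw [zpow_add, zpow_mul, mul_comm v, zpow_mul]
        _ = (θ' g ^ v) ^ (b : ℤ) * (θ' g ^ (-(b : ℤ))) ^ v := by rw [hg, h2]
        _ = 1 := by
            rw [← zpow_mul, ← zpow_mul, ← zpow_add, neg_mul, mul_comm v, add_neg_cancel, zpow_zero]
    · calc θ' g = θ' g ^ (u * b + v * a) := by rw [huv, zpow_one]
        _ = (θ' g ^ (b : ℤ)) ^ u * (θ' g ^ v) ^ (a : ℤ) := by
            rw [zpow_add, mul_comm u, zpow_mul, zpow_mul]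
        _ = (θ g ^ (-(a : ℤ))) ^ u * (θ g ^ u) ^ (a : ℤ) := by rw [hg, h3]
        _ = 1 := by
            rw [← zpow_mul, ← zpow_mul, ← zpow_add, neg_mul, mul_comm u, neg_add_cancel, zpow_zero]
  -- a generator of the image
  have hfin : Finite χ.range := Finite.of_surjective χ.rangeRestrict χ.rangeRestrict_surjective
  obtain ⟨⟨_, g₀, rfl⟩, hg₀⟩ := IsCyclic.exists_generator (α := χ.range)
  have hgen : ∀ g, χ g ∈ Subgroup.zpowers (χ g₀) := by
    intro g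
    obtain ⟨n, hn⟩ := Subgroup.mem_zpowers_iff.1 (hg₀ ⟨χ g, g, rfl⟩)
    refine Subgroup.mem_zpowers_iff.2 ⟨n, ?_⟩
    have h1 := congrArg (Subtype.val) hn
    simpa using h1
  have hn0 : orderOf g₀ ≠ 0 := (orderOf_pos g₀).ne'
  set e := (orderOf g₀).factorization p with he
  have hdvd : p ^ e ∣ orderOf g₀ := Nat.ordProj_dvd _ _
  have hord : ¬ p ∣ orderOf (g₀ ^ p ^ e) := by
    rw [orderOf_pow_of_dvd (pow_ne_zero _ hp.pos.ne') hdvd]
    exact Nat.not_dvd_ordCompl hp hn0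
  have hχ0 : 0 < orderOf (χ g₀) :=
    Nat.pos_of_dvd_of_pos (orderOf_map_dvd χ g₀) (orderOf_pos g₀)
  have hcop2 : Nat.Coprime (p ^ e) (orderOf (χ g₀)) :=
    Nat.Coprime.pow_left _ ((Nat.Prime.coprime_iff_not_dvd hp).2 (EGrp_not_dvd hp _ hχ0))
  obtain ⟨m₀, hm₀⟩ := exists_pow_eq_self_of_coprime hcop2
  have hpow : ∀ g, ∃ m : ℕ, χ g = χ (g₀ ^ p ^ e) ^ m := by
    intro g
    have h1 : IsOfFinOrder (χ g₀) := orderOf_pos_iff.1 hχ0
    obtain ⟨n, hn⟩ := h1.mem_powers_iff_mem_zpowers.2 (hgen g)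
    refine ⟨m₀ * n, ?_⟩
    rw [map_pow, pow_mul, hm₀]
    exact hn.symm
  refine ⟨χ.ker, g₀ ^ p ^ e, ?_, inferInstance, hord, ?_, fun g hg => hk1 g hg, ?_⟩
  · rintro ⟨g, hg⟩
    obtain ⟨h1, h2⟩ := hk1 g hg
    obtain ⟨m, hm⟩ := hker g h1 h2
    exact ⟨m, Subtype.ext hm⟩
  · rw [eq_top_iff]
    intro g _
    obtain ⟨m, hm⟩ := hpow g
    have h1 : g = (g * ((g₀ ^ p ^ e) ^ m)⁻¹) * (g₀ ^ p ^ e) ^ m := by group
    rw [h1]
    refine Subgroup.mul_mem_sup ?_ (Subgroup.pow_mem _ (Subgroup.mem_zpowers _) m)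
    rw [MonoidHom.mem_ker, map_mul, map_inv, map_pow, ← hm, mul_inv_cancel]
  · intro g
    obtain ⟨m, hm⟩ := hpow g
    have h1 : χ (g * ((g₀ ^ p ^ e) ^ m)⁻¹) = 1 := by
      rw [map_mul, map_inv, map_pow, ← hm, mul_inv_cancel]
    obtain ⟨h2, h3⟩ := hk1 _ h1
    refine ⟨m, ?_, ?_⟩
    · rw [map_mul, map_inv, mul_inv_eq_one, map_pow] at h2
      exact h2
    · rw [map_mul, map_inv, mul_inv_eq_one, map_pow] at h3
      exact h3

end MP7b0bad.Lin
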