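import Pool.Agent.Work.MP_7b0bad_ag.Lin.Stmts

set_option autoImplicit false

/-!
# Block Lin: [EL1] labels for the small roots
-/

open Polynomial Pointwise Matrix

namespace MP7b0bad.Lin

open SnT (cc xx)

section

variable {k : Type} [Field k] {L : Type} [Field L] [Algebra (RatFunc k) L]
  {A : ValuationSubring L}

/-- if `t ^ #E - t` is in the maximal ideal, then `t` is close to an element of `E` -/
theorem EL1_near {E : Type} [Field E] [Finite E] (κ : E →+* k) (t : L)
    (h : t ^ Nat.card E - t ∈ A.nonunits) : ∃ α : E, t - cc k L (κ α) ∈ A.nonunits := by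
  classical
  have _inst : Fintype E := Fintype.ofFinite E
  have h0 : (X ^ Fintype.card E - X : E[X]).natDegree = Fintype.card E :=
    FiniteField.X_pow_card_sub_X_natDegree_eq E Fintype.one_lt_card
  have hmon : (X ^ Fintype.card E - X : E[X]).Monic := by
    refine Polynomial.monic_X_pow_sub ?_
    rw [Polynomial.degree_X]
    exact_mod_cast (Fintype.one_lt_card : 1 < Fintype.card E)
  have hroots := FiniteField.roots_X_pow_card_sub_X E
  have h1 : (Finset.univ.val.map fun α : E => (X - C α : E[X])).prod =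
      X ^ Fintype.card E - X := by
    rw [← hroots]
    refine Polynomial.prod_multiset_X_sub_C_of_monic_of_roots_card_eq hmon ?_
    rw [hroots, h0]
    rfl
  have h2 := congrArg (fun P : E[X] => P.eval₂ ((cc k L).comp κ) t) h1
  simp only [Polynomial.eval₂_sub, Polynomial.eval₂_X_pow, Polynomial.eval₂_X] at h2
  have h3 : (Finset.univ.val.map fun α : E => (X - C α : E[X])).prod =
      ∏ α : E, (X - C α : E[X]) := rfl
  rw [h3, Polynomial.eval₂_finsetProd] at h2
  simp only [Polynomial.eval₂_sub, Polynomial.eval₂_X, Polynomial.eval₂_C,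
    RingHom.comp_apply] at h2
  by_contra hno
  push Not at hno
  have h4 : ∀ α ∈ (Finset.univ : Finset E), 1 ≤ A.valuation (t - cc k L (κ α)) := by
    intro α _
    have := hno α
    rw [ValuationSubring.mem_nonunits_iff, not_lt] at this
    exact this
  have h5 : 1 ≤ A.valuation (t ^ Nat.card E - t) := by
    rw [Nat.card_eq_fintype_card, ← h2, map_prod]
    exact Finset.one_le_prod' h4
  exact absurd ((ValuationSubring.mem_nonunits_iff A).1 h) (not_lt.2 h5)

/-- different constants are not close -/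
theorem EL1_dis (hA : AtInfty (k := k) A) {c d : k} {y : L} (h : y - cc k L c ∈ A.nonunits)
    (h' : y - cc k L d ∈ A.nonunits) : c = d := by
  by_contra hne
  have hne' : c - d ≠ 0 := sub_ne_zero.2 hne
  have e : cc k L (c - d) = (y - cc k L d) - (y - cc k L c) := by
    rw [map_sub]; ring
  have h1 : A.valuation (cc k L (c - d)) < 1 := by
    rw [e]
    exact lt_of_le_of_lt (Valuation.map_sub _ _ _) (max_lt h' h)
  have h2 : A.valuation (cc k L (c - d)⁻¹) ≤ 1 := (A.valuation_le_one_iff _).2 (hA.1 _)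
  have h3 : A.valuation (cc k L (c - d) * cc k L (c - d)⁻¹) = 1 := by
    rw [← map_mul, mul_inv_cancel₀ hne', map_one, map_one]
  rw [map_mul] at h3
  have h4 : A.valuation (cc k L (c - d)) * A.valuation (cc k L (c - d)⁻¹) < 1 :=
    mul_lt_one_of_lt_of_le h1 h2
  exact absurd h3 (ne_of_lt h4)

theorem EL1_Vadd {p : ℕ} [Fact p.Prime] [CharP k p] {m i n : ℕ} {y z : L}
    (hy : y ∈ Vl k (p ^ m) i n L) (hz : z ∈ Vl k (p ^ m) i n L) :
    y + z ∈ Vl k (p ^ m) i n L := by
  have hLp : CharP L p := charP_of_injective_ringHom (cc k L).injective p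
  have h1 : ∀ e : ℕ, (y + z) ^ ((p ^ m) ^ e) = y ^ ((p ^ m) ^ e) + z ^ ((p ^ m) ^ e) := by
    intro e
    rw [← pow_mul]
    exact add_pow_char_pow y z p (m * e)
  change y ^ ((p ^ m) ^ n) + xx k L * y ^ ((p ^ m) ^ i) + y = 0 at hy
  change z ^ ((p ^ m) ^ n) + xx k L * z ^ ((p ^ m) ^ i) + z = 0 at hz
  change (y + z) ^ ((p ^ m) ^ n) + xx k L * (y + z) ^ ((p ^ m) ^ i) + (y + z) = 0
  rw [h1, h1]
  linear_combination hy + hz

theorem EL1_Vsmul {p : ℕ} [Fact p.Prime] [CharP k p] {m i n : ℕ} {y : L} (c : k)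
    (hc : c ^ (p ^ m) = c) (hy : y ∈ Vl k (p ^ m) i n L) :
    cc k L c * y ∈ Vl k (p ^ m) i n L := by
  have h1 : ∀ e : ℕ, c ^ ((p ^ m) ^ e) = c := by
    intro e
    induction e with
    | zero => simp
    | succ e ih => rw [pow_succ, pow_mul, ih, hc]
  have h2 : ∀ e : ℕ, (cc k L c * y) ^ ((p ^ m) ^ e) = cc k L c * y ^ ((p ^ m) ^ e) := by
    intro e
    rw [mul_pow, ← map_pow, h1]
  change y ^ ((p ^ m) ^ n) + xx k L * y ^ ((p ^ m) ^ i) + y = 0 at hy
  change (cc k L c * y) ^ ((p ^ m) ^ n) + xx k L * (cc k L c * y) ^ ((p ^ m) ^ i) +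
    cc k L c * y = 0
  rw [h2, h2]
  linear_combination cc k L c * hy

theorem EL1_Vneg {p : ℕ} [Fact p.Prime] [CharP k p] {m i n : ℕ} {y : L}
    (hy : y ∈ Vl k (p ^ m) i n L) : -y ∈ Vl k (p ^ m) i n L := by
  have hp : 0 < p := (Fact.out : p.Prime).pos
  have h : ((-1 : k)) ^ (p ^ m) = -1 := by
    have h1 := add_pow_char_pow (1 : k) (-1) p m
    rw [add_neg_cancel, zero_pow (pow_pos hp m).ne', one_pow] at h1
    exact (neg_eq_of_add_eq_zero_right h1.symm).symm
  have h2 := EL1_Vsmul (n := n) (i := i) (L := L) (-1 : k) h hy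
  rwa [map_neg, map_one, neg_one_mul] at h2

end

theorem prf_EL1 (hVal : EVal) (hCnt : ECnt) : EL1 := by
  intro p _ k _ _ F E E' _ _ _ _ _ _ _ _ ι κ κ' m i j hD L _ _ _ A hA w₀ hw hw0 hwA
  classical
  obtain ⟨hm, hi, hj, cF, cE, cE', hκ, hκ'⟩ := hD
  have hp : p.Prime := Fact.out
  have hin : i < i + j := Nat.lt_add_of_pos_right hj
  have hq : 2 ≤ p ^ m := le_trans hp.two_le (le_self_pow hp.one_lt.le hm.ne')
  obtain ⟨-, hcard⟩ := hCnt p k m i (i + j) hm hi hin L A hA
  have hQ : 2 ≤ (p ^ m) ^ i := le_trans hq (le_self_pow (by omega) hi.ne')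
  have hN : 2 ≤ (p ^ m) ^ (i + j) := le_trans hq (le_self_pow (by omega) (by omega))
  -- values of the small roots
  have hsm : ∀ y ∈ Vl k (p ^ m) i (i + j) L, y ≠ 0 → y ∈ A →
      A.valuation y < 1 ∧ A.valuation y ^ ((p ^ m) ^ i - 1) * A.valuation (xx k L) = 1 := by
    intro y hy hy0 hyA
    rcases hVal k (p ^ m) i (i + j) hq hi hin L A hA y hy hy0 with h | h
    · exact ⟨(ValuationSubring.mem_nonunits_iff A).1 h.1, h.2⟩
    · exact absurd hyA h.1
  obtain ⟨hw1, hw2⟩ := hsm w₀ hw hw0 hwA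
  -- all small roots have the same value
  have hveq : ∀ y ∈ Vl k (p ^ m) i (i + j) L, y ≠ 0 → y ∈ A →
      A.valuation y = A.valuation w₀ := by
    intro y hy hy0 hyA
    obtain ⟨h1, h2⟩ := hsm y hy hy0 hyA
    have hx : A.valuation (xx k L) ≠ 0 := by
      intro h
      rw [h, mul_zero] at h2
      exact zero_ne_one h2
    have h3 : A.valuation y ^ ((p ^ m) ^ i - 1) = A.valuation w₀ ^ ((p ^ m) ^ i - 1) :=
      mul_right_cancel₀ hx (h2.trans hw2.symm)
    exact (pow_left_inj₀ zero_le zero_le (by omega)).1 h3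
  -- closeness
  have hnear : ∀ y ∈ Vl k (p ^ m) i (i + j) L, y ∈ A →
      ∃ α : E, y / w₀ - cc k L (κ α) ∈ A.nonunits := by
    intro y hy hyA
    refine EL1_near κ (y / w₀) ?_
    rw [cE]
    rcases eq_or_ne y 0 with rfl | hy0
    · rw [zero_div, zero_pow (by omega), sub_zero, ValuationSubring.mem_nonunits_iff, map_zero]
      exact zero_lt_one
    have hv := hveq y hy hy0 hyA
    obtain ⟨hy1, hy2⟩ := hsm y hy hy0 hyA
    have hye : y ^ ((p ^ m) ^ (i + j)) + xx k L * y ^ ((p ^ m) ^ i) + y = 0 := hy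
    have hwe : w₀ ^ ((p ^ m) ^ (i + j)) + xx k L * w₀ ^ ((p ^ m) ^ i) + w₀ = 0 := hw
    have hx0 : xx k L ≠ 0 := by
      intro h
      rw [h, map_zero, mul_zero] at hy2
      exact zero_ne_one hy2
    have hpw : ∀ (u : L) (a : ℕ), 1 ≤ a → u ^ a = u ^ (a - 1) * u := by
      intro u a ha
      conv_lhs => rw [← Nat.sub_add_cancel ha, pow_succ]
    -- x w₀^Q (t^Q - t) = y w₀^(N-1) - y^N
    have key : xx k L * w₀ ^ ((p ^ m) ^ i) * ((y / w₀) ^ ((p ^ m) ^ i) - y / w₀) =
        y * (w₀ ^ ((p ^ m) ^ (i + j) - 1) - y ^ ((p ^ m) ^ (i + j) - 1)) := by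
      have e1 : xx k L * w₀ ^ ((p ^ m) ^ i) * (y / w₀) ^ ((p ^ m) ^ i) =
          xx k L * y ^ ((p ^ m) ^ i) := by
        rw [div_pow]
        field_simp
      have e2 : w₀ ^ ((p ^ m) ^ (i + j)) * (y / w₀) = y * w₀ ^ ((p ^ m) ^ (i + j) - 1) := by
        rw [hpw w₀ _ (by omega)]
        field_simp
      have e3 : y ^ ((p ^ m) ^ (i + j)) = y * y ^ ((p ^ m) ^ (i + j) - 1) := by
        rw [hpw y _ (by omega), mul_comm]
      have e4 : w₀ * (y / w₀) = y := by field_simp
      rw [mul_sub, e1, mul_sub, ← e2, ← e3]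
      linear_combination hye - (y / w₀) * hwe + e4
    have hval := congrArg A.valuation key
    rw [map_mul, map_mul, map_pow, map_mul] at hval
    have h1 : A.valuation (xx k L) * A.valuation w₀ ^ ((p ^ m) ^ i) = A.valuation w₀ := by
      have e : A.valuation w₀ ^ ((p ^ m) ^ i) =
          A.valuation w₀ ^ ((p ^ m) ^ i - 1) * A.valuation w₀ := by
        conv_lhs => rw [← Nat.sub_add_cancel (show 1 ≤ (p ^ m) ^ i by omega), pow_succ]
      rw [e, ← mul_assoc, mul_comm (A.valuation (xx k L)), hw2, one_mul]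
    rw [h1, hv] at hval
    have hvw : A.valuation w₀ ≠ 0 := (Valuation.ne_zero_iff _).2 hw0
    have h2 := mul_left_cancel₀ hvw hval
    rw [ValuationSubring.mem_nonunits_iff, h2]
    have h3 : ∀ u : L, A.valuation u < 1 →
        A.valuation (u ^ ((p ^ m) ^ (i + j) - 1)) < 1 := by
      intro u hu
      rw [map_pow]
      exact pow_lt_one₀ zero_le hu (by omega)
    exact lt_of_le_of_lt (Valuation.map_sub _ _ _) (max_lt (h3 _ hw1) (h3 _ hy1))
  -- the label
  set S : Set L := {y | y ∈ Vl k (p ^ m) i (i + j) L ∧ y ∈ A} with hS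
  choose! f hf using hnear
  have hfin : S.Finite := by
    refine Set.finite_of_ncard_pos ?_
    rw [hcard]
    omega
  have hinjf : ∀ y ∈ S, ∀ y' ∈ S, f y = f y' → y = y' := by
    intro y hy y' hy' hff
    by_contra hne
    have h1 := hf y hy.1 hy.2
    have h2 := hf y' hy'.1 hy'.2
    rw [hff] at h1
    have h3 : A.valuation ((y - y') / w₀) < 1 := by
      have e : (y - y') / w₀ = (y / w₀ - cc k L (κ (f y'))) - (y' / w₀ - cc k L (κ (f y'))) := by
        rw [sub_div]; ring
      rw [e]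
      exact lt_of_le_of_lt (Valuation.map_sub _ _ _) (max_lt h1 h2)
    have h4 : y - y' ∈ Vl k (p ^ m) i (i + j) L := by
      rw [sub_eq_add_neg]
      exact EL1_Vadd hy.1 (EL1_Vneg hy'.1)
    have h5 := hveq (y - y') h4 (sub_ne_zero.2 hne) (A.sub_mem hy.2 hy'.2)
    rw [map_div₀, h5, div_self ((Valuation.ne_zero_iff _).2 hw0)] at h3
    exact lt_irrefl _ h3
  have huniq : ∀ (y : L) (α : E), y ∈ S → y / w₀ - cc k L (κ α) ∈ A.nonunits → f y = α :=
    fun y α hy h => κ.injective (EL1_dis hA (hf y hy.1 hy.2) h)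
  -- bijectivity
  let g : S → E := fun y => f y
  have hgi : Function.Injective g := fun y y' h =>
    Subtype.ext (hinjf y y.2 y' y'.2 h)
  have _fS : Finite S := hfin
  have hgb : Function.Bijective g := by
    have _f1 : Fintype S := Fintype.ofFinite S
    have _f2 : Fintype E := Fintype.ofFinite E
    refine (Fintype.bijective_iff_injective_and_card g).2 ⟨hgi, ?_⟩
    rw [← Nat.card_eq_fintype_card, ← Nat.card_eq_fintype_card, cE, ← hcard]
    rfl
  have hl : ∀ α : E, ∃ y : L, y ∈ S ∧ f y = α := by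
    intro α
    obtain ⟨y, hy⟩ := hgb.2 α
    exact ⟨y, y.2, hy⟩
  choose l hlS hlf using hl
  have hlab : ∀ α, l α / w₀ - cc k L (κ α) ∈ A.nonunits := by
    intro α
    have h := hf (l α) (hlS α).1 (hlS α).2
    rwa [hlf] at h
  have hluniq : ∀ (y : L) (α : E), y ∈ S → y / w₀ - cc k L (κ α) ∈ A.nonunits → l α = y := by
    intro y α hy h
    refine hinjf _ (hlS α) _ hy ?_
    rw [hlf, huniq y α hy h]
  refine ⟨l, ?_, ?_, ?_, ?_, hlab⟩
  · intro α β h
    rw [← hlf α, h, hlf]
  · ext y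
    constructor
    · rintro ⟨α, rfl⟩
      exact hlS α
    · intro hy
      exact ⟨f y, hluniq y (f y) hy (hf y hy.1 hy.2)⟩
  · intro α β
    refine hluniq _ _ ⟨EL1_Vadd (hlS α).1 (hlS β).1, A.add_mem _ _ (hlS α).2 (hlS β).2⟩ ?_
    have e : (l α + l β) / w₀ - cc k L (κ (α + β)) =
        (l α / w₀ - cc k L (κ α)) + (l β / w₀ - cc k L (κ β)) := by
      rw [map_add, map_add, add_div]; ring
    rw [e, ValuationSubring.mem_nonunits_iff]
    exact lt_of_le_of_lt (Valuation.map_add _ _ _) (max_lt (hlab α) (hlab β))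
  · intro a α
    have _f3 : Fintype F := Fintype.ofFinite F
    have ha : ι a ^ (p ^ m) = ι a := by
      rw [← cF, Nat.card_eq_fintype_card, ← map_pow, FiniteField.pow_card]
    refine hluniq _ _ ⟨EL1_Vsmul (ι a) ha (hlS α).1, A.mul_mem _ _ (hA.1 _) (hlS α).2⟩ ?_
    have e : cc k L (ι a) * l α / w₀ - cc k L (κ (a • α)) =
        cc k L (ι a) * (l α / w₀ - cc k L (κ α)) := by
      rw [Algebra.smul_def, map_mul, map_mul, hκ, mul_sub, mul_div_assoc]
    rw [e, ValuationSubring.mem_nonunits_iff, map_mul]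
    refine lt_of_le_of_lt (mul_le_of_le_one_left' ?_) ((ValuationSubring.mem_nonunits_iff A).1 (hlab α))
    exact (A.valuation_le_one_iff _).2 (hA.1 _)

end MP7b0bad.Lin
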