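import Pool.Agent.Work.MP_7b0bad_ag.Lin.Stmts
import Pool.Agent.Work.MP_7b0bad_ag.Lin.EL1

set_option autoImplicit false

/-!
# Block Lin: [EL2] labels for all roots modulo the small ones
-/

open Polynomial Pointwise Matrix

namespace MP7b0bad.Lin

open SnT (cc xx)

theorem prf_EL2 (hVal : EVal) (hCnt : ECnt) : EL2 := by
  intro p _ k _ _ F E E' _ _ _ _ _ _ _ _ ι κ κ' m i j hD L _ _ _ A hA y₀ hy₀ hy₀A
  classical
  obtain ⟨hm, hi, hj, cF, cE, cE', hκ, hκ'⟩ := hD
  have hp : p.Prime := Fact.out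
  have hLp : CharP L p := charP_of_injective_ringHom (cc k L).injective p
  have hin : i < i + j := Nat.lt_add_of_pos_right hj
  have hq : 2 ≤ p ^ m := le_trans hp.two_le (le_self_pow hp.one_lt.le hm.ne')
  obtain ⟨hcardV, hcard⟩ := hCnt p k m i (i + j) hm hi hin L A hA
  have hQ : 2 ≤ (p ^ m) ^ i := le_trans hq (le_self_pow (by omega) hi.ne')
  have hR : 2 ≤ (p ^ m) ^ j := le_trans hq (le_self_pow (by omega) hj.ne')
  have hN : 2 ≤ (p ^ m) ^ (i + j) := le_trans hq (le_self_pow (by omega) (by omega))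
  have hQN : (p ^ m) ^ i < (p ^ m) ^ (i + j) := Nat.pow_lt_pow_right (by omega) hin
  have hy1 : 1 < A.valuation y₀ := by
    rw [← A.valuation_le_one_iff, not_le] at hy₀A
    exact hy₀A
  have hy00 : y₀ ≠ 0 := by
    rintro rfl
    exact hy₀A A.zero_mem
  have hvy0 : A.valuation y₀ ≠ 0 := (Valuation.ne_zero_iff _).2 hy00
  -- values of the big roots
  have hbg : ∀ y ∈ Vl k (p ^ m) i (i + j) L, y ∉ A →
      A.valuation y ^ ((p ^ m) ^ (i + j) - (p ^ m) ^ i) = A.valuation (xx k L) := by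
    intro y hy hyA
    have hy0 : y ≠ 0 := by
      rintro rfl
      exact hyA A.zero_mem
    rcases hVal k (p ^ m) i (i + j) hq hi hin L A hA y hy hy0 with h | h
    · exact absurd (A.nonunits_subset h.1) hyA
    · exact h.2
  have hveq : ∀ y ∈ Vl k (p ^ m) i (i + j) L, y ∉ A → A.valuation y = A.valuation y₀ := by
    intro y hy hyA
    have h3 := (hbg y hy hyA).trans (hbg y₀ hy₀ hy₀A).symm
    exact (pow_left_inj₀ zero_le zero_le (by omega)).1 h3
  have hle : ∀ y ∈ Vl k (p ^ m) i (i + j) L, A.valuation (y / y₀) ≤ 1 := by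
    intro y hy
    rw [map_div₀]
    by_cases hyA : y ∈ A
    · exact div_le_one_of_le₀ (((A.valuation_le_one_iff _).2 hyA).trans hy1.le) zero_le
    · rw [hveq y hy hyA, div_self hvy0]
  have hsmall : ∀ y : L, y ∈ A → A.valuation (y / y₀) < 1 := by
    intro y hyA
    rw [map_div₀, div_lt_one₀ (lt_trans zero_lt_one hy1)]
    exact lt_of_le_of_lt ((A.valuation_le_one_iff _).2 hyA) hy1
  -- closeness
  have hnear : ∀ y ∈ Vl k (p ^ m) i (i + j) L, ∃ β : E', y / y₀ - cc k L (κ' β) ∈ A.nonunits := by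
    intro y hy
    refine EL1_near κ' (y / y₀) ?_
    rw [cE', ValuationSubring.mem_nonunits_iff]
    have hye : y ^ ((p ^ m) ^ (i + j)) + xx k L * y ^ ((p ^ m) ^ i) + y = 0 := hy
    have hwe : y₀ ^ ((p ^ m) ^ (i + j)) + xx k L * y₀ ^ ((p ^ m) ^ i) + y₀ = 0 := hy₀
    set t : L := y / y₀ with ht
    have hyt : y = y₀ * t := by
      rw [ht]
      field_simp
    have h1 : (t ^ ((p ^ m) ^ j) - t) ^ ((p ^ m) ^ i) =
        t ^ ((p ^ m) ^ (i + j)) - t ^ ((p ^ m) ^ i) := by
      have e0 : (p ^ m) ^ i = p ^ (m * i) := (pow_mul p m i).symm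
      have e2 : t ^ ((p ^ m) ^ (i + j)) = (t ^ ((p ^ m) ^ j)) ^ ((p ^ m) ^ i) := by
        rw [add_comm i j, pow_add, pow_mul]
      rw [e2, e0]
      exact sub_pow_char_pow _ _ (m * i)
    have h2 : y₀ ^ ((p ^ m) ^ (i + j)) * (t ^ ((p ^ m) ^ (i + j)) - t ^ ((p ^ m) ^ i)) =
        y₀ * (t ^ ((p ^ m) ^ i) - t) := by
      rw [hyt, mul_pow, mul_pow] at hye
      linear_combination hye - t ^ ((p ^ m) ^ i) * hwe
    have h3 := congrArg A.valuation h2
    rw [map_mul, map_mul, map_pow] at h3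
    have h4 : A.valuation (t ^ ((p ^ m) ^ i) - t) ≤ 1 := by
      refine (Valuation.map_sub _ _ _).trans (max_le ?_ (hle y hy))
      rw [map_pow]
      exact pow_le_one₀ zero_le (hle y hy)
    have h5 : A.valuation y₀ ^ ((p ^ m) ^ (i + j)) =
        A.valuation y₀ ^ ((p ^ m) ^ (i + j) - 1) * A.valuation y₀ := by
      conv_lhs => rw [← Nat.sub_add_cancel (show 1 ≤ (p ^ m) ^ (i + j) by omega), pow_succ]
    have h6 : A.valuation y₀ ^ ((p ^ m) ^ (i + j) - 1) *
        A.valuation (t ^ ((p ^ m) ^ (i + j)) - t ^ ((p ^ m) ^ i)) ≤ 1 := by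
      rw [h5, mul_comm _ (A.valuation y₀), mul_assoc] at h3
      rw [mul_left_cancel₀ hvy0 h3]
      exact h4
    have h7 : A.valuation (t ^ ((p ^ m) ^ (i + j)) - t ^ ((p ^ m) ^ i)) < 1 := by
      by_contra hno
      rw [not_lt] at hno
      have h8 : 1 < A.valuation y₀ ^ ((p ^ m) ^ (i + j) - 1) := one_lt_pow₀ hy1 (by omega)
      have h9 : 1 < A.valuation y₀ ^ ((p ^ m) ^ (i + j) - 1) *
          A.valuation (t ^ ((p ^ m) ^ (i + j)) - t ^ ((p ^ m) ^ i)) :=
        lt_of_lt_of_le h8 (le_mul_of_one_le_right' hno)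
      exact absurd h6 (not_le.2 h9)
    by_contra hno
    rw [not_lt] at hno
    have h8 : 1 ≤ A.valuation ((t ^ ((p ^ m) ^ j) - t) ^ ((p ^ m) ^ i)) := by
      rw [map_pow]
      exact one_le_pow_of_one_le' hno _
    rw [h1] at h8
    exact absurd h7 (not_lt.2 h8)
  choose! f hf using hnear
  have huniq : ∀ y ∈ Vl k (p ^ m) i (i + j) L, ∀ β : E',
      y / y₀ - cc k L (κ' β) ∈ A.nonunits → f y = β :=
    fun y hy β h => κ'.injective (EL1_dis hA (hf y hy) h)
  have hadd : ∀ y ∈ Vl k (p ^ m) i (i + j) L, ∀ y' ∈ Vl k (p ^ m) i (i + j) L,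
      f (y + y') = f y + f y' := by
    intro y hy y' hy'
    refine huniq _ (EL1_Vadd hy hy') _ ?_
    have e : (y + y') / y₀ - cc k L (κ' (f y + f y')) =
        (y / y₀ - cc k L (κ' (f y))) + (y' / y₀ - cc k L (κ' (f y'))) := by
      rw [map_add, map_add, add_div]; ring
    rw [e, ValuationSubring.mem_nonunits_iff]
    exact lt_of_le_of_lt (Valuation.map_add _ _ _) (max_lt (hf y hy) (hf y' hy'))
  have hzero : ∀ y ∈ Vl k (p ^ m) i (i + j) L, (f y = 0 ↔ y ∈ A) := by
    intro y hy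
    constructor
    · intro h0
      have h1 := hf y hy
      rw [h0, map_zero, map_zero, sub_zero, ValuationSubring.mem_nonunits_iff] at h1
      by_contra hyA
      rw [map_div₀, hveq y hy hyA, div_self hvy0] at h1
      exact lt_irrefl _ h1
    · intro hyA
      refine huniq y hy 0 ?_
      rw [map_zero, map_zero, sub_zero, ValuationSubring.mem_nonunits_iff]
      exact hsmall y hyA
  refine ⟨f, hf, hadd, ?_, hzero, ?_⟩
  · intro a y hy
    have _f3 : Fintype F := Fintype.ofFinite F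
    have ha : ι a ^ (p ^ m) = ι a := by
      rw [← cF, Nat.card_eq_fintype_card, ← map_pow, FiniteField.pow_card]
    refine huniq _ (EL1_Vsmul (ι a) ha hy) _ ?_
    have e : cc k L (ι a) * y / y₀ - cc k L (κ' (a • f y)) =
        cc k L (ι a) * (y / y₀ - cc k L (κ' (f y))) := by
      rw [Algebra.smul_def, map_mul, map_mul, hκ', mul_sub, mul_div_assoc]
    rw [e, ValuationSubring.mem_nonunits_iff, map_mul]
    refine lt_of_le_of_lt (mul_le_of_le_one_left' ?_)
      ((ValuationSubring.mem_nonunits_iff A).1 (hf y hy))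
    exact (A.valuation_le_one_iff _).2 (hA.1 _)
  · have hfinV : (Vl k (p ^ m) i (i + j) L).Finite := by
      refine Set.finite_of_ncard_pos ?_
      rw [hcardV]
      omega
    have hfinS : {y | y ∈ Vl k (p ^ m) i (i + j) L ∧ y ∈ A}.Finite :=
      hfinV.subset fun y hy => hy.1
    have _f2 : Fintype E' := Fintype.ofFinite E'
    have c1 : hfinV.toFinset.card = (p ^ m) ^ (i + j) := by
      rw [← Set.ncard_eq_toFinset_card _ hfinV, hcardV]
    have c2 : hfinS.toFinset.card = (p ^ m) ^ i := by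
      rw [← Set.ncard_eq_toFinset_card _ hfinS, hcard]
    have hfib : ∀ b ∈ hfinV.toFinset.image f,
        (hfinV.toFinset.filter (fun y => f y = b)).card ≤ (p ^ m) ^ i := by
      intro b hb
      obtain ⟨y1, hy1V, hy1b⟩ := Finset.mem_image.1 hb
      rw [Set.Finite.mem_toFinset] at hy1V
      rw [← c2]
      refine Finset.card_le_card_of_injOn (fun y => y + -y1) ?_ ?_
      · intro y hy
        obtain ⟨hyV, hyb⟩ := Finset.mem_filter.1 hy
        rw [Set.Finite.mem_toFinset] at hyV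
        rw [Finset.mem_coe, Set.Finite.mem_toFinset]
        have h1 : y + -y1 ∈ Vl k (p ^ m) i (i + j) L := EL1_Vadd hyV (EL1_Vneg hy1V)
        refine ⟨h1, (hzero _ h1).1 ?_⟩
        have h2 := hadd (y + -y1) h1 y1 hy1V
        rw [neg_add_cancel_right, hyb, hy1b] at h2
        exact (left_eq_add.1 (h2.trans (add_comm _ _)))
      · intro y _ y' _ h
        exact add_right_cancel h
    have h1 := Finset.card_le_mul_card_image hfinV.toFinset ((p ^ m) ^ i) hfib
    rw [c1, pow_add] at h1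
    have h2 : (p ^ m) ^ j ≤ (hfinV.toFinset.image f).card :=
      Nat.le_of_mul_le_mul_left h1 (by omega)
    have h3 : hfinV.toFinset.image f = Finset.univ := by
      refine Finset.eq_univ_of_card _ (le_antisymm (Finset.card_le_univ _) ?_)
      rw [← Nat.card_eq_fintype_card, cE']
      exact h2
    intro β
    have h4 : β ∈ hfinV.toFinset.image f := by
      rw [h3]
      exact Finset.mem_univ β
    obtain ⟨y, hy, hyb⟩ := Finset.mem_image.1 h4
    rw [Set.Finite.mem_toFinset] at hy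
    exact ⟨y, hy, hyb⟩

end MP7b0bad.Lin
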