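import Pool.Agent.Work.MP_7b0bad_ag.Lin.Stmts

set_option autoImplicit false

/-!
# Item EOrb: the decomposition group is transitive on the small roots and on the big roots
-/

open Polynomial Pointwise Matrix

namespace MP7b0bad.Lin

open SnT (cc xx)

theorem EOrb_Vl {k : Type} [Field k] {L : Type} [Field L] [Algebra (RatFunc k) L] {q i n : ℕ}
    (σ : L ≃ₐ[RatFunc k] L) {y : L} (hy : y ∈ Vl k q i n L) : σ y ∈ Vl k q i n L := by
  have h : y ^ (q ^ n) + xx k L * y ^ (q ^ i) + y = 0 := hy
  have hx : σ (xx k L) = xx k L := σ.commutes _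
  have h1 := congrArg σ h
  rw [map_add, map_add, map_mul, map_pow, map_pow, hx, map_zero] at h1
  exact h1

theorem EOrb_mem {k : Type} [Field k] {L : Type} [Field L] [Algebra (RatFunc k) L]
    (A : ValuationSubring L) (σ : L ≃ₐ[RatFunc k] L) (hσ : σ • A = A) (z : L) :
    σ z ∈ A ↔ z ∈ A := by
  constructor
  · intro h
    rw [← hσ] at h
    obtain ⟨z1, hz1, hz2⟩ := h
    have h1 : z1 = z := σ.injective hz2
    rw [← h1]
    exact hz1
  · intro h
    rw [← hσ]
    exact ⟨z, h, rfl⟩

theorem prf_EOrb (hVal : EVal) : EOrb := by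
  intro p hp k _ _ _ F E E' _ _ _ _ _ _ _ _ ι κ κ' m i j hD L _ _ _ _ A hA e hC
  classical
  have _fE : Fintype E := Fintype.ofFinite E
  have _fE' : Fintype E' := Fintype.ofFinite E'
  have hi := hD.hi
  have hj := hD.hj
  have hp2 : 2 ≤ p := hp.out.two_le
  have hq : 2 ≤ p ^ m := le_trans hp2 (Nat.le_self_pow hD.hm.ne' p)
  set q := p ^ m with hqdef
  have hqi : 2 ≤ q ^ i := le_trans hq (Nat.le_self_pow hi.ne' q)
  have hqj : 2 ≤ q ^ j := le_trans hq (Nat.le_self_pow hj.ne' q)
  have hcE : Fintype.card E = q ^ i := by rw [← Nat.card_eq_fintype_card]; exact hD.cE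
  have hcE' : Fintype.card E' = q ^ j := by rw [← Nat.card_eq_fintype_card]; exact hD.cE'
  have he0 : e 0 = 0 := by
    have h := hC.add 0 0
    rw [add_zero] at h
    exact left_eq_add.mp h
  have hV : ∀ z, e z ∈ Vl k q i (i + j) L := fun z => hC.range ▸ Set.mem_range_self z
  have hne : ∀ z, z ≠ 0 → e z ≠ 0 := fun z hz h => hz (hC.inj (h.trans he0.symm))
  have hsmA : ∀ x, e (x, 0) ∈ A := fun x => A.nonunits_subset (hC.small x)
  have hsmall : ∀ z : E × E', e z ∈ A → z.2 = 0 := by
    intro z hz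
    by_contra h
    exact hC.big z.1 z.2 h hz
  have hval := hVal k q i (i + j) hq hi (by omega) L A hA
  constructor
  · intro α α' hα hα'
    refine AnT.AOrb_gen A hA ((fun x : E => e (x, 0)) '' ((({0}ᶜ : Finset E)) : Set E))
      (Set.toFinite _) (q ^ i - 1) (by omega) ?_ (-1) (Or.inr rfl) ?_ ?_ _
      ⟨α, by simpa using hα, rfl⟩ _ ⟨α', by simpa using hα', rfl⟩
    · rw [Set.ncard_image_of_injective, Set.ncard_coe_finset, Finset.card_compl,
        Finset.card_singleton, hcE]
      intro a b hab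
      exact congrArg Prod.fst (hC.inj hab)
    · rintro _ ⟨x, hx, rfl⟩
      have hx0 : x ≠ 0 := by simpa using hx
      have hx1 : e (x, 0) ≠ 0 := hne _ (fun h => hx0 (congrArg Prod.fst h))
      rcases hval _ (hV (x, 0)) hx1 with h | h
      · rw [_root_.zpow_neg, zpow_one]
        exact eq_inv_of_mul_eq_one_left h.2
      · exact absurd (hsmA x) h.1
    · rintro σ hσ _ ⟨x, hx, rfl⟩
      have hx0 : x ≠ 0 := by simpa using hx
      have hx1 : e (x, 0) ≠ 0 := hne _ (fun h => hx0 (congrArg Prod.fst h))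
      have h1 : σ (e (x, 0)) ∈ Vl k q i (i + j) L := EOrb_Vl σ (hV (x, 0))
      rw [← hC.range] at h1
      obtain ⟨z, hz⟩ := h1
      have h2 : e z ∈ A := by
        rw [hz]
        exact (EOrb_mem A σ hσ _).2 (hsmA x)
      have h3 := hsmall z h2
      have h4 : z = (z.1, 0) := Prod.ext rfl h3
      refine ⟨z.1, ?_, ?_⟩
      · have : z.1 ≠ 0 := by
          intro h5
          have h6 : z = 0 := by rw [h4, h5]; rfl
          rw [h6, he0] at hz
          exact hx1 ((map_eq_zero_iff σ σ.injective).1 hz.symm)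
        simpa using this
      · change e (z.1, 0) = σ (e (x, 0))
        rw [← hz, ← h4]
  · intro α β α' β' hβ hβ'
    have hpow : q ^ (i + j) - q ^ i = q ^ i * (q ^ j - 1) := by
      rw [pow_add, Nat.mul_sub, mul_one]
    refine AnT.AOrb_gen A hA
      (e '' (((Finset.univ : Finset E) ×ˢ ({0}ᶜ : Finset E') : Finset (E × E')) : Set (E × E')))
      (Set.toFinite _) (q ^ (i + j) - q ^ i) ?_ ?_ 1 (Or.inl rfl) ?_ ?_ _
      ⟨(α, β), by simpa using hβ, rfl⟩ _ ⟨(α', β'), by simpa using hβ', rfl⟩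
    · rw [hpow]
      exact Nat.mul_pos (by omega) (by omega)
    · rw [Set.ncard_image_of_injective _ hC.inj, Set.ncard_coe_finset, Finset.card_product,
        Finset.card_univ, Finset.card_compl, Finset.card_singleton, hcE, hcE', hpow]
    · rintro _ ⟨z, hz, rfl⟩
      have hz0 : z.2 ≠ 0 := by simpa using hz
      have hz1 : e z ≠ 0 := hne _ (fun h => hz0 (congrArg Prod.snd h))
      rw [zpow_one]
      rcases hval _ (hV z) hz1 with h | h
      · exact absurd (A.nonunits_subset h.1) (hC.big z.1 z.2 hz0)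
      · exact h.2
    · rintro σ hσ _ ⟨z, hz, rfl⟩
      have hz0 : z.2 ≠ 0 := by simpa using hz
      have h1 : σ (e z) ∈ Vl k q i (i + j) L := EOrb_Vl σ (hV z)
      rw [← hC.range] at h1
      obtain ⟨w, hw⟩ := h1
      refine ⟨w, ?_, hw⟩
      have : w.2 ≠ 0 := by
        intro h5
        have h6 : w = (w.1, 0) := Prod.ext rfl h5
        have h7 : σ (e z) ∈ A := by
          rw [← hw, h6]
          exact hsmA _
        exact hC.big z.1 z.2 hz0 ((EOrb_mem A σ hσ _).1 h7)
      simpa using this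

end MP7b0bad.Lin
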