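import Pool.Agent.Work.MP_7b0bad_ag.Lin.Stmts

set_option autoImplicit false

/-!
# Block Lin, item ERel: the relation between the two characters
-/

open Polynomial Pointwise

namespace MP7b0bad.Lin

open SnT (cc xx)

section

variable {k : Type} [Field k] {L : Type} [Field L] [Algebra (RatFunc k) L]
  {A : ValuationSubring L}

theorem ERel_cc (hA : AtInfty (k := k) A) (c : k) : A.valuation (cc k L c) ≤ 1 :=
  (A.valuation_le_one_iff _).2 (hA.1 c)

theorem ERel_le (hA : AtInfty (k := k) A) {z : L} {c : k}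
    (h : A.valuation (z - cc k L c) < 1) : A.valuation z ≤ 1 := by
  have e : z = (z - cc k L c) + cc k L c := by ring
  rw [e]
  exact A.valuation.map_add_le h.le (ERel_cc hA c)

theorem ERel_mul (hA : AtInfty (k := k) A) {z z' : L} {c c' : k}
    (h : A.valuation (z - cc k L c) < 1) (h' : A.valuation (z' - cc k L c') < 1) :
    A.valuation (z * z' - cc k L (c * c')) < 1 := by
  have e : z * z' - cc k L (c * c') = (z - cc k L c) * z' + cc k L c * (z' - cc k L c') := by
    rw [map_mul]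
    ring
  rw [e]
  refine A.valuation.map_add_lt ?_ ?_
  · rw [map_mul]
    exact lt_of_le_of_lt (mul_le_of_le_one_right' (ERel_le hA h')) h
  · rw [map_mul]
    exact lt_of_le_of_lt (mul_le_of_le_one_left' (ERel_cc hA c)) h'

theorem ERel_pow (hA : AtInfty (k := k) A) {z : L} {c : k}
    (h : A.valuation (z - cc k L c) < 1) (n : ℕ) :
    A.valuation (z ^ n - cc k L (c ^ n)) < 1 := by
  induction n with
  | zero =>
    rw [pow_zero, pow_zero, map_one, sub_self, map_zero]
    exact zero_lt_one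
  | succ n ih =>
    rw [pow_succ, pow_succ]
    exact ERel_mul hA ih h

theorem ERel_uniq (hA : AtInfty (k := k) A) {z : L} {c d : k}
    (h1 : A.valuation (z - cc k L c) < 1) (h2 : A.valuation (z - cc k L d) < 1) : c = d := by
  by_contra hne
  have h3 : A.valuation (cc k L (d - c)) = 1 := F3_C hA (d - c) (sub_ne_zero.2 (Ne.symm hne))
  have h4 : cc k L (d - c) = (z - cc k L c) - (z - cc k L d) := by
    rw [map_sub]
    ring
  rw [h4] at h3
  have h5 := A.valuation.map_sub_lt h1 h2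
  rw [h3] at h5
  exact lt_irrefl _ h5

theorem ERel_ms (t : L) (s : Multiset k) :
    A.valuation (s.map fun c => t - cc k L c).prod < 1 →
      ∃ c : k, A.valuation (t - cc k L c) < 1 := by
  induction s using Multiset.induction with
  | empty =>
    intro h
    rw [Multiset.map_zero, Multiset.prod_zero, map_one] at h
    exact absurd h (lt_irrefl _)
  | cons c s ih =>
    intro h
    rw [Multiset.map_cons, Multiset.prod_cons, map_mul] at h
    by_cases h1 : A.valuation (t - cc k L c) < 1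
    · exact ⟨c, h1⟩
    · refine ih (lt_of_le_of_lt (le_mul_of_one_le_left' (not_lt.1 h1)) h)

theorem ERel_res [IsAlgClosed k] (t : L) (g : ℕ) (hg : 0 < g)
    (h : A.valuation (t ^ g - 1) < 1) : ∃ c : k, A.valuation (t - cc k L c) < 1 := by
  have hm : (X ^ g - 1 : k[X]).Monic := by
    have := monic_X_pow_sub_C (1 : k) hg.ne'
    rwa [C_1] at this
  have h1 := (IsAlgClosed.splits (X ^ g - 1 : k[X])).eq_prod_roots_of_monic hm
  have h2 := congrArg (eval₂ (cc k L) t) h1
  rw [eval₂_sub, eval₂_pow, eval₂_X, eval₂_one, eval₂_multiset_prod, Multiset.map_map] at h2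
  have h3 : ((X ^ g - 1 : k[X]).roots.map (eval₂ (cc k L) t ∘ fun a => X - C a)) =
      (X ^ g - 1 : k[X]).roots.map fun c => t - cc k L c := by
    refine Multiset.map_congr rfl fun c _ => ?_
    rw [Function.comp_apply, eval₂_sub, eval₂_X, eval₂_C]
  rw [h3] at h2
  rw [h2] at h
  exact ERel_ms t _ h

theorem ERel_eq {q i n : ℕ} (hq : 2 ≤ q) (hi : 0 < i) (hn : 0 < n) {y : L}
    (hy : y ∈ Vl k q i n L) (h0 : y ≠ 0) :
    y ^ (q ^ n - 1) + xx k L * y ^ (q ^ i - 1) + 1 = 0 := by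
  have h := ((mem_Vl hq hi hn y).1 hy).resolve_left h0
  have h1 := (mem_rootSet.1 h).2
  rwa [aeval_FL] at h1

end

theorem prf_ERel (hVal : EVal) : ERel := by
  intro p _ k _ _ _ F E E' _ _ _ _ _ _ _ _ ι κ κ' m i j hD L _ _ A hA e w₀ y₀ hC hw0 hy0 hlw hly
    σ hσA a b hσ1 hσ2
  have hp : p.Prime := Fact.out
  set q : ℕ := p ^ m with hq
  have hq2 : 2 ≤ q := hp.two_le.trans (Nat.le_self_pow hD.hm.ne' p)
  have hqi : 2 ≤ q ^ i := hq2.trans (Nat.le_self_pow hD.hi.ne' q)
  have hqj : 2 ≤ q ^ j := hq2.trans (Nat.le_self_pow hD.hj.ne' q)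
  set g : ℕ := Nat.gcd (q ^ i - 1) (q ^ j - 1) with hg
  have hgi : g ∣ q ^ i - 1 := Nat.gcd_dvd_left _ _
  have hgj : g ∣ q ^ j - 1 := Nat.gcd_dvd_right _ _
  have hg0 : 0 < g := Nat.gcd_pos_of_pos_left _ (by omega)
  have he0 : e 0 = 0 := by
    have h := hC.add 0 0
    rw [add_zero] at h
    exact left_eq_add.1 h
  have hw1 : w₀ ≠ 0 := by
    rw [hw0, ← he0]
    intro h
    have := hC.inj h
    exact one_ne_zero (congrArg Prod.fst this)
  obtain ⟨α₀, hα₀⟩ := hy0
  have hyA : y₀ ∉ A := hα₀ ▸ hC.big α₀ 1 one_ne_zero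
  have hy1 : y₀ ≠ 0 := fun h => hyA (h ▸ A.zero_mem)
  have hwV : w₀ ∈ Vl k q i (i + j) L := by
    rw [← hC.range, hw0]
    exact ⟨_, rfl⟩
  have hyV : y₀ ∈ Vl k q i (i + j) L := by
    rw [← hC.range, hα₀]
    exact ⟨_, rfl⟩
  have hwm : w₀ ∈ A.nonunits := hw0 ▸ hC.small 1
  have hij : i < i + j := by
    have := hD.hj
    omega
  have hVw : A.valuation w₀ ^ (q ^ i - 1) * A.valuation (xx k L) = 1 := by
    rcases hVal k q i (i + j) hq2 hD.hi hij L A hA w₀ hwV hw1 with h | h
    · exact h.2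
    · exfalso
      apply h.1
      rw [← A.valuation_le_one_iff]
      exact ((A.mem_nonunits_iff).1 hwm).le
  have hVy : A.valuation y₀ ^ (q ^ (i + j) - q ^ i) = A.valuation (xx k L) := by
    rcases hVal k q i (i + j) hq2 hD.hi hij L A hA y₀ hyV hy1 with h | h
    · exfalso
      apply hyA
      rw [← A.valuation_le_one_iff]
      exact ((A.mem_nonunits_iff).1 h.1).le
    · exact h.2
  -- the unit
  set u : ℕ := (q ^ i - 1) / g with hu
  set v : ℕ := (q ^ j - 1) / g with hv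
  have hug : u * g = q ^ i - 1 := Nat.div_mul_cancel hgi
  have hvg : v * g = q ^ j - 1 := Nat.div_mul_cancel hgj
  have hexp : q ^ i * v * g = q ^ (i + j) - q ^ i := by
    rw [mul_assoc, hvg, Nat.mul_sub, mul_one, pow_add]
  set t : L := w₀ ^ u * y₀ ^ (q ^ i * v) with ht
  have ht0 : t ≠ 0 := mul_ne_zero (pow_ne_zero _ hw1) (pow_ne_zero _ hy1)
  have ht1 : A.valuation t = 1 := by
    have h : A.valuation t ^ g = 1 := by
      rw [ht, map_mul, map_pow, map_pow, mul_pow, ← pow_mul, ← pow_mul, hug, hexp, hVy, hVw]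
    exact (pow_eq_one_iff_left hg0.ne').1 h
  have hx : 1 < A.valuation (xx k L) := F3_X hA
  have hx0 : xx k L ≠ 0 := (Valuation.ne_zero_iff _).1 (zero_lt_one.trans hx).ne'
  have hyv : 1 < A.valuation y₀ := by
    rw [← A.valuation_le_one_iff, not_le] at hyA
    exact hyA
  have hX1 : A.valuation (xx k L * w₀ ^ (q ^ i - 1) + 1) < 1 := by
    have h := ERel_eq hq2 hD.hi (by omega : 0 < i + j) hwV hw1
    have e1 : xx k L * w₀ ^ (q ^ i - 1) + 1 = -w₀ ^ (q ^ (i + j) - 1) := by
      linear_combination h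
    rw [e1, Valuation.map_neg, map_pow]
    refine pow_lt_one₀ zero_le ((A.mem_nonunits_iff).1 hwm) ?_
    have := hq2.trans (Nat.le_self_pow (by omega : i + j ≠ 0) q)
    omega
  have hnn : q ^ (i + j) - 1 = (q ^ (i + j) - q ^ i) + (q ^ i - 1) := by
    have : q ^ i ≤ q ^ (i + j) := Nat.pow_le_pow_right (by omega) (by omega)
    omega
  have hY1 : A.valuation (y₀ ^ (q ^ (i + j) - q ^ i) / xx k L + 1) < 1 := by
    have h := ERel_eq hq2 hD.hi (by omega : 0 < i + j) hyV hy1
    rw [hnn, pow_add] at h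
    have hyp : y₀ ^ (q ^ i - 1) ≠ 0 := pow_ne_zero _ hy1
    have e1 : y₀ ^ (q ^ (i + j) - q ^ i) / xx k L + 1 = -(xx k L * y₀ ^ (q ^ i - 1))⁻¹ := by
      field_simp
      linear_combination h
    rw [e1, Valuation.map_neg, map_inv₀, map_mul, map_pow]
    refine inv_lt_one_of_one_lt₀ ?_
    exact lt_of_lt_of_le hx (le_mul_of_one_le_right' (one_le_pow₀ hyv.le))
  have hY2 : A.valuation (y₀ ^ (q ^ (i + j) - q ^ i) / xx k L) = 1 := by
    rw [map_div₀, map_pow, hVy, div_self (zero_lt_one.trans hx).ne']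
  have htg : A.valuation (t ^ g - 1) < 1 := by
    have e1 : t ^ g - 1 = (xx k L * w₀ ^ (q ^ i - 1) + 1) *
        (y₀ ^ (q ^ (i + j) - q ^ i) / xx k L) - (y₀ ^ (q ^ (i + j) - q ^ i) / xx k L + 1) := by
      rw [ht, mul_pow, ← pow_mul, ← pow_mul, hug, hexp]
      field_simp
      ring
    rw [e1]
    refine A.valuation.map_sub_lt ?_ hY1
    rw [map_mul, hY2, mul_one]
    exact hX1
  obtain ⟨c, hc'⟩ := ERel_res (k := k) t g hg0 htg
  have hσc : σ (cc k L c) = cc k L c := AlgEquiv.commutes _ _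
  have h1 : A.valuation (σ t - cc k L c) < 1 := by
    have := F8_dec A σ hσA _ hc'
    rwa [map_sub, hσc] at this
  have h2 : A.valuation (σ t / t - cc k L 1) < 1 := by
    have e1 : σ t / t - cc k L 1 = ((σ t - cc k L c) - (t - cc k L c)) / t := by
      rw [map_one]
      field_simp
      ring
    rw [e1, map_div₀, ht1, div_one]
    exact A.valuation.map_sub_lt h1 hc'
  -- the residues
  have h3 : A.valuation (σ w₀ / w₀ - cc k L (κ a)) < 1 := by
    have h := hσ1 1
    rw [← hw0, mul_one] at h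
    rw [h]
    exact (A.mem_nonunits_iff).1 (hlw a)
  have h4 : A.valuation (σ y₀ / y₀ - cc k L (κ' b)) < 1 := by
    obtain ⟨γ, h⟩ := hσ2 α₀ 1
    rw [← hα₀, mul_one] at h
    rw [h]
    exact (A.mem_nonunits_iff).1 (hly γ b)
  have h5 : σ t / t = (σ w₀ / w₀) ^ u * (σ y₀ / y₀) ^ (q ^ i * v) := by
    rw [ht, map_mul, map_pow, map_pow, div_pow, div_pow]
    field_simp
  have h6 : A.valuation (σ t / t - cc k L (κ a ^ u * κ' b ^ (q ^ i * v))) < 1 := by
    rw [h5]
    exact ERel_mul hA (ERel_pow hA h3 u) (ERel_pow hA h4 (q ^ i * v))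
  have h7 : κ a ^ u * κ' b ^ (q ^ i * v) = 1 := ERel_uniq hA h6 h2
  -- the Frobenius
  have h8 : (κ' b ^ v) ^ (q ^ i) = κ' b ^ v := by
    have hb : (b : E') ^ (q ^ j - 1) = 1 := by
      have := Fintype.ofFinite E'
      have h := FiniteField.pow_card_sub_one_eq_one (b : E') b.ne_zero
      rwa [← Nat.card_eq_fintype_card, hD.cE'] at h
    have h9 : (κ' b ^ v) ^ g = 1 := by
      rw [← pow_mul, hvg, ← map_pow, hb, map_one]
    have h10 : (κ' b ^ v) ^ (q ^ i - 1) = 1 := by
      obtain ⟨r, hr⟩ := hgi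
      rw [hr, pow_mul, h9, one_pow]
    calc (κ' b ^ v) ^ (q ^ i) = (κ' b ^ v) ^ (q ^ i - 1) * κ' b ^ v := by
          rw [← pow_succ, Nat.sub_add_cancel (by omega)]
      _ = κ' b ^ v := by rw [h10, one_mul]
  have h11 : κ' b ^ (q ^ i * v) = κ' b ^ v := by
    rw [mul_comm, pow_mul, h8]
  rw [h11] at h7
  exact h7

end MP7b0bad.Lin
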