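import Pool.Agent.Work.MP_7b0bad_ag.Lin.Stmts
import Pool.Agent.Work.MP_7b0bad_ag.Ad.AMain

set_option autoImplicit false

/-!
# Block Lin, item ESeed: the seeds
-/

open Polynomial Pointwise Matrix

namespace MP7b0bad.Lin

open SnT (cc xx)

section
variable {k F E E' : Type} [Field k] [Field F] [Field E] [Field E'] [Algebra F E] [Algebra F E']
  {ι : F →+* k} {L : Type} [Field L] [Algebra (RatFunc k) L]

theorem ESeed_Vl {q i n : ℕ} (σ : L ≃ₐ[RatFunc k] L) {y : L} (hy : y ∈ Vl k q i n L) :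
    σ y ∈ Vl k q i n L := by
  have h : y ^ (q ^ n) + xx k L * y ^ (q ^ i) + y = 0 := hy
  have h1 := congrArg σ h
  have h2 : σ (xx k L) = xx k L := σ.commutes _
  rw [map_add, map_add, map_mul, map_pow, map_pow, h2, map_zero] at h1
  exact h1

/-- the representation on the coordinates -/
theorem ESeed_rep {q i n : ℕ} {A : ValuationSubring L} {e : E × E' → L}
    (hC : Cd ι q i n A e) : ∃ ρ : (L ≃ₐ[RatFunc k] L) →* ((E × E') ≃ₗ[F] (E × E')),
      ∀ σ z, e (ρ σ z) = σ (e z) := by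
  have hex : ∀ (σ : L ≃ₐ[RatFunc k] L) (z : E × E'), ∃ z', e z' = σ (e z) := by
    intro σ z
    have h1 : e z ∈ Vl k q i n L := by
      rw [← hC.range]
      exact ⟨z, rfl⟩
    have h2 := ESeed_Vl σ h1
    rw [← hC.range] at h2
    exact h2
  choose r hr using hex
  have hcc : ∀ (σ : L ≃ₐ[RatFunc k] L) (c : k), σ (cc k L c) = cc k L c := fun σ c =>
    σ.commutes _
  let R : (L ≃ₐ[RatFunc k] L) → ((E × E') ≃ₗ[F] (E × E')) := fun σ =>
    { toFun := r σ
      map_add' := fun z z' => hC.inj (by rw [hr, hC.add, hC.add, map_add, hr, hr])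
      map_smul' := fun a z => hC.inj (by
        rw [hr, hC.smul, RingHom.id_apply, hC.smul, map_mul, hr, hcc])
      invFun := r σ⁻¹
      left_inv := fun z => hC.inj (by
        rw [hr, hr]
        exact σ.symm_apply_apply _)
      right_inv := fun z => hC.inj (by
        rw [hr, hr]
        exact σ.apply_symm_apply _) }
  have hR : ∀ σ z, e (R σ z) = σ (e z) := fun σ z => hr σ z
  refine ⟨MonoidHom.mk' R ?_, hR⟩
  intro σ τ
  apply LinearEquiv.ext
  intro z
  apply hC.inj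
  rw [hR]
  change σ (τ (e z)) = e (R σ (R τ z))
  rw [hR, hR]

theorem ESeed_inj {q i n : ℕ} (hq : 2 ≤ q) (hi : 0 < i) (hn : 0 < n)
    [IsSplittingField (RatFunc k) L (FL k q i n)] {A : ValuationSubring L} {e : E × E' → L}
    (hC : Cd ι q i n A e) (ρ : (L ≃ₐ[RatFunc k] L) →* ((E × E') ≃ₗ[F] (E × E')))
    (hρ : ∀ σ z, e (ρ σ z) = σ (e z)) : Function.Injective ρ := by
  rw [injective_iff_map_eq_one]
  intro σ hσ
  have h2 : ∀ y ∈ (FL k q i n).rootSet L, σ y = y := by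
    intro y hy
    have h3 : y ∈ Vl k q i n L := (mem_Vl hq hi hn y).2 (Or.inr hy)
    rw [← hC.range] at h3
    obtain ⟨z, rfl⟩ := h3
    rw [← hρ, hσ]
    rfl
  have h3 : (σ : L →ₐ[RatFunc k] L) = AlgHom.id (RatFunc k) L := by
    refine AlgHom.ext_of_adjoin_eq_top (IsSplittingField.adjoin_rootSet L (FL k q i n))
      fun y hy => ?_
    exact h2 y hy
  ext x
  exact DFunLike.congr_fun h3 x

end

/-- the data -/
theorem ESeed_Dt (k : Type) [Field k] [IsAlgClosed k] (p : ℕ) [Fact p.Prime] [CharP k p]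
    (F E E' : Type) [Field F] [Field E] [Field E'] [Finite F] [Finite E] [Finite E'] [CharP F p]
    [Algebra F E] [Algebra F E'] : ∃ (ι : F →+* k) (κ : E →+* k) (κ' : E' →+* k) (m i j : ℕ),
      Dt p ι κ κ' m i j := by
  obtain ⟨ι⟩ := Ad.AMain_emb p k F
  obtain ⟨m, hm, hq⟩ := Ad.AMain_card p F
  letI : Algebra F k := ι.toAlgebra
  have f1 : Module.Finite F E := Module.Finite.of_finite
  have f2 : Module.Finite F E' := Module.Finite.of_finite
  have a1 : Algebra.IsAlgebraic F E := Algebra.IsAlgebraic.of_finite F E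
  have a2 : Algebra.IsAlgebraic F E' := Algebra.IsAlgebraic.of_finite F E'
  let κ : E →ₐ[F] k := IsAlgClosed.lift
  let κ' : E' →ₐ[F] k := IsAlgClosed.lift
  refine ⟨ι, κ.toRingHom, κ'.toRingHom, m, Module.finrank F E, Module.finrank F E', ?_⟩
  exact
    { hm := hm
      hi := Module.finrank_pos
      hj := Module.finrank_pos
      cF := hq
      cE := by rw [← hq]; exact Module.natCard_eq_pow_finrank
      cE' := by rw [← hq]; exact Module.natCard_eq_pow_finrank
      hκ := fun a => κ.commutes a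
      hκ' := fun a => κ'.commutes a }

/-- a cover with its coordinates gives a realisation in the image -/
theorem ESeed_rz (k : Type) [Field k] [IsAlgClosed k] (V : Type) [Group V] (L : Type)
    [Field L] [Algebra (RatFunc k) L] [FiniteDimensional (RatFunc k) L] [IsGalois (RatFunc k) L]
    (A : ValuationSubring L) (hA : AtInfty (k := k) A)
    (hU : ∀ A' : ValuationSubring L, (∀ c : k, cc k L c ∈ A') → xx k L ∈ A' →
      ValuationSubring.inertiaSubgroup (RatFunc k) A' = ⊥)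
    (ρ : (L ≃ₐ[RatFunc k] L) →* V) (hinj : Function.Injective ρ) (P : Subgroup V) (c : V)
    (hD : P ⊔ Subgroup.zpowers c = (A.decompositionSubgroup (RatFunc k)).map ρ) :
    MT.Rz k P c ρ.range := by
  refine ⟨by rw [hD]; exact Subgroup.map_le_range ρ _, ?_⟩
  have hfin : Finite ρ.range := Finite.of_equiv _ (MonoidHom.ofInjective hinj).toEquiv
  refine (MP7b0bad.all_T0 k ρ.range _).2 ?_
  refine ⟨L, inferInstance, inferInstance, inferInstance, inferInstance,
    (MonoidHom.ofInjective hinj).symm, ?_, A, hA.1, hA.2, ?_⟩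
  · exact hU
  · rw [SnT.prf_SIner k L A hA, hD]
    ext σ
    rw [Subgroup.mem_map]
    constructor
    · intro hσ
      refine ⟨⟨ρ σ, ⟨σ, rfl⟩⟩, ?_, ?_⟩
      · rw [Subgroup.mem_subgroupOf]
        exact ⟨σ, hσ, rfl⟩
      · exact (MonoidHom.ofInjective hinj).symm_apply_apply σ
    · rintro ⟨⟨_, τ', rfl⟩, hτ, h⟩
      rw [Subgroup.mem_subgroupOf] at hτ
      obtain ⟨τ, hτD, hτ'⟩ := hτ
      have h0 : τ = τ' := hinj hτ'
      have h1 : τ' = σ := by
        rw [← h]
        exact ((MonoidHom.ofInjective hinj).symm_apply_apply τ').symm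
      rw [← h1, ← h0]
      exact hτD

theorem prf_ESeed (hSep : ESep) (hUnr : EUnr) (hBas : EBas) (hAct : EAct) (hRel : ERel)
    (hOrb : EOrb) (hGrp : EGrp) (hSpl : ESpl) (hUni : CUni) : ESeed := by
  intro k _ _ p hp _ F E E' _ _ _ _ _ _ _ _ _
  obtain ⟨ι, κ, κ', m, i, j, hDt⟩ := ESeed_Dt k p F E E'
  have hm := hDt.hm
  have hi := hDt.hi
  have hj := hDt.hj
  have hp2 := hp.out.two_le
  have hq2 : 2 ≤ p ^ m := le_trans hp2 (le_self_pow (by omega) hm.ne')
  have hqk : ((p ^ m : ℕ) : k) = 0 := by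
    rw [Nat.cast_pow, CharP.cast_eq_zero, zero_pow hm.ne']
  have hin : i < i + j := by omega
  obtain ⟨hmon, hdeg, hsep⟩ := hSep k (p ^ m) i (i + j) hq2 hi hin hqk
  obtain ⟨L, iL, aL, sL, fL, gL⟩ : ∃ (L : Type) (_ : Field L) (_ : Algebra (RatFunc k) L),
      IsSplittingField (RatFunc k) L (FL k (p ^ m) i (i + j)) ∧
      FiniteDimensional (RatFunc k) L ∧ IsGalois (RatFunc k) L := by
    refine ⟨(FL k (p ^ m) i (i + j)).SplittingField, inferInstance, inferInstance, inferInstance,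
      ?_, ?_⟩
    · exact Polynomial.IsSplittingField.finiteDimensional _ (FL k (p ^ m) i (i + j))
    · exact IsGalois.of_separable_splitting_field hsep
  obtain ⟨A, hA⟩ := prf_F4 k L
  obtain ⟨e, w₀, y₀, hC, hw, hy, hl, hl'⟩ := hBas p k F E E' ι κ κ' m i j hDt L A hA
  obtain ⟨ρ, hρ⟩ := ESeed_rep hC
  have hinj := ESeed_inj hq2 hi (by omega) hC ρ hρ
  -- the decomposition group
  set D := A.decompositionSubgroup (RatFunc k) with hDdef
  have hact : ∀ g : D, ∃ (a : Eˣ) (b : E'ˣ), (∀ α, (g : L ≃ₐ[RatFunc k] L) (e (α, 0)) =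
      e (a * α, 0)) ∧ ∀ α β, ∃ γ, (g : L ≃ₐ[RatFunc k] L) (e (α, β)) = e (γ, b * β) :=
    fun g => hAct p k F E E' ι κ κ' m i j hDt L A hA e w₀ y₀ hC hw hy hl hl' g g.2
  choose a b hab using hact
  have ha1 : ∀ (g : D) (z : E), (g : L ≃ₐ[RatFunc k] L) (e (1, 0)) = e (z, 0) → (a g : E) = z := by
    intro g z hz
    have h1 := (hab g).1 1
    rw [hz, mul_one] at h1
    exact (congrArg Prod.fst (hC.inj h1)).symm
  have hb1 : ∀ (g : D) (α α' : E) (z : E'), (g : L ≃ₐ[RatFunc k] L) (e (α, 1)) = e (α', z) →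
      (b g : E') = z := by
    intro g α α' z hz
    obtain ⟨γ, h1⟩ := (hab g).2 α 1
    rw [hz, mul_one] at h1
    exact (congrArg Prod.snd (hC.inj h1)).symm
  have hamul : ∀ g h : D, a (g * h) = a g * a h := by
    intro g h
    apply Units.ext
    rw [Units.val_mul]
    apply ha1
    change (g : L ≃ₐ[RatFunc k] L) ((h : L ≃ₐ[RatFunc k] L) (e (1, 0))) = _
    rw [(hab h).1, (hab g).1, mul_one]
  have hbmul : ∀ g h : D, b (g * h) = b g * b h := by
    intro g h
    apply Units.ext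
    rw [Units.val_mul]
    obtain ⟨γ, h1⟩ := (hab h).2 0 1
    obtain ⟨γ', h2⟩ := (hab g).2 γ (b h * 1)
    apply hb1 _ 0 γ'
    change (g : L ≃ₐ[RatFunc k] L) ((h : L ≃ₐ[RatFunc k] L) (e (0, 1))) = _
    rw [h1, h2, mul_one]
  let aH : D →* Eˣ := MonoidHom.mk' a hamul
  let bH : D →* E'ˣ := MonoidHom.mk' b hbmul
  let θ : D →* kˣ := (Units.map (κ : E →* k)).comp aH
  let θ' : D →* kˣ := (Units.map (κ' : E' →* k)).comp bH
  have hθ : ∀ g, θ g = Units.map (κ : E →* k) (a g) := fun g => rfl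
  have hθ' : ∀ g, θ' g = Units.map (κ' : E' →* k) (b g) := fun g => rfl
  have hκi : Function.Injective (Units.map (κ : E →* k)) := Units.map_injective κ.injective
  have hκi' : Function.Injective (Units.map (κ' : E' →* k)) := Units.map_injective κ'.injective
  -- the form of the elements
  have hform1 : ∀ (g : D) (x : E), ρ g (x, 0) = (a g * x, 0) := by
    intro g x
    apply hC.inj
    rw [hρ]
    exact (hab g).1 x
  have hform2 : ∀ (g : D) (x : E) (y : E'), (ρ g (x, y)).2 = b g * y := by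
    intro g x y
    obtain ⟨γ, h1⟩ := (hab g).2 x y
    rw [← hρ] at h1
    rw [hC.inj h1]
  have hU0 : ∀ g : D, a g = 1 → b g = 1 →
      ρ g ∈ Uni (Submodule.prod ⊤ ⊥ : Submodule F (E × E')) := by
    intro g hg hg'
    refine ⟨?_, ?_⟩
    · rintro ⟨x, y⟩
      refine ⟨trivial, ?_⟩
      change (ρ g (x, y)).2 - y = 0
      rw [hform2, hg', Units.val_one, one_mul, sub_self]
    · rintro ⟨x, y⟩ ⟨-, hy0⟩
      have hy0' : y = 0 := hy0
      rw [hy0', hform1, hg, Units.val_one, one_mul]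
  obtain ⟨P, c, hP, hPn, hc, hPc, hP1, hgen⟩ := hGrp p k D θ θ' ((p ^ m) ^ i - 1)
    ((p ^ m) ^ j - 1)
    (by
      have : 2 ≤ (p ^ m) ^ i := le_trans hq2 (le_self_pow (by omega) hi.ne')
      omega)
    (by
      have : 2 ≤ (p ^ m) ^ j := le_trans hq2 (le_self_pow (by omega) hj.ne')
      omega)
    (by
      intro g hg hg'
      have h1 : a g = 1 := hκi (by rw [← hθ, hg, map_one])
      have h2 : b g = 1 := hκi' (by rw [← hθ', hg', map_one])
      obtain ⟨N, hN⟩ := (hUni p F (E × E') (Submodule.prod ⊤ ⊥)).1 ⟨ρ g, hU0 g h1 h2⟩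
      refine ⟨N, ?_⟩
      have h3 : (ρ g) ^ p ^ N = 1 := congrArg Subtype.val hN
      apply Subtype.ext
      apply hinj
      rw [← map_pow] at h3
      exact h3.trans (map_one ρ).symm)
    (by
      intro g
      apply Units.ext
      have h1 := hRel p k F E E' ι κ κ' m i j hDt L A hA e w₀ y₀ hC hw hy hl hl' g g.2 (a g) (b g)
        (hab g).1 (hab g).2
      rw [Units.val_mul, Units.val_pow_eq_pow_val, Units.val_pow_eq_pow_val, Units.val_one]
      exact h1)
  -- splitting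
  have hordc : orderOf (ρ c) = orderOf c := by
    rw [orderOf_injective ρ hinj, Subgroup.orderOf_coe]
  obtain ⟨u, hu, huc⟩ := hSpl p F E E' (ρ c) (a c) (b c) (by rw [hordc]; exact hc) (hform1 c)
    (hform2 c)
  let ρ' : (L ≃ₐ[RatFunc k] L) →* ((E × E') ≃ₗ[F] (E × E')) := (MulAut.conj u).toMonoidHom.comp ρ
  have hρ' : ∀ σ, ρ' σ = u * ρ σ * u⁻¹ := fun σ => rfl
  have hinj' : Function.Injective ρ' := (MulAut.conj u).injective.comp hinj
  have hρc : ρ' c = dg F (a c) (b c) := by rw [hρ', huc]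
  have hcn : ∀ x ∈ (P.map D.subtype).map ρ', dg F (a c) (b c) * x * (dg F (a c) (b c))⁻¹ ∈
      (P.map D.subtype).map ρ' := by
    rintro _ ⟨_, ⟨x, hx, rfl⟩, rfl⟩
    refine ⟨((c * x * c⁻¹ : D) : L ≃ₐ[RatFunc k] L), ⟨c * x * c⁻¹, hPn.conj_mem x hx c, rfl⟩, ?_⟩
    rw [← hρc, ← map_inv, ← map_mul, ← map_mul]
    rfl
  refine ⟨a c, b c, (P.map D.subtype).map ρ', ρ'.range, ?_, ?_, ?_, ⟨?_, ?_, hcn⟩, ?_⟩
  · -- the first generator
    intro z
    obtain ⟨σ, hσ, hσ1⟩ := (hOrb p k F E E' ι κ κ' m i j hDt L A hA e hC).1 1 z one_ne_zero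
      z.ne_zero
    have h1 : a ⟨σ, hσ⟩ = z := Units.ext (ha1 ⟨σ, hσ⟩ z hσ1)
    obtain ⟨N, hN, -⟩ := hgen ⟨σ, hσ⟩
    refine ⟨N, ?_⟩
    rw [hθ, hθ, h1, ← map_pow] at hN
    change a c ^ (N : ℤ) = z
    rw [zpow_natCast]
    exact (hκi hN).symm
  · intro z
    obtain ⟨σ, hσ, hσ1⟩ := (hOrb p k F E E' ι κ κ' m i j hDt L A hA e hC).2 0 1 0 z one_ne_zero
      z.ne_zero
    have h1 : b ⟨σ, hσ⟩ = z := Units.ext (hb1 ⟨σ, hσ⟩ 0 0 z hσ1)
    obtain ⟨N, -, hN⟩ := hgen ⟨σ, hσ⟩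
    refine ⟨N, ?_⟩
    rw [hθ', hθ', h1, ← map_pow] at hN
    change b c ^ (N : ℤ) = z
    rw [zpow_natCast]
    exact (hκi' hN).symm
  · rintro _ ⟨_, ⟨x, hx, rfl⟩, rfl⟩
    have h1 : a x = 1 := hκi (by rw [← hθ, (hP1 x hx).1, map_one])
    have h2 : b x = 1 := hκi' (by rw [← hθ', (hP1 x hx).2, map_one])
    change u * ρ x * u⁻¹ ∈ _
    exact mul_mem (mul_mem hu (hU0 x h1 h2)) (inv_mem hu)
  · exact (hP.map _).map _
  · rw [← hρc, orderOf_injective ρ' hinj', Subgroup.orderOf_coe]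
    exact hc
  · refine ESeed_rz k _ L A hA (fun A' h1 h2 => hUnr p k m i (i + j) hm hi hin L A' h1 h2) ρ'
      hinj' _ _ ?_
    rw [← hρc]
    have h1 : (Subgroup.zpowers (ρ' (c : L ≃ₐ[RatFunc k] L))) =
        ((Subgroup.zpowers c).map D.subtype).map ρ' := by
      rw [MonoidHom.map_zpowers, MonoidHom.map_zpowers]
      rfl
    rw [h1, ← Subgroup.map_sup, ← Subgroup.map_sup, hPc]
    congr 1
    rw [← MonoidHom.range_eq_map, Subgroup.range_subtype]

end MP7b0bad.Lin
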