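import Pool.Agent.Work.MP_7b0bad_ag.Lin.Stmts

set_option autoImplicit false

/-!
# Block Lin: the polynomial `Y ^ (q ^ n - 1) + x Y ^ (q ^ i - 1) + 1` is monic and separable
-/

open Polynomial

namespace MP7b0bad.Lin

private theorem ESep_monic {k A : Type} [Field k] [CommRing A] [Nontrivial A] (φ : k →+* A) (x : A)
    (N D : k[X]) (hN : N.Monic) (hd : D.natDegree < N.natDegree) :
    (N.map φ - C x * D.map φ).Monic ∧ (N.map φ - C x * D.map φ).natDegree = N.natDegree := by
  have h1 : (C x * D.map φ).natDegree < (N.map φ).natDegree := by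
    rw [hN.natDegree_map φ]
    exact ((natDegree_C_mul_le _ _).trans natDegree_map_le).trans_lt hd
  have h2 : (N.map φ).Monic := hN.map φ
  refine ⟨h2.sub_of_left ?_, ?_⟩
  · exact degree_lt_degree h1
  · rw [natDegree_sub_eq_left_of_natDegree_lt h1, hN.natDegree_map φ]

private theorem ESep_pow {R : Type} [CommRing R] (n : ℕ) (h : 1 ≤ n) :
    (X : R[X]) * derivative (X ^ n : R[X]) = C (n : R) * X ^ n := by
  rw [derivative_X_pow]
  obtain ⟨m, rfl⟩ : ∃ m, n = m + 1 := ⟨n - 1, by omega⟩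
  rw [Nat.add_sub_cancel, pow_succ]
  ring

private theorem ESep_form (k : Type) [Field k] (q i n : ℕ) :
    FL k q i n = X ^ (q ^ n - 1) + C RatFunc.X * X ^ (q ^ i - 1) + 1 := by
  rw [FL, SnT.FF]
  simp only [Polynomial.map_add, Polynomial.map_pow, Polynomial.map_X, Polynomial.map_one,
    Polynomial.map_neg]
  ring

theorem prf_ESep : ESep := by
  intro k _ q i n hq hi hin hq0
  have hqi : 2 ≤ q ^ i := le_trans hq (le_self_pow (by omega) hi.ne')
  have hlt0 : q ^ i < q ^ n := Nat.pow_lt_pow_right (by omega) hin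
  have hn1 : q ^ n - 1 ≠ 0 := by omega
  have hN1 : (X ^ (q ^ n - 1) + 1 : k[X]) = X ^ (q ^ n - 1) + C 1 := by rw [C_1]
  have hNm : (X ^ (q ^ n - 1) + 1 : k[X]).Monic := by
    rw [hN1]
    exact monic_X_pow_add_C 1 hn1
  have hNd : (X ^ (q ^ n - 1) + 1 : k[X]).natDegree = q ^ n - 1 := by
    rw [hN1]
    exact natDegree_X_pow_add_C
  have hDd : (-X ^ (q ^ i - 1) : k[X]).natDegree = q ^ i - 1 := by
    rw [natDegree_neg]
    exact natDegree_X_pow (q ^ i - 1)
  have hlt : (-X ^ (q ^ i - 1) : k[X]).natDegree < (X ^ (q ^ n - 1) + 1 : k[X]).natDegree := by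
    rw [hNd, hDd]
    omega
  have hM := ESep_monic (algebraMap k (RatFunc k)) RatFunc.X _ _ hNm hlt
  refine ⟨hM.1, hM.2.trans hNd, ?_⟩
  have hq0' : ((q : ℕ) : RatFunc k) = 0 := by
    rw [← map_natCast (algebraMap k (RatFunc k)) q, hq0, map_zero]
  have hc : ∀ m : ℕ, 0 < m → ((q ^ m - 1 : ℕ) : RatFunc k) = -1 := by
    intro m hm
    have h2 : 2 ≤ q ^ m := le_trans hq (le_self_pow (by omega) hm.ne')
    rw [Nat.cast_sub (by omega), Nat.cast_pow, hq0', Nat.cast_one, zero_pow hm.ne', zero_sub]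
  have hder : (X : (RatFunc k)[X]) * derivative (FL k q i n) = 1 - FL k q i n := by
    have e1 := ESep_pow (R := RatFunc k) (q ^ n - 1) (by omega)
    have e2 := ESep_pow (R := RatFunc k) (q ^ i - 1) (by omega)
    rw [hc n (by omega)] at e1
    rw [hc i hi] at e2
    rw [ESep_form, derivative_add, derivative_add, derivative_C_mul, derivative_one, add_zero,
      mul_add, e1, mul_left_comm, e2, C_neg, C_1]
    ring
  refine ⟨1, X, ?_⟩
  rw [hder]
  ring

end MP7b0bad.Lin
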