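import Mathlib
import Pool.Agent.Work.MP_7b0bad_ag.Lin.Stmts

set_option autoImplicit false

/-!
# Block Lin, item ESpl: splitting by averaging
-/

open Polynomial Matrix

namespace MP7b0bad.Lin

/-- second component of the powers -/
theorem ESpl_pow {F E E' : Type} [Field F] [Field E] [Field E'] [Algebra F E] [Algebra F E']
    (g : (E × E') ≃ₗ[F] (E × E')) (b : E'ˣ) (h : ∀ x y, (g (x, y)).2 = b * y) (l : ℕ) (v : E × E') :
    ((g ^ l) v).2 = (b : E') ^ l * v.2 := by
  induction l generalizing v with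
  | zero => simp
  | succ l ih =>
    rw [pow_succ', LinearEquiv.mul_apply]
    have h1 := h ((g ^ l) v).1 ((g ^ l) v).2
    rw [Prod.mk.eta] at h1
    rw [h1, ih, pow_succ']
    ring

/-- the term of the average -/
noncomputable def ESpl_t {F E E' : Type} [Field F] [Field E] [Field E'] [Algebra F E] [Algebra F E']
    (g : (E × E') ≃ₗ[F] (E × E')) (b : E'ˣ) (l : ℕ) : E' →ₗ[F] (E × E') :=
  ((g ^ l : (E × E') ≃ₗ[F] (E × E')).toLinearMap ∘ₗ LinearMap.inr F E E') ∘ₗ
    LinearMap.mulLeft F (((b : E')⁻¹) ^ l)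

theorem ESpl_t_apply {F E E' : Type} [Field F] [Field E] [Field E'] [Algebra F E] [Algebra F E']
    (g : (E × E') ≃ₗ[F] (E × E')) (b : E'ˣ) (l : ℕ) (y : E') :
    ESpl_t g b l y = (g ^ l) (0, ((b : E')⁻¹) ^ l * y) := rfl

theorem prf_ESpl : ESpl := by
  intro p _ F E E' _ _ _ _ _ _ _ _ _ g a b hp ha hb
  set N := orderOf g with hN
  have hN0 : N ≠ 0 := fun h => hp (h ▸ dvd_zero p)
  have hNF : (N : F) ≠ 0 := fun h => hp ((CharP.cast_eq_zero_iff F p N).1 h)
  have hgN : g ^ N = 1 := pow_orderOf_eq_one g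
  have hb0 : (b : E') ≠ 0 := b.ne_zero
  have hbN : (b : E') ^ N = 1 := by
    have h1 := ESpl_pow g b hb N (0, 1)
    rw [hgN] at h1
    change (1 : E') = _ at h1
    rw [mul_one] at h1
    exact h1.symm
  let s : E' →ₗ[F] (E × E') := (N : F)⁻¹ • ∑ l ∈ Finset.range N, ESpl_t g b l
  have hs : ∀ y, s y = (N : F)⁻¹ • ∑ l ∈ Finset.range N, ESpl_t g b l y := fun y => by
    simp only [s, LinearMap.smul_apply, LinearMap.sum_apply]
  have hs2 : ∀ y, (s y).2 = y := by
    intro y
    rw [hs, Prod.smul_snd, Prod.snd_sum]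
    have h1 : ∀ l ∈ Finset.range N, (ESpl_t g b l y).2 = y := fun l _ => by
      rw [ESpl_t_apply, ESpl_pow g b hb]
      change (b : E') ^ l * (((b : E')⁻¹) ^ l * y) = y
      rw [← mul_assoc, ← mul_pow, mul_inv_cancel₀ hb0, one_pow, one_mul]
    rw [Finset.sum_congr rfl h1, Finset.sum_const, Finset.card_range]
    rw [← Nat.cast_smul_eq_nsmul F, smul_smul, inv_mul_cancel₀ hNF, one_smul]
  have hgs : ∀ y, g (s y) = s (b * y) := by
    intro y
    rw [hs, hs, map_smul, map_sum]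
    congr 1
    have h1 : ∀ l, g (ESpl_t g b l y) = ESpl_t g b (l + 1) (b * y) := by
      intro l
      rw [ESpl_t_apply, ESpl_t_apply, pow_succ' g l, LinearEquiv.mul_apply]
      congr 3
      rw [pow_succ, mul_assoc, ← mul_assoc ((b : E')⁻¹) (b : E') y, inv_mul_cancel₀ hb0, one_mul]
    simp only [h1]
    have h2 := Finset.sum_range_succ (fun l => ESpl_t g b l (b * y)) N
    have h3 := Finset.sum_range_succ' (fun l => ESpl_t g b l (b * y)) N
    have h4 : ESpl_t g b N (b * y) = ESpl_t g b 0 (b * y) := by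
      rw [ESpl_t_apply, ESpl_t_apply, hgN, pow_zero, pow_zero, inv_pow, hbN, inv_one]
    rw [h2, h4] at h3
    exact (add_right_cancel h3).symm
  -- the unipotent element
  let φ : (E × E') →ₗ[F] (E × E') := s ∘ₗ LinearMap.snd F E E' - LinearMap.inr F E E' ∘ₗ LinearMap.snd F E E'
  have hφ : ∀ v, φ v = s v.2 - (0, v.2) := fun v => rfl
  have hφ2 : ∀ v, (φ v).2 = 0 := fun v => by rw [hφ, Prod.snd_sub, hs2, sub_self]
  have hφ0 : ∀ v : E × E', v.2 = 0 → φ v = 0 := fun v hv => by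
    rw [hφ, hv, map_zero, zero_sub]
    simp
  have hφφ : ∀ v, φ (φ v) = 0 := fun v => hφ0 _ (hφ2 v)
  let u : (E × E') ≃ₗ[F] (E × E') := LinearEquiv.ofLinearMap (LinearMap.id - φ) (LinearMap.id + φ)
    (by
      refine LinearMap.ext fun v => ?_
      change (v + φ v) - φ (v + φ v) = v
      rw [map_add, hφφ, add_zero, add_sub_cancel_right])
    (by
      refine LinearMap.ext fun v => ?_
      change (v - φ v) + φ (v - φ v) = v
      rw [map_sub, hφφ, sub_zero, sub_add_cancel])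
  have hu : ∀ v, u v = v - φ v := fun _ => rfl
  have hui : ∀ v, u⁻¹ v = v + φ v := fun _ => rfl
  refine ⟨u, ⟨fun v => ?_, fun v hv => ?_⟩, ?_⟩
  · rw [hu, sub_sub_cancel_left]
    refine Submodule.neg_mem _ ⟨trivial, ?_⟩
    exact (hφ2 v)
  · rw [hu, hφ0 v hv.2, sub_zero]
  · have hw : ∀ v : E × E', u⁻¹ v = (v.1, 0) + s v.2 := fun v => by
      rw [hui, hφ]
      have h1 : v = (v.1, 0) + (0, v.2) := by ext <;> simp
      conv_lhs => rw [h1]
      simp only [Prod.snd_add, zero_add]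
      abel
    have key : ∀ v : E × E', g (u⁻¹ v) = u⁻¹ (dg F a b v) := fun v => by
      rw [hw, hw, map_add, ha, hgs, dg_apply]
    rw [mul_inv_eq_iff_eq_mul]
    refine LinearEquiv.ext fun v => ?_
    rw [LinearEquiv.mul_apply, LinearEquiv.mul_apply]
    have h1 : u⁻¹ (u v) = v := u.symm_apply_apply v
    have h2 := key (u v)
    rw [h1] at h2
    rw [h2]
    exact u.apply_symm_apply _

end MP7b0bad.Lin
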