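import Mathlib
import Pool.Agent.Work.MP_7b0bad_ag.Lin.Stmts

set_option autoImplicit false

/-!
# Block Lin, item FLift: lifting along a central kernel of order prime to `p`
-/

namespace MP7b0bad.Lin

/-- the part of an element of order prime to `p`: a lift of a `p'`-element -/
theorem FLift_c {p : ℕ} [Fact p.Prime] {G G' : Type} [Group G] [Group G'] [Finite G]
    (f : G →* G') (g : G) (hc : ¬ p ∣ orderOf (f g)) :
    ∃ c : G, f c = f g ∧ ¬ p ∣ orderOf c := by
  have hp : p.Prime := Fact.out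
  have hg0 : orderOf g ≠ 0 := (orderOf_pos g).ne'
  obtain ⟨e, r, hr, her⟩ := Nat.exists_eq_pow_mul_and_not_dvd hg0 p hp.ne_one
  have hcop : Nat.Coprime (p ^ e) r := Nat.Coprime.pow_left e ((hp.coprime_iff_not_dvd).2 hr)
  obtain ⟨t, ht0, ht1⟩ := Nat.chineseRemainder hcop 0 1
  have hs : orderOf (f g) ∣ r := by
    have h1 : orderOf (f g) ∣ p ^ e * r := by
      rw [← her]
      exact orderOf_map_dvd f g
    exact (Nat.Coprime.pow_right e ((hp.coprime_iff_not_dvd).2 hc).symm).dvd_of_dvd_mul_left h1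
  refine ⟨g ^ t, ?_, fun h => hr (h.trans ?_)⟩
  · rw [map_pow]
    have h2 : t ≡ 1 [MOD orderOf (f g)] := ht1.of_dvd hs
    have h3 := (pow_eq_pow_iff_modEq (x := f g)).2 h2
    rwa [pow_one] at h3
  · apply orderOf_dvd_of_pow_eq_one
    rw [← pow_mul]
    apply orderOf_dvd_iff_pow_eq_one.1
    rw [her]
    exact Nat.mul_dvd_mul_right ((Nat.modEq_zero_iff_dvd).1 ht0) r

theorem prf_FLift : FLift := by
  intro p _ G G' _ _ _ f hf hZ hpZ P' c' hN
  obtain ⟨hP', hc', hn⟩ := hN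
  have hp : p.Prime := Fact.out
  have hfin : Finite G' := Finite.of_surjective f hf
  set H : Subgroup G := P'.comap f with hH
  let φ : H →* P' := f.subgroupComap P'
  have hφ : Function.Surjective φ := f.subgroupComap_surjective_of_surjective P' hf
  have hφ1 : ∀ x : H, (φ x : G') = f x := fun _ => rfl
  obtain ⟨a, ha⟩ := IsPGroup.iff_card.1 hP'
  -- the kernel of `φ` is central of order prime to `p`
  have hkc : ∀ x : H, φ x = 1 → f (x : G) = 1 := by
    intro x hx
    rw [← hφ1, hx]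
    rfl
  have hcard : Nat.card φ.ker ∣ Nat.card f.ker := by
    let ψ : φ.ker →* f.ker :=
      { toFun := fun x => ⟨((x : H) : G), hkc x x.2⟩
        map_one' := rfl
        map_mul' := fun _ _ => rfl }
    have hinj : Function.Injective ψ := by
      intro x y hxy
      have h1 := congrArg (fun z : f.ker => (z : G)) hxy
      exact Subtype.ext (Subtype.ext h1)
    exact Subgroup.card_dvd_of_injective ψ hinj
  have hpk : ¬ p ∣ Nat.card φ.ker := fun h => hpZ (h.trans hcard)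
  have hidx : φ.ker.index = p ^ a := by
    rw [Subgroup.index_ker, MonoidHom.range_eq_top.2 hφ, Subgroup.card_top, ha]
  obtain ⟨K, hK⟩ := Subgroup.exists_right_complement'_of_coprime (N := φ.ker) (by
    rw [hidx]
    exact Nat.Coprime.pow_right a ((hp.coprime_iff_not_dvd).2 hpk).symm)
  have hKcard : Nat.card K = p ^ a := by
    have h1 := hK.card_mul_card
    have h2 := φ.ker.card_mul_index
    rw [hidx] at h2
    rw [← h2] at h1
    exact Nat.eq_of_mul_eq_mul_left Nat.card_pos h1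
  have hKp : IsPGroup p K := IsPGroup.iff_card.2 ⟨a, hKcard⟩
  have hdec : ∀ x : H, ∃ z ∈ φ.ker, ∃ k ∈ K, x = z * k := by
    intro x
    obtain ⟨⟨z, k⟩, hzk⟩ := hK.2 x
    exact ⟨z, z.2, k, k.2, hzk.symm⟩
  -- the `p`-elements of the preimage are in `K`
  have hpel : ∀ x : H, (∃ m : ℕ, x ^ p ^ m = 1) → x ∈ K := by
    rintro x ⟨m, hm⟩
    obtain ⟨z, hz, k, hk, rfl⟩ := hdec x
    have hcomm : Commute z k := by
      have h1 := Subgroup.mem_center_iff.1 (hZ (MonoidHom.mem_ker.2 (hkc z hz))) (k : G)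
      exact Subtype.ext h1.symm
    obtain ⟨b, hb⟩ := hKp ⟨k, hk⟩
    have hb' : k ^ p ^ b = 1 := congrArg Subtype.val hb
    have h2 : z ^ p ^ (m + b) = 1 := by
      have h3 : (z * k) ^ p ^ (m + b) = 1 := by
        rw [pow_add, pow_mul, hm, one_pow]
      have h4 : k ^ p ^ (m + b) = 1 := by
        rw [add_comm m b, pow_add, pow_mul, hb', one_pow]
      rwa [hcomm.mul_pow, h4, mul_one] at h3
    have h5 : orderOf z ∣ p ^ (m + b) := orderOf_dvd_of_pow_eq_one h2
    have h6 : orderOf z ∣ Nat.card φ.ker := by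
      have h7 := orderOf_dvd_natCard (⟨z, hz⟩ : φ.ker)
      rwa [← Subgroup.orderOf_coe] at h7
    have h8 : Nat.Coprime (orderOf z) (orderOf z) :=
      Nat.Coprime.of_dvd h5 h6 (Nat.Coprime.pow_left _ ((hp.coprime_iff_not_dvd).2 hpk))
    have h9 : z = 1 := orderOf_eq_one_iff.1 ((Nat.coprime_self _).1 h8)
    rw [h9, one_mul]
    exact hk
  obtain ⟨g, hg⟩ := hf c'
  obtain ⟨c, hc, hpc⟩ := FLift_c f g (by rw [hg]; exact hc')
  rw [hg] at hc
  have hlast : ∀ x : G, f x ∈ P' → (∃ m : ℕ, x ^ p ^ m = 1) → x ∈ K.map H.subtype := by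
    rintro x hx ⟨m, hm⟩
    exact Subgroup.mem_map.2 ⟨⟨x, hx⟩, hpel ⟨x, hx⟩ ⟨m, Subtype.ext hm⟩, rfl⟩
  have hPp : ∀ x ∈ K.map H.subtype, f x ∈ P' ∧ ∃ m : ℕ, x ^ p ^ m = 1 := by
    intro x hx
    obtain ⟨y, hy, rfl⟩ := Subgroup.mem_map.1 hx
    obtain ⟨m, hm⟩ := hKp ⟨y, hy⟩
    have hm' : y ^ p ^ m = 1 := congrArg Subtype.val hm
    exact ⟨y.2, m, congrArg Subtype.val hm'⟩
  refine ⟨K.map H.subtype, c, ⟨hKp.map _, hpc, ?_⟩, ?_, hc, hlast⟩
  · intro x hx
    obtain ⟨h1, m, hm⟩ := hPp x hx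
    refine hlast _ ?_ ⟨m, ?_⟩
    · rw [map_mul, map_mul, map_inv, hc]
      exact hn _ h1
    · rw [conj_pow, hm, mul_one, mul_inv_cancel]
  · apply le_antisymm
    · rintro y hy
      obtain ⟨x, hx, rfl⟩ := Subgroup.mem_map.1 hy
      exact (hPp x hx).1
    · intro y hy
      obtain ⟨x, hx⟩ := hf y
      have hxH : x ∈ H := by
        change f x ∈ P'
        rw [hx]
        exact hy
      obtain ⟨z, hz, k, hk, hzk⟩ := hdec ⟨x, hxH⟩
      refine Subgroup.mem_map.2 ⟨(k : G), Subgroup.mem_map.2 ⟨k, hk, rfl⟩, ?_⟩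
      have h1 : x = (z : G) * (k : G) := congrArg Subtype.val hzk
      rw [← hx, h1, map_mul, hkc z hz, one_mul]

end MP7b0bad.Lin
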