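import Pool.Agent.Work.MP_7b0bad_ag.Lin.Stmts
import Pool.Agent.Work.MP_7b0bad_ag.SV.GHyp

set_option autoImplicit false

/-!
# Block Lin, item FMain: the theorem for `SL_n(F)` and its central quotients
-/

namespace MP7b0bad.Lin

open Matrix

/-- the kernel has order prime to `p` -/
theorem FMain_ker (p : ℕ) [Fact p.Prime] (F : Type) [Field F] [Finite F] [CharP F p] (n : ℕ)
    (hn : 0 < n) (K : Subgroup (SLn n F)) (hK : K ≤ Subgroup.center (SLn n F)) :
    ¬ p ∣ Nat.card K := by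
  intro hd
  have : Finite (SLn n F) := Subtype.finite
  obtain ⟨⟨g, hg⟩, hgo⟩ := exists_prime_orderOf_dvd_card' p hd
  have hg1 : g ≠ 1 := by
    rintro rfl
    have h1 : orderOf (⟨1, hg⟩ : K) = 1 := orderOf_eq_one_iff.2 rfl
    rw [h1] at hgo
    exact (Fact.out : p.Prime).one_lt.ne hgo
  have hgp : g ^ p = 1 := by
    have h1 : (⟨g, hg⟩ : K) ^ p = 1 := by rw [← hgo]; exact pow_orderOf_eq_one _
    exact congrArg Subtype.val h1
  obtain ⟨r, hr1, hr2⟩ := Matrix.SpecialLinearGroup.mem_center_iff.1 (hK hg)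
  have i0 : Fin n := ⟨0, hn⟩
  have hrp : r ^ p = 1 := by
    have h1 : (g ^ p).1 = (1 : Matrix (Fin n) (Fin n) F) := by rw [hgp]; rfl
    have h2 : (g ^ p).1 = (Matrix.scalar (Fin n)) (r ^ p) := by
      rw [map_pow, hr2]
      exact Matrix.SpecialLinearGroup.coe_pow g p
    rw [h1] at h2
    have h3 := congrFun (congrFun h2 i0) i0
    simpa using h3.symm
  have hr : r = 1 := by
    have h1 : (r - 1) ^ p = 0 := by
      rw [sub_pow_char, hrp, one_pow, sub_self]
    have h2 := pow_eq_zero_iff (Fact.out : p.Prime).ne_zero |>.1 h1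
    exact sub_eq_zero.1 h2
  apply hg1
  apply Subtype.ext
  change g.1 = (1 : Matrix (Fin n) (Fin n) F)
  rw [← hr2, hr, map_one]

theorem FMain_um {p : ℕ} {F : Type} [Field F] [CharP F p] {n : ℕ} (W : Submodule F (Fin n → F))
    (g : SLn n F) (hg : g ∈ UM W) : g ^ p = 1 := by
  obtain ⟨h1, h2⟩ := hg
  have h3 : ∀ (m : ℕ) (v : Fin n → F), (g ^ m).1 *ᵥ v = v + (m : F) • (g.1 *ᵥ v - v) := by
    intro m
    induction m with
    | zero =>
      intro v
      rw [pow_zero]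
      change (1 : Matrix (Fin n) (Fin n) F) *ᵥ v = _
      rw [Matrix.one_mulVec]
      simp
    | succ m ih =>
      intro v
      rw [pow_succ']
      change (g.1 * (g ^ m).1) *ᵥ v = _
      rw [← Matrix.mulVec_mulVec, ih v, Matrix.mulVec_add, Matrix.mulVec_smul, h2 _ (h1 v)]
      push_cast
      rw [add_smul, one_smul]
      abel
  apply Subtype.ext
  change (g ^ p).1 = (1 : Matrix (Fin n) (Fin n) F)
  have h4 : ∀ v, (g ^ p).1 *ᵥ v = (1 : Matrix (Fin n) (Fin n) F) *ᵥ v := by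
    intro v
    rw [h3, CharP.cast_eq_zero, zero_smul, add_zero, Matrix.one_mulVec]
  exact Matrix.ext_iff_mulVec.2 h4

theorem FMain_two {F : Type} [Field F] (n : ℕ) (W : Submodule F (Fin n → F)) (hW : W ≠ ⊥)
    (hW' : W ≠ ⊤) : 2 ≤ n := by
  have h1 : 0 < Module.finrank F W := by
    rw [Nat.pos_iff_ne_zero, Ne, Submodule.finrank_eq_zero]
    exact hW
  have h2 : Module.finrank F W < Module.finrank F (Fin n → F) :=
    Submodule.finrank_lt hW'
  rw [Module.finrank_fin_fun] at h2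
  omega

theorem prf_FMain (hCB : CB) (hNc : FNc) (hLift : FLift) : FMain := by
  intro p _ k _ _ _ F _ _ _ n G _ _ f hf hker G₀ G₁ hyp W hW hW' hst hUM
  have : Finite (SLn n F) := Subtype.finite
  obtain ⟨a1, a2, a3, a4, a5, a6⟩ := hyp
  obtain ⟨c', hD, hG0⟩ := GT.prf_GHyp p G G₀ G₁ a1 a2 a3 a4 a5 a6
  have hn : 2 ≤ n := FMain_two n W hW hW'
  have hpk := FMain_ker p F n (by omega) f.ker hker
  obtain ⟨P, c, hNz, hPm, hc, hP⟩ := hLift p (SLn n F) G f hf hker hpk G₁ c'
    ⟨hD.pgr, hD.cop, hD.nrm⟩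
  by_cases hPb : P = ⊥
  · have h1 : G₁ = ⊥ := by rw [← hPm, hPb, Subgroup.map_bot]
    have h2 : (⊤ : Subgroup G) = ⊥ := by
      rw [← a6, h1, eq_bot_iff]
      exact Subgroup.normalClosure_le_normal le_rfl
    have h3 : Subsingleton G := by
      refine ⟨fun x y => ?_⟩
      have hx : x ∈ (⊥ : Subgroup G) := by rw [← h2]; trivial
      have hy : y ∈ (⊥ : Subgroup G) := by rw [← h2]; trivial
      rw [Subgroup.mem_bot] at hx hy
      rw [hx, hy]
    exact MT.MQp_VQuo.2 k p G h3 G₀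
  · have hncl := hNc p F n hn P hNz.1 hPb
    have hc0 : c' ∈ G₀ := by
      rw [hG0]
      exact (le_sup_right : Subgroup.zpowers c' ≤ G₁ ⊔ Subgroup.zpowers c')
        (Subgroup.mem_zpowers c')
    have hle : UM W ≤ P := fun g hg => hP g (hUM g hg) ⟨1, by
      rw [pow_one]; exact FMain_um W g hg⟩
    obtain ⟨-, hR⟩ := hCB k p F n W P c hn hNz hncl (hst c (by rw [hc]; exact hc0)) hW hW' hle
    have hq : Function.Surjective (f.comp (⊤ : Subgroup (SLn n F)).subtype) := by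
      intro y
      obtain ⟨x, hx⟩ := hf y
      exact ⟨⟨x, trivial⟩, hx⟩
    have h1 := MT.MQp_VQuo.1 k p (⊤ : Subgroup (SLn n F)) G _ _ hq hR
    have h2 : ((P ⊔ Subgroup.zpowers c).subgroupOf ⊤).map
        (f.comp (⊤ : Subgroup (SLn n F)).subtype) = G₀ := by
      rw [← Subgroup.map_map, Subgroup.subgroupOf_map_subtype, inf_top_eq, Subgroup.map_sup,
        MonoidHom.map_zpowers, hPm, hc, hG0]
      rfl
    rwa [h2] at h1

end MP7b0bad.Lin
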