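import Pool.Agent.Work.MP_7b0bad_ag.Lin.Stmts
import Pool.Agent.Work.MP_7b0bad_ag.SL.SLFin

set_option autoImplicit false

/-!
# Block Lin, item FNc: the normal closure of a `p`-subgroup of `SL_n(F)`
-/

namespace MP7b0bad.Lin

open Module

/-- the property that always holds satisfies the axioms -/
theorem FNc_ax (p : ℕ) : MW.WAx p (fun (G : Type) [Group G] (_ : Subgroup G) => True) where
  rel :=
    { iso := fun _ _ _ _ _ _ _ => trivial
      pgr := fun _ _ _ _ => trivial
      join := fun _ _ _ _ _ _ _ _ _ _ _ _ _ => trivial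
      emb := fun _ _ _ _ _ _ _ _ _ _ => ⟨⊤, le_top, sup_top_eq _, trivial⟩
      blk := fun _ _ _ _ _ _ _ _ => trivial }
  solv := fun _ _ _ _ _ _ _ _ _ _ => trivial

theorem prf_FNc (hAsm : SL.SLAsm) : FNc := by
  intro p _ F _ _ _ n hn P hP hP0
  have hfr : finrank F (Fin n → F) = n := Module.finrank_fin_fun F
  set e := SL.SLFin_e F n with he
  have hne : Nontrivial P := (Subgroup.nontrivial_iff_ne_bot P).2 hP0
  obtain ⟨m, hm⟩ := IsPGroup.iff_card.1 hP
  have hm0 : m ≠ 0 := by
    rintro rfl
    rw [pow_zero] at hm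
    have := Finite.one_lt_card (α := P)
    omega
  obtain ⟨x, hx⟩ := exists_prime_orderOf_dvd_card' (G := P) p (by
    rw [hm]
    exact dvd_pow_self p hm0)
  have hx' : orderOf (e (x : SLn n F)) = p := by
    rw [MulEquiv.orderOf_eq, Subgroup.orderOf_coe, hx]
  have hG := (hAsm p _ (FNc_ax p) (fun _ _ _ _ => trivial) F (Fin n → F)
    (by rw [hfr]; exact hn) (e x) hx').2
  have h1 : (Subgroup.normalClosure {(x : SLn n F)}).map e.toMonoidHom = ⊤ := by
    have h5 := Subgroup.map_normalClosure {(x : SLn n F)} e.toMonoidHom e.surjective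
    rw [Set.image_singleton] at h5
    exact h5.trans hG
  have h2 : Subgroup.normalClosure {(x : SLn n F)} = ⊤ := by
    rw [eq_top_iff]
    intro y _
    have h3 : e y ∈ (Subgroup.normalClosure {(x : SLn n F)}).map e.toMonoidHom := by
      rw [h1]
      trivial
    obtain ⟨z, hz, hzy⟩ := Subgroup.mem_map.1 h3
    have h4 : z = y := e.injective hzy
    rwa [← h4]
  rw [eq_top_iff, ← h2]
  exact Subgroup.normalClosure_mono (Set.singleton_subset_iff.2 x.2)

end MP7b0bad.Lin
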