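import Pool.Agent.Work.MP_7b0bad_ag.Lin.FMain

set_option autoImplicit false

/-!
# Block Lin, item FStab: if `G₁` contains `Hom(F^n / W, W)` then `G₀` stabilises `W`
-/

namespace MP7b0bad.Lin

open Matrix Polynomial

/-- transvections as matrices -/
theorem FStab_tv {F : Type} [Field F] {n : ℕ} (e : Fin n → F) (φ : (Fin n → F) →ₗ[F] F)
    (h : φ e = 0) : ∃ u : SLn n F, ∀ v, u.1 *ᵥ v = v + φ v • e := by
  obtain ⟨a, ha⟩ : ∃ a : Fin n → F, ∀ v, φ v = a ⬝ᵥ v := by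
    refine ⟨(dotProductEquiv F (Fin n)).symm φ, fun v => ?_⟩
    have h1 := LinearMap.congr_fun ((dotProductEquiv F (Fin n)).apply_symm_apply φ) v
    rw [← h1]
    rfl
  refine ⟨⟨1 + vecMulVec e a, ?_⟩, fun v => ?_⟩
  · rw [Matrix.vecMulVec_eq (ι := Unit), Matrix.det_one_add_replicateCol_mul_replicateRow, ← ha, h,
      add_zero]
  · change (1 + vecMulVec e a) *ᵥ v = _
    rw [Matrix.add_mulVec, Matrix.one_mulVec, Matrix.vecMulVec_mulVec, ha v]
    rw [op_smul_eq_smul]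

/-- two transvections in opposite position do not lie in a common `p`-group -/
theorem FStab_core {p : ℕ} [Fact p.Prime] {F : Type} [Field F] [CharP F p] {n : ℕ}
    {e e' : Fin n → F} {φ φ' : (Fin n → F) →ₗ[F] F} (h1 : φ e = 0) (h2 : φ e' = 1)
    (h3 : φ' e' = 0) (h4 : φ' e = 1) (u u' : SLn n F) (hu : ∀ v, u.1 *ᵥ v = v + φ v • e)
    (hu' : ∀ v, u'.1 *ᵥ v = v + φ' v • (-e')) (m : ℕ) : (u * u') ^ p ^ m ≠ 1 := by
  intro hx
  have hxv : ∀ v, (u * u').1 *ᵥ v = u.1 *ᵥ (u'.1 *ᵥ v) := fun v => by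
    rw [Matrix.mulVec_mulVec]
    rfl
  have hxe : (u * u').1 *ᵥ e = -e' := by
    rw [hxv, hu', h4, one_smul, hu, map_add, map_neg, h1, h2]
    simp
  have hxe' : (u * u').1 *ᵥ e' = e' + e := by
    rw [hxv, hu', h3, zero_smul, add_zero, hu, h2, one_smul]
  let T : Module.End F (Fin n → F) := Matrix.mulVecLin (u * u').1
  have hT : ∀ v, T v = (u * u').1 *ᵥ v := fun v => rfl
  have hTp : ∀ k v, (T ^ k) v = ((u * u') ^ k).1 *ᵥ v := by
    intro k
    induction k with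
    | zero =>
      intro v
      rw [pow_zero, pow_zero]
      exact (Matrix.one_mulVec v).symm
    | succ k ih =>
      intro v
      rw [pow_succ, pow_succ]
      change (T ^ k) (T v) = (((u * u') ^ k).1 * (u * u').1) *ᵥ v
      rw [ih, hT, Matrix.mulVec_mulVec]
  have hT1 : T ^ p ^ m = 1 := by
    refine LinearMap.ext fun v => ?_
    rw [hTp, hx]
    exact Matrix.one_mulVec v
  have hcop : IsCoprime (X ^ 2 - X + 1 : F[X]) ((X - 1) ^ p ^ m) := by
    refine IsCoprime.pow_right ⟨1, -X, ?_⟩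
    ring
  obtain ⟨A, B, hAB⟩ := hcop
  have hA0 : (aeval T (X ^ 2 - X + 1 : F[X])) e = 0 := by
    have h5 : (aeval T (X ^ 2 - X + 1 : F[X])) = T ^ 2 - T + 1 := by simp
    rw [h5]
    change (T ^ 2) e - T e + e = 0
    rw [pow_two]
    change T (T e) - T e + e = 0
    rw [hT e, hxe, map_neg, hT e', hxe']
    abel
  have hB0 : aeval T ((X - 1 : F[X]) ^ p ^ m) = 0 := by
    have h5 : (X - 1 : F[X]) ^ p ^ m = X ^ p ^ m - 1 := by
      rw [sub_pow_char_pow, one_pow]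
    rw [h5, map_sub, map_pow, aeval_X, hT1, map_one, sub_self]
  have h6 : (1 : Module.End F (Fin n → F)) e = 0 := by
    have h7 : aeval T (A * (X ^ 2 - X + 1 : F[X]) + B * (X - 1 : F[X]) ^ p ^ m) e = 0 := by
      rw [map_add, map_mul, map_mul, hB0, mul_zero, add_zero]
      change (aeval T A) ((aeval T (X ^ 2 - X + 1 : F[X])) e) = 0
      rw [hA0, map_zero]
    rwa [hAB, map_one] at h7
  have h8 : e = 0 := h6
  rw [h8, map_zero] at h4
  exact zero_ne_one h4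

/-- if `G₁` contains the image of `UM W`, then the preimage of `G₀` stabilises `W` -/
theorem FStab_of (hLift : FLift) (p : ℕ) [Fact p.Prime] (F : Type) [Field F] [Finite F]
    [CharP F p] (n : ℕ) (G : Type) [Group G] [Finite G] (f : SLn n F →* G)
    (hf : Function.Surjective f) (hker : f.ker ≤ Subgroup.center (SLn n F)) (G₀ G₁ : Subgroup G)
    (hyp : SVF.Hyp p G₁ G₀) (W : Submodule F (Fin n → F)) (hUM : ∀ g ∈ UM W, f g ∈ G₁) :
    ∀ g : SLn n F, f g ∈ G₀ → ∀ w ∈ W, g.1 *ᵥ w ∈ W := by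
  have : Finite (SLn n F) := Subtype.finite
  obtain ⟨a1, a2, a3, a4, a5, a6⟩ := hyp
  obtain ⟨c', hD, hG0⟩ := GT.prf_GHyp p G G₀ G₁ a1 a2 a3 a4 a5 a6
  intro g hg w hw
  by_contra hgw
  have hn : 0 < n := by
    rcases Nat.eq_zero_or_pos n with h | h
    · subst h
      exact absurd (by rw [Subsingleton.elim (g.1 *ᵥ w) w]; exact hw) hgw
    · exact h
  have hpk := FMain_ker p F n hn f.ker hker
  obtain ⟨P, c, hNz, hPm, hc, hP⟩ := hLift p (SLn n F) G f hf hker hpk G₁ c'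
    ⟨hD.pgr, hD.cop, hD.nrm⟩
  -- the automorphism `g` and the image of `W`
  let L : (Fin n → F) ≃ₗ[F] (Fin n → F) := SpecialLinearGroup.toLin' g
  have hL : ∀ v, L v = g.1 *ᵥ v := fun v => rfl
  set W' : Submodule F (Fin n → F) := W.map (L : (Fin n → F) →ₗ[F] (Fin n → F)) with hW'
  have hfr : Module.finrank F W' = Module.finrank F W := L.finrank_map_eq W
  have hgW' : g.1 *ᵥ w ∈ W' := ⟨w, hw, rfl⟩
  obtain ⟨e, he, he'⟩ : ∃ e ∈ W, e ∉ W' := by
    by_contra hcon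
    push Not at hcon
    have h1 : W ≤ W' := hcon
    have h2 := Submodule.eq_of_le_of_finrank_eq h1 hfr.symm
    rw [← h2] at hgW'
    exact hgw hgW'
  obtain ⟨φ₀, hφ1, hφ2⟩ := Submodule.exists_le_ker_of_notMem hgw
  obtain ⟨ψ₀, hψ1, hψ2⟩ := Submodule.exists_le_ker_of_notMem he'
  set e' := g.1 *ᵥ w with hee
  set φ : (Fin n → F) →ₗ[F] F := (φ₀ e')⁻¹ • φ₀ with hφ
  set ψ : (Fin n → F) →ₗ[F] F := (ψ₀ e)⁻¹ • ψ₀ with hψ
  have hφW : ∀ v ∈ W, φ v = 0 := fun v hv => by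
    rw [hφ, LinearMap.smul_apply, LinearMap.mem_ker.1 (hφ2 hv), smul_zero]
  have hψW : ∀ v ∈ W', ψ v = 0 := fun v hv => by
    rw [hψ, LinearMap.smul_apply, LinearMap.mem_ker.1 (hψ2 hv), smul_zero]
  have hφe' : φ e' = 1 := by
    rw [hφ, LinearMap.smul_apply, smul_eq_mul, inv_mul_cancel₀ hφ1]
  have hψe : ψ e = 1 := by
    rw [hψ, LinearMap.smul_apply, smul_eq_mul, inv_mul_cancel₀ hψ1]
  obtain ⟨u, hu⟩ := FStab_tv e φ (hφW e he)
  obtain ⟨u', hu'⟩ := FStab_tv (-e') ψ (by rw [map_neg, hψW e' hgW', neg_zero])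
  have huW : u ∈ UM W := by
    refine ⟨fun v => ?_, fun v hv => ?_⟩
    · rw [hu, add_sub_cancel_left]
      exact W.smul_mem _ he
    · rw [hu, hφW v hv, zero_smul, add_zero]
  have huW' : g⁻¹ * u' * g ∈ UM W := by
    have h1 : ∀ v, (g⁻¹ * u' * g).1 *ᵥ v = v + ψ (g.1 *ᵥ v) • (-w) := by
      intro v
      have h2 : (g⁻¹ * u' * g).1 = (g⁻¹).1 * (u'.1 * g.1) := by
        rw [← mul_assoc]
        rfl
      have h3 : (g⁻¹).1 * g.1 = 1 := congrArg Subtype.val (inv_mul_cancel g)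
      rw [h2, ← Matrix.mulVec_mulVec, ← Matrix.mulVec_mulVec, hu', Matrix.mulVec_add,
        Matrix.mulVec_mulVec, h3, Matrix.one_mulVec, Matrix.mulVec_smul, Matrix.mulVec_neg, hee,
        Matrix.mulVec_mulVec, h3, Matrix.one_mulVec]
    refine ⟨fun v => ?_, fun v hv => ?_⟩
    · rw [h1, add_sub_cancel_left]
      exact W.smul_mem _ (W.neg_mem hw)
    · rw [h1, hψW (g.1 *ᵥ v) ⟨v, hv, rfl⟩, zero_smul, add_zero]
  have huP : u ∈ P := hP u (hUM u huW) ⟨1, by rw [pow_one]; exact FMain_um W u huW⟩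
  have hu'P : u' ∈ P := by
    have h1 : f (g⁻¹ * u' * g) ∈ G₁ := hUM _ huW'
    have h2 : f u' = f g * f (g⁻¹ * u' * g) * (f g)⁻¹ := by
      rw [← map_mul, ← map_inv, ← map_mul]
      congr 1
      group
    have h3 : f u' ∈ G₁ := by
      rw [h2]
      have h4 := a2.conj_mem ⟨f (g⁻¹ * u' * g), a1 h1⟩ (Subgroup.mem_subgroupOf.mpr h1) ⟨f g, hg⟩
      exact Subgroup.mem_subgroupOf.mp h4
    refine hP u' h3 ⟨1, ?_⟩
    rw [pow_one]
    have h4 := FMain_um (p := p) W _ huW'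
    have h5 : u' = g * (g⁻¹ * u' * g) * g⁻¹ := by group
    rw [h5, conj_pow, h4, mul_one, mul_inv_cancel]
  obtain ⟨m, hm⟩ := hNz.1 ⟨u * u', P.mul_mem huP hu'P⟩
  exact FStab_core (p := p) (hφW e he) hφe' (hψW e' hgW') hψe u u' hu hu' m
    (congrArg Subtype.val hm)

end MP7b0bad.Lin
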