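import Pool.Agent.Work.MP_7b0bad_ag.Lin.FMain
import Pool.Agent.Work.MP_7b0bad_ag.AdT.Stmts

set_option autoImplicit false

/-!
# Block Lin, item FTwo: the full conjecture for the central quotients of `SL_2(F)`
-/

namespace MP7b0bad.Lin

open Matrix

theorem FTwo_of (hSL2 : AdT.TSL2) (hNc : FNc) (hLift : FLift) (p : ℕ) [Fact p.Prime] (k : Type)
    [Field k] [IsAlgClosed k] [CharP k p] (F : Type) [Field F] [Finite F] [CharP F p]
    (G : Type) [Group G] [Finite G] (f : SLn 2 F →* G) (hf : Function.Surjective f)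
    (hker : f.ker ≤ Subgroup.center (SLn 2 F)) (G₀ G₁ : Subgroup G) (hyp : SVF.Hyp p G₁ G₀) :
    Rel k G G₀ := by
  have : Finite (SLn 2 F) := Subtype.finite
  obtain ⟨a1, a2, a3, a4, a5, a6⟩ := hyp
  obtain ⟨c', hD, hG0⟩ := GT.prf_GHyp p G G₀ G₁ a1 a2 a3 a4 a5 a6
  have hpk := FMain_ker p F 2 (by omega) f.ker hker
  obtain ⟨P, c, hNz, hPm, hc, -⟩ := hLift p (SLn 2 F) G f hf hker hpk G₁ c'
    ⟨hD.pgr, hD.cop, hD.nrm⟩
  by_cases hPb : P = ⊥
  · have h1 : G₁ = ⊥ := by rw [← hPm, hPb, Subgroup.map_bot]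
    have h2 : (⊤ : Subgroup G) = ⊥ := by
      rw [← a6, h1, eq_bot_iff]
      exact Subgroup.normalClosure_le_normal le_rfl
    have h3 : Subsingleton G := by
      refine ⟨fun x y => ?_⟩
      have hx : x ∈ (⊥ : Subgroup G) := by rw [← h2]; trivial
      have hy : y ∈ (⊥ : Subgroup G) := by rw [← h2]; trivial
      rw [Subgroup.mem_bot] at hx hy
      rw [hx, hy]
    exact MT.MQp_VQuo.2 k p G h3 G₀
  · have hR := hSL2 k p F P c hNz (hNc p F 2 le_rfl P hNz.1 hPb)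
    have h1 := MT.MQp_VQuo.1 k p (SLn 2 F) G f _ hf hR
    have h2 : (P ⊔ Subgroup.zpowers c).map f = G₀ := by
      rw [Subgroup.map_sup, MonoidHom.map_zpowers, hPm, hc, hG0]
      rfl
    rwa [h2] at h1

end MP7b0bad.Lin
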