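import Pool.Agent.Work.MP_7b0bad_ag.Lin.CAll
import Pool.Agent.Work.MP_7b0bad_ag.Lin.CB
import Pool.Agent.Work.MP_7b0bad_ag.Lin.CDec
import Pool.Agent.Work.MP_7b0bad_ag.Lin.CDet
import Pool.Agent.Work.MP_7b0bad_ag.Lin.CExt
import Pool.Agent.Work.MP_7b0bad_ag.Lin.CMat
import Pool.Agent.Work.MP_7b0bad_ag.Lin.CNm
import Pool.Agent.Work.MP_7b0bad_ag.Lin.CPair
import Pool.Agent.Work.MP_7b0bad_ag.Lin.CTor
import Pool.Agent.Work.MP_7b0bad_ag.Lin.CUni
import Pool.Agent.Work.MP_7b0bad_ag.Lin.EAct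
import Pool.Agent.Work.MP_7b0bad_ag.Lin.EBas
import Pool.Agent.Work.MP_7b0bad_ag.Lin.ECnt
import Pool.Agent.Work.MP_7b0bad_ag.Lin.EGrp
import Pool.Agent.Work.MP_7b0bad_ag.Lin.EL1
import Pool.Agent.Work.MP_7b0bad_ag.Lin.EL2
import Pool.Agent.Work.MP_7b0bad_ag.Lin.EOrb
import Pool.Agent.Work.MP_7b0bad_ag.Lin.ERel
import Pool.Agent.Work.MP_7b0bad_ag.Lin.ESeed
import Pool.Agent.Work.MP_7b0bad_ag.Lin.ESep
import Pool.Agent.Work.MP_7b0bad_ag.Lin.ESpl
import Pool.Agent.Work.MP_7b0bad_ag.Lin.EUnr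
import Pool.Agent.Work.MP_7b0bad_ag.Lin.EVal
import Pool.Agent.Work.MP_7b0bad_ag.Lin.FLift
import Pool.Agent.Work.MP_7b0bad_ag.Lin.FMain
import Pool.Agent.Work.MP_7b0bad_ag.Lin.FNc
import Pool.Agent.Work.MP_7b0bad_ag.Lin.FStab
import Pool.Agent.Work.MP_7b0bad_ag.Lin.FTwo
import Pool.Agent.Work.MP_7b0bad_ag.MT.All
import Pool.Agent.Work.MP_7b0bad_ag.SL.All
import Pool.Agent.Work.MP_7b0bad_ag.AdT.All

set_option autoImplicit false

/-!
# Block Lin: assembly without hypotheses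
-/

namespace MP7b0bad.Lin

/-! ## The seeds -/

theorem all_ESep : ESep := prf_ESep
theorem all_EUnr : EUnr := prf_EUnr
theorem all_EVal : EVal := prf_EVal
theorem all_ECnt : ECnt := prf_ECnt all_ESep all_EVal
theorem all_EL1 : EL1 := prf_EL1 all_EVal all_ECnt
theorem all_EL2 : EL2 := prf_EL2 all_EVal all_ECnt
theorem all_EBas : EBas := prf_EBas all_EVal all_ECnt all_EL1 all_EL2
theorem all_EAct : EAct := prf_EAct
theorem all_ERel : ERel := prf_ERel all_EVal
theorem all_EOrb : EOrb := prf_EOrb all_EVal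
theorem all_EGrp : EGrp := prf_EGrp
theorem all_ESpl : ESpl := prf_ESpl
theorem all_CUni : CUni := prf_CUni
theorem all_ESeed : ESeed := prf_ESeed all_ESep all_EUnr all_EBas all_EAct all_ERel all_EOrb
  all_EGrp all_ESpl all_CUni

/-! ## Tori -/

theorem all_CDet : CDet := prf_CDet
theorem all_CExt : CExt := prf_CExt
theorem all_CPair : CPair := prf_CPair all_ESeed all_CExt all_CDet all_CUni MT.all_MRz
theorem all_CAll : CAll := prf_CAll all_CPair all_CUni MT.all_MRz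
theorem all_CNm : CNm := prf_CNm
theorem all_CDec : CDec := prf_CDec
theorem all_CTor : CTor := prf_CTor all_CAll all_CDec all_CNm
theorem all_CMat : CMat := prf_CMat all_CTor all_CDet all_CUni
theorem all_CB : CB := prf_CB all_CMat SL.all_SLFin MT.all_MRz

/-! ## The theorem -/

theorem all_FNc : FNc := prf_FNc SL.all_SLAsm
theorem all_FLift : FLift := prf_FLift
theorem all_FMain : FMain := prf_FMain all_CB all_FNc all_FLift

theorem all_FTwo (p : ℕ) [Fact p.Prime] (k : Type) [Field k] [IsAlgClosed k] [CharP k p]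
    (F : Type) [Field F] [Finite F] [CharP F p] (G : Type) [Group G] [Finite G] (f : SLn 2 F →* G)
    (hf : Function.Surjective f) (hker : f.ker ≤ Subgroup.center (SLn 2 F)) (G₀ G₁ : Subgroup G)
    (hyp : SVF.Hyp p G₁ G₀) : Rel k G G₀ :=
  FTwo_of AdT.all_TSL2 all_FNc all_FLift p k F G f hf hker G₀ G₁ hyp

/-- `G₁` contains the unipotent radical of the stabiliser of `W`; then `G₀` stabilises `W` -/
theorem all_FRad (p : ℕ) [Fact p.Prime] (k : Type) [Field k] [IsAlgClosed k] [CharP k p]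
    (F : Type) [Field F] [Finite F] [CharP F p] (n : ℕ) (G : Type) [Group G] [Finite G]
    (f : SLn n F →* G) (hf : Function.Surjective f) (hker : f.ker ≤ Subgroup.center (SLn n F))
    (G₀ G₁ : Subgroup G) (hyp : SVF.Hyp p G₁ G₀) (W : Submodule F (Fin n → F)) (h0 : W ≠ ⊥)
    (h1 : W ≠ ⊤) (hU : ∀ g ∈ UM W, f g ∈ G₁) : Rel k G G₀ :=
  all_FMain p k F n G f hf hker G₀ G₁ hyp W h0 h1
    (FStab_of all_FLift p F n G f hf hker G₀ G₁ hyp W hU) hU

end MP7b0bad.Lin
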