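import Pool.Agent.Work.MP_7b0bad_ag.Lin.CPair

set_option autoImplicit false

/-!
# Block Lin: all components of a torus
-/

open Polynomial Matrix

namespace MP7b0bad.Lin

open SnT (cc xx)

/-- `mE γ` has order prime to `p` -/
theorem CAll_ord (p : ℕ) [Fact p.Prime] {F : Type} [Field F] [Finite F] [CharP F p] {N : ℕ}
    (E : Fam F N) [∀ s, Finite (E s)] (γ : ∀ s, (E s)ˣ) : ¬ p ∣ orderOf (mE E γ) := by
  intro h
  have hfinV : Finite (Sp E ≃ₗ[F] Sp E) := CPair_finite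
  have h0 : orderOf (mE E γ) ≠ 0 := (orderOf_pos (mE E γ)).ne'
  have h1 := orderOf_pow_orderOf_div h0 h
  set m := orderOf (mE E γ) / p with hm
  have h2 : mE E (γ ^ m) ^ p = 1 := by
    rw [map_pow, ← h1]
    rw [h1]
    have h3 := pow_orderOf_eq_one (mE E γ ^ m)
    rwa [h1] at h3
  have h3 : γ ^ m = 1 := by
    funext s
    apply Units.ext
    have hc : CharP (E s) p := charP_of_injective_algebraMap (algebraMap F (E s)).injective p
    have h4 : mE E ((γ ^ m) ^ p) = 1 := by rw [map_pow, h2]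
    have h5 := congrFun (LinearEquiv.congr_fun h4 (1 : Sp E)) s
    rw [mE_apply] at h5
    have h6 : (((γ ^ m) ^ p) s : E s) * (1 : Sp E) s = (1 : Sp E) s := h5
    have h7 : (((γ ^ m) s : (E s)ˣ) : E s) ^ p = 1 := by
      rw [Pi.one_apply, mul_one] at h6
      rw [← Units.val_pow_eq_pow_val, ← Pi.pow_apply]
      exact h6
    have h8 : ((((γ ^ m) s : (E s)ˣ) : E s) - 1) ^ p = 0 := by
      rw [sub_pow_char, h7, one_pow, sub_self]
    have h9 := pow_eq_zero_iff (Fact.out : p.Prime).ne_zero |>.1 h8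
    exact sub_eq_zero.1 h9
  rw [← map_pow, h3, map_one, orderOf_one] at h1
  exact (Fact.out : p.Prime).one_lt.ne h1

/-- the product of the norms -/
noncomputable def CAll_nm {F : Type} [Field F] {N : ℕ} (E : Fam F N) : (∀ s, (E s)ˣ) →* F where
  toFun γ := ∏ s, Algebra.norm F (γ s : E s)
  map_one' := by
    refine Finset.prod_eq_one fun s _ => ?_
    rw [Pi.one_apply, Units.val_one, map_one]
  map_mul' γ δ := by
    rw [← Finset.prod_mul_distrib]
    refine Finset.prod_congr rfl fun s _ => ?_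
    rw [Pi.mul_apply, Units.val_mul, map_mul]

theorem CAll_nm_single {F : Type} [Field F] {N : ℕ} (E : Fam F N) (s : Fin N) (z : (E s)ˣ) :
    CAll_nm E (Pi.mulSingle s z) = Algebra.norm F (z : E s) := by
  change ∏ u, Algebra.norm F ((Pi.mulSingle s z : ∀ s, (E s)ˣ) u : E u) = _
  rw [Finset.prod_eq_single s]
  · rw [Pi.mulSingle_eq_same]
  · intro u _ hu
    rw [Pi.mulSingle_eq_of_ne hu, Units.val_one, map_one]
  · intro h
    exact absurd (Finset.mem_univ s) h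

theorem CAll_norm {F : Type} [Field F] [Finite F] {N : ℕ} (E : Fam F N) [∀ s, Finite (E s)]
    (s t : Fin N) (z : (E s)ˣ) : ∃ y : (E t)ˣ,
      Algebra.norm F (z : E s) * Algebra.norm F (y : E t) = 1 := by
  have h0 : Algebra.norm F (z : E s) ≠ 0 := by
    have h1 : Algebra.norm F (z : E s) * Algebra.norm F ((z⁻¹ : (E s)ˣ) : E s) = 1 := by
      rw [← map_mul, Units.mul_inv, map_one]
    exact left_ne_zero_of_mul_eq_one h1
  obtain ⟨y, hy⟩ := FiniteField.unitsMap_norm_surjective F (E t) (Units.mk0 _ h0)⁻¹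
  refine ⟨y, ?_⟩
  have h1 := congrArg Units.val hy
  rw [Units.coe_map, Units.val_inv_eq_inv_val, Units.val_mk0] at h1
  rw [h1, mul_inv_cancel₀ h0]

theorem prf_CAll (hPair : CPair) (hUni : CUni) (hMRz : MT.MRz) : CAll := by
  intro k _ _ p _ _ F _ _ _ N E _ w γ hs₀ ht₀ hnm
  classical
  obtain ⟨s₀, hs₀⟩ := hs₀
  obtain ⟨t₀, ht₀⟩ := ht₀
  have hst : s₀ ≠ t₀ := fun h => by
    rw [h, ht₀] at hs₀
    exact Bool.noConfusion hs₀
  have hfinV : Finite (Sp E ≃ₗ[F] Sp E) := CPair_finite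
  obtain ⟨hU1, hU2⟩ := hUni p F (Sp E) (Ww E w)
  have hNz : ∀ δ : ∀ s, (E s)ˣ, MT.Nz p (Uni (Ww E w)) (mE E δ) := fun δ =>
    ⟨hU1, CAll_ord p E δ, hU2 _ fun v => CPair_mem E w δ v⟩
  -- the realised elements
  let Good : Submonoid (∀ s, (E s)ˣ) :=
    { carrier := {δ | ∃ H, MT.Rz k (Uni (Ww E w)) (mE E δ) H}
      one_mem' := by
        obtain ⟨H, hH⟩ := hPair k p F N E w s₀ t₀ 1 1 hs₀ ht₀ (by
          rw [Units.val_one, Units.val_one, map_one, map_one, one_mul])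
        rw [Pi.mulSingle_one, Pi.mulSingle_one, one_mul] at hH
        exact ⟨H, hH⟩
      mul_mem' := by
        rintro δ δ' ⟨H, hH⟩ ⟨H', hH'⟩
        refine ⟨Uni (Ww E w) ⊔ H ⊔ H', ?_⟩
        rw [map_mul]
        exact hMRz k p (Sp E ≃ₗ[F] Sp E) (Uni (Ww E w)) (Uni (Ww E w)) (Uni (Ww E w)) H H' _ _
          (hNz δ) (hNz δ') (hNz δ) (hNz δ') le_rfl le_rfl
          (by rw [← map_mul, ← map_mul, mul_comm]) hH hH' }
  have hgood : ∀ δ : ∀ s, (E s)ˣ, δ ∈ Good ↔ ∃ H, MT.Rz k (Uni (Ww E w)) (mE E δ) H :=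
    fun δ => Iff.rfl
  -- two components
  have hpair : ∀ (s t : Fin N) (z : (E s)ˣ) (z' : (E t)ˣ), w s = true → w t = false →
      Algebra.norm F (z : E s) * Algebra.norm F (z' : E t) = 1 →
      (Pi.mulSingle s z * Pi.mulSingle t z' : ∀ s, (E s)ˣ) ∈ Good :=
    fun s t z z' h1 h2 h3 => hPair k p F N E w s t z z' h1 h2 h3
  -- the pieces
  have hpiece : ∀ s : Fin N, s ≠ s₀ → s ≠ t₀ → ∃ δ ∈ Good, CAll_nm E δ = 1 ∧ δ s = γ s ∧
      ∀ u, u ≠ s → u ≠ s₀ → u ≠ t₀ → δ u = 1 := by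
    intro s h1 h2
    cases hw : w s with
    | true =>
      obtain ⟨y, hy⟩ := CAll_norm E s t₀ (γ s)
      refine ⟨Pi.mulSingle s (γ s) * Pi.mulSingle t₀ y, hpair s t₀ _ _ hw ht₀ hy, ?_, ?_, ?_⟩
      · rw [map_mul, CAll_nm_single, CAll_nm_single, hy]
      · rw [Pi.mul_apply, Pi.mulSingle_eq_same, Pi.mulSingle_eq_of_ne h2, mul_one]
      · intro u hu1 _ hu3
        rw [Pi.mul_apply, Pi.mulSingle_eq_of_ne hu1, Pi.mulSingle_eq_of_ne hu3, mul_one]
    | false =>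
      obtain ⟨y, hy⟩ := CAll_norm E s s₀ (γ s)
      refine ⟨Pi.mulSingle s₀ y * Pi.mulSingle s (γ s), hpair s₀ s _ _ hs₀ hw ?_, ?_, ?_, ?_⟩
      · rw [mul_comm]
        exact hy
      · rw [map_mul, CAll_nm_single, CAll_nm_single, mul_comm]
        exact hy
      · rw [Pi.mul_apply, Pi.mulSingle_eq_same, Pi.mulSingle_eq_of_ne h1, one_mul]
      · intro u hu1 hu2 _
        rw [Pi.mul_apply, Pi.mulSingle_eq_of_ne hu1, Pi.mulSingle_eq_of_ne hu2, mul_one]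
  choose! δ hδ1 hδ2 hδ3 hδ4 using hpiece
  let T : Finset (Fin N) := Finset.univ.filter fun s => s ≠ s₀ ∧ s ≠ t₀
  have hT : ∀ s, s ∈ T ↔ s ≠ s₀ ∧ s ≠ t₀ := fun s => by
    simp only [T, Finset.mem_filter, Finset.mem_univ, true_and]
  have hQ1 : ∏ s ∈ T, δ s ∈ Good := Submonoid.prod_mem _ fun s hs =>
    hδ1 s ((hT s).1 hs).1 ((hT s).1 hs).2
  have hQ2 : CAll_nm E (∏ s ∈ T, δ s) = 1 := by
    rw [map_prod]
    exact Finset.prod_eq_one fun s hs => hδ2 s ((hT s).1 hs).1 ((hT s).1 hs).2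
  have hQ3 : ∀ u, u ≠ s₀ → u ≠ t₀ → (∏ s ∈ T, δ s) u = γ u := by
    intro u h1 h2
    rw [Finset.prod_apply, Finset.prod_eq_single u]
    · exact hδ3 u h1 h2
    · intro s hs hsu
      exact hδ4 s ((hT s).1 hs).1 ((hT s).1 hs).2 u hsu.symm h1 h2
    · intro h
      exact absurd ((hT u).2 ⟨h1, h2⟩) h
  -- the rest
  set Q := ∏ s ∈ T, δ s with hQ
  set ε := γ * Q⁻¹ with hε
  have hε1 : γ = ε * Q := by rw [hε, inv_mul_cancel_right]
  have hε2 : ε = Pi.mulSingle s₀ (ε s₀) * Pi.mulSingle t₀ (ε t₀) := by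
    funext u
    rw [Pi.mul_apply]
    by_cases h1 : u = s₀
    · subst h1
      rw [Pi.mulSingle_eq_same, Pi.mulSingle_eq_of_ne hst, mul_one]
    · by_cases h2 : u = t₀
      · subst h2
        rw [Pi.mulSingle_eq_same, Pi.mulSingle_eq_of_ne hst.symm, one_mul]
      · rw [Pi.mulSingle_eq_of_ne h1, Pi.mulSingle_eq_of_ne h2, mul_one, hε, Pi.mul_apply,
          Pi.inv_apply, hQ3 u h1 h2, mul_inv_cancel]
  have hε3 : Algebra.norm F (ε s₀ : E s₀) * Algebra.norm F (ε t₀ : E t₀) = 1 := by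
    have h1 : CAll_nm E γ = 1 := hnm
    rw [hε1, map_mul, hQ2, mul_one, hε2, map_mul, CAll_nm_single, CAll_nm_single] at h1
    exact h1
  have hε4 : ε ∈ Good := by
    rw [hε2]
    exact hpair s₀ t₀ _ _ hs₀ ht₀ hε3
  rw [← hgood, hε1]
  exact Good.mul_mem hε4 hQ1

end MP7b0bad.Lin
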