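import Pool.Agent.Work.MP_7b0bad_ag.Ad.Defs
import Pool.Agent.Work.MP_7b0bad_ag.AnT.AOrb
import Pool.Agent.Work.MP_7b0bad_ag.MT.ANax

set_option autoImplicit false

/-!
# Block Lin: special linear groups in the defining characteristic: definitions
-/

open Polynomial Matrix

namespace MP7b0bad.Lin

open SnT (cc xx)

/-! ## Matrices -/

/-- `SL_n(F)` -/
abbrev SLn (n : ℕ) (F : Type) [Field F] : Type := SpecialLinearGroup (Fin n) F

/-- the unipotent group `Hom(V / W, W)`, matrices -/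
def UM {n : ℕ} {F : Type} [Field F] (W : Submodule F (Fin n → F)) : Subgroup (SLn n F) where
  carrier := {g | (∀ v, g.1 *ᵥ v - v ∈ W) ∧ ∀ w ∈ W, g.1 *ᵥ w = w}
  one_mem' := ⟨fun v => by
    change (1 : Matrix (Fin n) (Fin n) F) *ᵥ v - v ∈ W
    rw [Matrix.one_mulVec, sub_self]
    exact W.zero_mem, fun w _ => Matrix.one_mulVec w⟩
  mul_mem' := by
    rintro g h ⟨hg1, hg2⟩ ⟨hh1, hh2⟩
    refine ⟨fun v => ?_, fun w hw => ?_⟩
    · change (g.1 * h.1) *ᵥ v - v ∈ W
      rw [← Matrix.mulVec_mulVec]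
      have h1 := W.add_mem (hg1 (h.1 *ᵥ v)) (hh1 v)
      rwa [sub_add_sub_cancel] at h1
    · change (g.1 * h.1) *ᵥ w = w
      rw [← Matrix.mulVec_mulVec, hh2 w hw, hg2 w hw]
  inv_mem' := by
    rintro g ⟨hg1, hg2⟩
    have h1 : g.1 * (g⁻¹).1 = 1 := congrArg Subtype.val (mul_inv_cancel g)
    have h2 : (g⁻¹).1 * g.1 = 1 := congrArg Subtype.val (inv_mul_cancel g)
    refine ⟨fun v => ?_, fun w hw => ?_⟩
    · have h3 := W.neg_mem (hg1 ((g⁻¹).1 *ᵥ v))
      rwa [Matrix.mulVec_mulVec, h1, Matrix.one_mulVec, neg_sub] at h3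
    · have h3 := hg2 w hw
      change (g⁻¹).1 *ᵥ w = w
      conv_lhs => rw [← h3, Matrix.mulVec_mulVec, h2, Matrix.one_mulVec]

/-! ## Linear automorphisms -/

/-- the unipotent group `Hom(V / W, W)` -/
def Uni {F V : Type} [Field F] [AddCommGroup V] [Module F V] (W : Submodule F V) :
    Subgroup (V ≃ₗ[F] V) where
  carrier := {g | (∀ v, g v - v ∈ W) ∧ ∀ w ∈ W, g w = w}
  one_mem' := ⟨fun v => by
    change v - v ∈ W
    rw [sub_self]
    exact W.zero_mem, fun _ _ => rfl⟩
  mul_mem' := by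
    rintro g h ⟨hg1, hg2⟩ ⟨hh1, hh2⟩
    refine ⟨fun v => ?_, fun w hw => ?_⟩
    · change g (h v) - v ∈ W
      have h1 := W.add_mem (hg1 (h v)) (hh1 v)
      rwa [sub_add_sub_cancel] at h1
    · change g (h w) = w
      rw [hh2 w hw, hg2 w hw]
  inv_mem' := by
    rintro g ⟨hg1, hg2⟩
    have h0 : ∀ v, g (g⁻¹ v) = v := fun v => g.apply_symm_apply v
    refine ⟨fun v => ?_, fun w hw => ?_⟩
    · have h1 := W.neg_mem (hg1 (g⁻¹ v))
      rwa [h0, neg_sub] at h1
    · apply g.injective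
      rw [h0, hg2 w hw]

/-- `(x, y) ↦ (a x, b y)` on `E × E'` -/
def dg (F : Type) {E E' : Type} [Field F] [Field E] [Field E'] [Algebra F E] [Algebra F E']
    (a : Eˣ) (b : E'ˣ) : (E × E') ≃ₗ[F] (E × E') :=
  LinearEquiv.prodCongr
    (LinearEquiv.ofLinearMap (LinearMap.mulLeft F (a : E)) (LinearMap.mulLeft F ((a⁻¹ : Eˣ) : E))
      (by ext x; simp) (by ext x; simp))
    (LinearEquiv.ofLinearMap (LinearMap.mulLeft F (b : E')) (LinearMap.mulLeft F ((b⁻¹ : E'ˣ) : E'))
      (by ext x; simp) (by ext x; simp))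

theorem dg_apply (F : Type) {E E' : Type} [Field F] [Field E] [Field E'] [Algebra F E]
    [Algebra F E'] (a : Eˣ) (b : E'ˣ) (x : E × E') : dg F a b x = (a * x.1, b * x.2) := rfl

/-- the family of fields, all inside the algebraic closure of `F` -/
abbrev Fam (F : Type) [Field F] (N : ℕ) : Type := Fin N → IntermediateField F (AlgebraicClosure F)

/-- the space of a family -/
abbrev Sp {F : Type} [Field F] {N : ℕ} (E : Fam F N) : Type := ∀ s, E s

/-- componentwise multiplication -/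
noncomputable def mE {F : Type} [Field F] {N : ℕ} (E : Fam F N) : (∀ s, (E s)ˣ) →* (Sp E ≃ₗ[F] Sp E) where
  toFun γ :=
    { toFun := fun v s => γ s * v s
      map_add' := fun v w => by
        funext s
        exact mul_add _ _ _
      map_smul' := fun a v => by
        funext s
        exact mul_smul_comm a (γ s : E s) (v s)
      invFun := fun v s => ((γ s)⁻¹ : (E s)ˣ) * v s
      left_inv := fun v => by
        funext s
        exact Units.inv_mul_cancel_left _ _
      right_inv := fun v => by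
        funext s
        exact Units.mul_inv_cancel_left _ _ }
  map_one' := by
    ext v s
    exact congrArg Subtype.val (one_mul (v s))
  map_mul' γ δ := by
    ext v s
    exact congrArg Subtype.val (mul_assoc (γ s : E s) (δ s : E s) (v s))

theorem mE_apply {F : Type} [Field F] {N : ℕ} (E : Fam F N) (γ : ∀ s, (E s)ˣ) (v : Sp E)
    (s : Fin N) : mE E γ v s = γ s * v s := rfl

/-- the subspace of the components `s` with `w s = true` -/
def Ww {F : Type} [Field F] {N : ℕ} (E : Fam F N) (w : Fin N → Bool) : Submodule F (Sp E) where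
  carrier := {v | ∀ s, w s = false → v s = 0}
  zero_mem' := fun _ _ => rfl
  add_mem' := fun {v v'} hv hv' s hs => by
    change v s + v' s = 0
    rw [hv s hs, hv' s hs, add_zero]
  smul_mem' := fun a v hv s hs => by
    change a • v s = 0
    rw [hv s hs, smul_zero]

/-! ## The polynomial -/

/-- `Y ^ (q ^ n - 1) + x Y ^ (q ^ i - 1) + 1` over `k(x)` -/
noncomputable def FL (k : Type) [Field k] (q i n : ℕ) : (RatFunc k)[X] :=
  SnT.FF k (X ^ (q ^ n - 1) + 1) (-X ^ (q ^ i - 1))

theorem aeval_FL {k : Type} [Field k] (q i n : ℕ) {L : Type} [Field L] [Algebra (RatFunc k) L]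
    (y : L) : aeval y (FL k q i n) = y ^ (q ^ n - 1) + xx k L * y ^ (q ^ i - 1) + 1 := by
  rw [FL, SnT.aeval_FF]
  simp only [eval₂_add, eval₂_pow, eval₂_X, eval₂_one, eval₂_neg]
  ring

/-- the roots of the additive polynomial `Y ^ (q ^ n) + x Y ^ (q ^ i) + Y` -/
def Vl (k : Type) [Field k] (q i n : ℕ) (L : Type) [Field L] [Algebra (RatFunc k) L] : Set L :=
  {y | y ^ (q ^ n) + xx k L * y ^ (q ^ i) + y = 0}

theorem mem_Vl {k : Type} [Field k] {q i n : ℕ} (hq : 2 ≤ q) (hi : 0 < i) (hn : 0 < n) {L : Type}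
    [Field L] [Algebra (RatFunc k) L] (y : L) :
    y ∈ Vl k q i n L ↔ y = 0 ∨ y ∈ (FL k q i n).rootSet L := by
  have hp : ∀ m : ℕ, 0 < m → 2 ≤ q ^ m := fun m hm =>
    le_trans hq (le_self_pow (by omega) hm.ne')
  have hi' := hp i hi
  have hn' := hp n hn
  have h1 : ∀ m : ℕ, 2 ≤ q ^ m → y ^ (q ^ m) = y ^ (q ^ m - 1) * y := by
    intro m hm
    conv_lhs => rw [← Nat.sub_add_cancel (by omega : 1 ≤ q ^ m), pow_succ]
  have h3 : y ^ (q ^ n) + xx k L * y ^ (q ^ i) + y =
      y * (y ^ (q ^ n - 1) + xx k L * y ^ (q ^ i - 1) + 1) := by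
    rw [h1 n hn', h1 i hi']
    ring
  have h0 : FL k q i n ≠ 0 := by
    intro h
    have h2 := aeval_FL (k := k) q i n (L := RatFunc k) 0
    rw [h, map_zero, zero_pow (by omega), zero_pow (by omega), mul_zero, add_zero, zero_add] at h2
    exact zero_ne_one h2
  rw [mem_rootSet, aeval_FL]
  change y ^ (q ^ n) + xx k L * y ^ (q ^ i) + y = 0 ↔ _
  rw [h3, mul_eq_zero]
  constructor
  · rintro (h | h)
    · exact Or.inl h
    · exact Or.inr ⟨h0, h⟩
  · rintro (h | h)
    · exact Or.inl h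
    · exact Or.inr h.2

/-- coordinates `E × E'` on the roots: `E` small roots, `E'` big roots -/
structure Cd {k F E E' : Type} [Field k] [Field F] [Field E] [Field E'] [Algebra F E]
    [Algebra F E'] (ι : F →+* k) (q i n : ℕ) {L : Type} [Field L] [Algebra (RatFunc k) L]
    (A : ValuationSubring L) (e : E × E' → L) : Prop where
  inj : Function.Injective e
  range : Set.range e = Vl k q i n L
  add : ∀ z z', e (z + z') = e z + e z'
  smul : ∀ (a : F) z, e (a • z) = cc k L (ι a) * e z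
  small : ∀ x, e (x, 0) ∈ A.nonunits
  big : ∀ x y, y ≠ 0 → e (x, y) ∉ A

end MP7b0bad.Lin
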