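import Pool.Agent.Work.MP_7b0bad_ag.Lin.Stmts
import Pool.Agent.Work.MP_7b0bad_ag.SnT.SCharE

set_option autoImplicit false

/-!
# Block Lin, item EAct: the decomposition group in coordinates
-/

open Polynomial Pointwise

namespace MP7b0bad.Lin

open SnT (cc xx)

section

variable {k : Type} [Field k] {L : Type} [Field L] [Algebra (RatFunc k) L] {A : ValuationSubring L}

theorem EAct_mul (hA : AtInfty (k := k) A) {s t : L} {c d : k}
    (hs : s - cc k L c ∈ A.nonunits) (ht : t - cc k L d ∈ A.nonunits) :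
    s * t - cc k L (c * d) ∈ A.nonunits := by
  rw [ValuationSubring.mem_nonunits_iff] at hs ht ⊢
  have e : s * t - cc k L (c * d) = (s - cc k L c) * t + cc k L c * (t - cc k L d) := by
    rw [map_mul]
    ring
  have hc : A.valuation (cc k L c) ≤ 1 := (A.valuation_le_one_iff _).2 (hA.1 c)
  have hd : A.valuation (cc k L d) ≤ 1 := (A.valuation_le_one_iff _).2 (hA.1 d)
  have ht1 : A.valuation t ≤ 1 := by
    have e1 : t = (t - cc k L d) + cc k L d := by ring
    rw [e1]
    exact A.valuation.map_add_le ht.le hd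
  rw [e]
  refine A.valuation.map_add_lt ?_ ?_
  · rw [map_mul]
    exact (mul_le_of_le_one_right' ht1).trans_lt hs
  · rw [map_mul]
    exact (mul_le_of_le_one_left' hc).trans_lt ht

theorem EAct_uniq (hA : AtInfty (k := k) A) {s : L} {c d : k}
    (hs : s - cc k L c ∈ A.nonunits) (ht : s - cc k L d ∈ A.nonunits) : c = d := by
  rw [ValuationSubring.mem_nonunits_iff] at hs ht
  by_contra hne
  have h1 := F3_C hA (c - d) (sub_ne_zero.2 hne)
  have e : algebraMap (RatFunc k) L (algebraMap k (RatFunc k) (c - d)) =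
      (s - cc k L d) - (s - cc k L c) := by
    change cc k L (c - d) = _
    rw [map_sub]
    ring
  rw [e] at h1
  have h2 := A.valuation.map_sub_lt ht hs
  rw [h1] at h2
  exact lt_irrefl _ h2

theorem EAct_sig (σ : L ≃ₐ[RatFunc k] L) (hσ : σ • A = A) {s : L} {c : k}
    (hs : s - cc k L c ∈ A.nonunits) : σ s - cc k L c ∈ A.nonunits := by
  rw [ValuationSubring.mem_nonunits_iff] at hs ⊢
  have h := F8_dec A σ hσ _ hs
  rw [map_sub] at h
  have e : σ (cc k L c) = cc k L c := σ.commutes _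
  rwa [e] at h

end

theorem prf_EAct : EAct := by
  intro p _ k _ _ F E E' _ _ _ _ _ _ _ _ ι κ κ' m i j hD L _ _ A hA e w₀ y₀ hC hw hy hκ hκ' σ hσ
  obtain ⟨α₀, hy⟩ := hy
  have he0 : e 0 = 0 := by
    have h := hC.add 0 0
    rw [add_zero] at h
    exact left_eq_add.1 h
  have hz : ∀ z, e z = 0 → z = 0 := fun z h => hC.inj (h.trans he0.symm)
  have hsmall : ∀ z : E × E', A.valuation (e z) < 1 → z.2 = 0 := by
    intro z h
    by_contra hne
    have h1 := hC.big z.1 z.2 hne
    apply h1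
    rw [← A.valuation_le_one_iff]
    exact h.le
  have hperm : ∀ z, ∃ z', σ (e z) = e z' := by
    intro z
    have h1 : e z ∈ Vl k (p ^ m) i (i + j) L := by
      rw [← hC.range]
      exact ⟨z, rfl⟩
    have h2 : σ (e z) ∈ Vl k (p ^ m) i (i + j) L := by
      have h3 : e z ^ ((p ^ m) ^ (i + j)) + xx k L * e z ^ ((p ^ m) ^ i) + e z = 0 := h1
      have h4 := congrArg σ h3
      rw [map_zero, map_add, map_add, map_mul, map_pow, map_pow] at h4
      have e1 : σ (xx k L) = xx k L := σ.commutes _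
      rw [e1] at h4
      exact h4
    rw [← hC.range] at h2
    obtain ⟨z', hz'⟩ := h2
    exact ⟨z', hz'.symm⟩
  have hw0 : w₀ ≠ 0 := by
    intro h
    rw [hw] at h
    have := congrArg Prod.fst (hz _ h)
    exact one_ne_zero this
  have hy0 : y₀ ≠ 0 := by
    intro h
    rw [hy] at h
    have := congrArg Prod.snd (hz _ h)
    exact one_ne_zero this
  have hσw0 : σ w₀ ≠ 0 := fun h => hw0 ((map_eq_zero_iff σ σ.injective).1 h)
  have hσy0 : σ y₀ ≠ 0 := fun h => hy0 ((map_eq_zero_iff σ σ.injective).1 h)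
  have hlt : ∀ α, A.valuation (e (α, 0)) < 1 := fun α =>
    (A.mem_nonunits_iff).1 (hC.small α)
  -- the small roots
  have hsm : ∀ α, ∃ α', σ (e (α, 0)) = e (α', 0) := by
    intro α
    obtain ⟨z', h⟩ := hperm (α, 0)
    have h1 := F8_dec A σ hσ _ (hlt α)
    rw [h] at h1
    have h2 := hsmall _ h1
    refine ⟨z'.1, ?_⟩
    rw [h, ← h2]
  obtain ⟨a, ha⟩ := hsm 1
  rw [← hw] at ha
  have ha0 : a ≠ 0 := by
    rintro rfl
    apply hσw0
    rw [ha]
    exact he0
  obtain ⟨z, hzy⟩ := hperm (α₀, 1)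
  rw [← hy] at hzy
  have hyA : y₀ ∉ A := by
    rw [hy]
    exact hC.big _ _ one_ne_zero
  have hb0 : z.2 ≠ 0 := by
    intro hb
    apply hyA
    have h1 : A.valuation (σ y₀) < 1 := by
      rw [hzy]
      have : z = (z.1, 0) := Prod.ext rfl hb
      rw [this]
      exact hlt _
    rw [SnT.SCharE_lt A σ hσ] at h1
    rw [← A.valuation_le_one_iff]
    exact h1.le
  have hwa : σ w₀ / w₀ - cc k L (κ a) ∈ A.nonunits := by
    rw [ha]
    exact hκ a
  have hyb : σ y₀ / y₀ - cc k L (κ' z.2) ∈ A.nonunits := by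
    rw [hzy]
    exact hκ' z.1 z.2
  refine ⟨Units.mk0 a ha0, Units.mk0 z.2 hb0, fun α => ?_, fun α β => ?_⟩
  · obtain ⟨α', h⟩ := hsm α
    have h1 := EAct_sig σ hσ (hκ α)
    rw [map_div₀] at h1
    have h2 := EAct_mul hA hwa h1
    have e1 : σ w₀ / w₀ * (σ (e (α, 0)) / σ w₀) = e (α', 0) / w₀ := by
      rw [h]
      field_simp
    rw [e1] at h2
    have h3 := EAct_uniq hA h2 (hκ α')
    rw [← map_mul] at h3
    have h4 := κ.injective h3
    rw [h, ← h4]
    rfl
  · obtain ⟨z', h⟩ := hperm (α, β)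
    have h1 := EAct_sig σ hσ (hκ' α β)
    rw [map_div₀] at h1
    have h2 := EAct_mul hA hyb h1
    have e1 : σ y₀ / y₀ * (σ (e (α, β)) / σ y₀) = e (z'.1, z'.2) / y₀ := by
      rw [h]
      field_simp
    rw [e1] at h2
    have h3 := EAct_uniq hA h2 (hκ' z'.1 z'.2)
    rw [← map_mul] at h3
    have h4 := κ'.injective h3
    refine ⟨z'.1, ?_⟩
    rw [h]
    have : z' = (z'.1, z.2 * β) := Prod.ext rfl h4.symm
    rw [this]
    rfl

end MP7b0bad.Lin
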